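import Pool.Agent.Lib.MP_3145b1_co.AG.Spec

/-!
# MP_3145b1_co, project AG, module AAv: first bound
-/

set_option autoImplicit false

namespace Pool.Agent.MP3145b1.AG

open Finset Pool.Agent.MP3145b1 Pool.Agent.MP3145b1.RC Pool.Agent.MP3145b1.RD Pool.Agent.MP3145b1.RT
  Pool.Agent.MP3145b1.UM

/-- the sum of the linearised two-point inequalities -/
private theorem AAv_dlp (h1 : S_ATl) (a p : ℕ → ℝ) (J : Finset ℕ) (i : ℕ) (F : ℝ → ℝ) (z Λ : ℝ)
    (hp : ∀ i, 0 ≤ p i ∧ p i ≤ 1) (hΛ : 0 ≤ Λ) :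
    ∑ T ∈ J.powerset.erase ∅, wt p T * dlp (p i) (Co a p J T F z) (Co a p J T F (z + a i)) ≤
      28 * (p i * (1 - p i)) * (1 + Real.log (1 + Λ) / 2) *
        ∑ T ∈ J.powerset.erase ∅, wt p T * Co a p J T (hA (a i) F) z ^ 2 +
      7 / (2 * (1 + Λ)) * (p i * (1 - p i) *
        ∑ T ∈ J.powerset.erase ∅, wt p T * Co a p J T (gA (p i) (a i) F) z ^ 2) := by
  rw [← mul_assoc (7 / (2 * (1 + Λ))), Finset.mul_sum, Finset.mul_sum, ← Finset.sum_add_distrib]
  refine Finset.sum_le_sum fun T _ => ?_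
  have hw := wt_nonneg hp T
  have h := mul_le_mul_of_nonneg_left
    (h1 (p i) (Co a p J T F z) (Co a p J T F (z + a i)) Λ (hp i).1 (hp i).2 hΛ) hw
  refine h.trans (le_of_eq ?_)
  rw [Co_hA, Co_gA]
  have h2 : (1 + Λ) ≠ 0 := by positivity
  field_simp
  ring

theorem rAAv (h1 : S_ATl) (h2 : S_ARc) (h3 : S_ADc) : S_AAv := by
  intro a p J F z Λ hp hF hΛ
  have hB : 0 ≤ 7 / (2 * (1 + Λ)) := by positivity
  induction J using Finset.induction_on generalizing z with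
  | empty => simp [Hs, Dd, Ps]
  | insert i J hi ih =>
    obtain ⟨e1, e2⟩ := h2 a p J i F z hi hp hF
    have e3 := h3 a p J i F z hi hp
    have e4 := AAv_dlp h1 a p J i F z Λ hp hΛ
    have e5 := mul_le_mul_of_nonneg_left (ih z) (hp i).1
    have e6 := mul_le_mul_of_nonneg_left (ih (z + a i)) (sub_nonneg.2 (hp i).2)
    have e7 := mul_le_mul_of_nonneg_left e3 hB
    rw [e2]
    generalize ∑ T ∈ J.powerset.erase ∅, wt p T * Co a p J T (hA (a i) F) z ^ 2 = X at *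
    generalize ∑ T ∈ J.powerset.erase ∅, wt p T * Co a p J T (gA (p i) (a i) F) z ^ 2 = Y at *
    generalize ∑ T ∈ J.powerset.erase ∅,
      wt p T * dlp (p i) (Co a p J T F z) (Co a p J T F (z + a i)) = W at *
    generalize 7 / (2 * (1 + Λ)) = B at *
    generalize Real.log (1 + Λ) = L at *
    nlinarith

end Pool.Agent.MP3145b1.AG
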