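import Pool.Agent.Lib.MP_3145b1_co.AG.Spec

/-!
# MP_3145b1_co, project AG, module AC1: the class RA
-/

set_option autoImplicit false

namespace Pool.Agent.MP3145b1.AG

open Finset Pool.Agent.MP3145b1 Pool.Agent.MP3145b1.RC Pool.Agent.MP3145b1.RD Pool.Agent.MP3145b1.RT Pool.Agent.MP3145b1.UM

private theorem AC1_par (N : ℕ) (f : (Fin N → Bool) → ℝ) (hf : ∀ x, f x = 1 ∨ f x = -1) :
    ∑ S : Finset (Fin N), coeff f S ^ 2 = 1 := by
  rw [Q.parseval]
  have h : (fun x => f x ^ 2) = fun _ => (1 : ℝ) := by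
    funext x
    rcases hf x with h | h <;> rw [h] <;> norm_num
  rw [h, Q.mean_const]

private theorem AC1_VI (N : ℕ) (f : (Fin N → Bool) → ℝ) (hf : ∀ x, f x = 1 ∨ f x = -1) :
    1 - coeff f ∅ ^ 2 ≤ influence f := by
  have h0 := AC1_par N f hf
  rw [← Finset.add_sum_erase _ _ (mem_univ (∅ : Finset (Fin N)))] at h0
  unfold influence
  rw [← Finset.add_sum_erase _ _ (mem_univ (∅ : Finset (Fin N)))]
  have h1 : ∑ S ∈ (univ : Finset (Finset (Fin N))).erase ∅, coeff f S ^ 2 ≤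
      ∑ S ∈ (univ : Finset (Finset (Fin N))).erase ∅, (S.card : ℝ) * coeff f S ^ 2 := by
    refine Finset.sum_le_sum fun S hS => ?_
    have h2 : 1 ≤ S.card := Finset.card_pos.2 (Finset.nonempty_iff_ne_empty.2 (Finset.ne_of_mem_erase hS))
    have h3 : (1 : ℝ) ≤ (S.card : ℝ) := by exact_mod_cast h2
    have h4 := mul_le_mul_of_nonneg_right h3 (sq_nonneg (coeff f S))
    rw [one_mul] at h4
    exact h4
  have h4 : ((∅ : Finset (Fin N)).card : ℝ) * coeff f ∅ ^ 2 = 0 := by simp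
  rw [h4, zero_add]
  linarith

private theorem AC1_coeff_neg {N : ℕ} (f : (Fin N → Bool) → ℝ) (S : Finset (Fin N)) :
    coeff (fun x => - f x) S = - coeff f S := by
  unfold coeff
  rw [← mul_neg, ← Finset.sum_neg_distrib]
  congr 1
  exact Finset.sum_congr rfl fun x _ => by rw [neg_mul]

private theorem AC1_neg (K : ℝ) {N : ℕ} (f : (Fin N → Bool) → ℝ) (hf : Shp K f) :
    Shp K (fun x => - f x) := by
  unfold Shp at hf ⊢
  unfold influence at hf ⊢
  simp only [AC1_coeff_neg, neg_sq]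
  exact hf

/-- **AC1** (the class RA) -/
theorem rAC1 (h1 : S_TGth) (h2 : S_TGsy) (h3 : S_TPrg) (h4 : S_AGs) : S_AC1 := by
  intro w K0 K s C0 hPG hK0 hK hlog hC0 N f hf
  induction hf with
  | leaf f hv hf =>
    refine ⟨hv, ?_⟩
    unfold Shp at hf ⊢
    have h5 := AC1_VI N f hv
    exact hf.trans (mul_le_mul_of_nonneg_right hC0 (by linarith))
  | neg f _ ih =>
    refine ⟨fun x => ?_, AC1_neg K f ih.2⟩
    beta_reduce
    rcases ih.1 x with h | h
    · exact Or.inr (by rw [h])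
    · exact Or.inl (by rw [h]; norm_num)
  | arb P u hP hd _ M hs φ ih =>
    refine ⟨fun x => ?_, h4 K s N M P u φ (by linarith) hlog hs ⟨hP, hd, fun i x => (ih i).1 x⟩
      (fun i => (ih i).2)⟩
    beta_reduce
    split_ifs
    · exact Or.inr rfl
    · exact Or.inl rfl
  | thr P u hP hd _ M a θ1 θ2 ih =>
    refine ⟨fun x => ?_, h1 K N M P u a θ1 θ2 hK ⟨hP, hd, fun i x => (ih i).1 x⟩
      (fun i => (ih i).2)⟩
    beta_reduce
    split_ifs
    · exact Or.inr rfl
    · exact Or.inl rfl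
  | sym P u hP hd _ M φ ih =>
    refine ⟨fun x => ?_, h2 K N M P u φ hK ⟨hP, hd, fun i x => (ih i).1 x⟩
      (fun i => (ih i).2)⟩
    beta_reduce
    split_ifs
    · exact Or.inr rfl
    · exact Or.inl rfl
  | prog P u hP hd _ n σ v x0 o hr ih =>
    refine ⟨fun x => ?_, h3 w K0 K hPG hK0 N P u ⟨hP, hd, fun i x => (ih i).1 x⟩
      (fun i => (ih i).2) n σ v x0 o hr⟩
    beta_reduce
    split_ifs
    · exact Or.inr rfl
    · exact Or.inl rfl

end Pool.Agent.MP3145b1.AG
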