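import Pool.Agent.Lib.MP_3145b1_co.AG.Spec2

/-!
# MP_3145b1_co, project AG, module AC4: the inequality for the class `UH w s C0`
-/

set_option autoImplicit false

namespace Pool.Agent.MP3145b1.AG

open Finset Pool.Agent.MP3145b1 Pool.Agent.MP3145b1.RC Pool.Agent.MP3145b1.RD Pool.Agent.MP3145b1.RT
  Pool.Agent.MP3145b1.UM Pool.Agent.MP3145b1.LD

private theorem AC4_coeff_neg {N : ℕ} (f : (Fin N → Bool) → ℝ) (S : Finset (Fin N)) :
    coeff (fun x => - f x) S = - coeff f S := by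
  unfold coeff
  rw [← mul_neg, ← Finset.sum_neg_distrib]
  congr 1
  exact Finset.sum_congr rfl fun x _ => by rw [neg_mul]

private theorem AC4_neg (K : ℝ) {N : ℕ} (f : (Fin N → Bool) → ℝ) (hf : Mq K f) :
    Mq K (fun x => - f x) := by
  have hI : influence (fun x => - f x) = influence f := by
    unfold influence
    simp only [AC4_coeff_neg, neg_sq]
  intro h
  rw [AC4_coeff_neg, neg_sq] at h
  obtain ⟨S, h1, h2, h3⟩ := hf h
  refine ⟨S, h1, ?_, ?_⟩
  · rw [AC4_coeff_neg]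
    exact neg_ne_zero.mpr h2
  · rw [hI]
    simp only [AC4_coeff_neg, neg_sq]
    exact h3

private theorem AC4_all (h1 : S_UTh) (h2 : S_USy) (h3 : S_UUa) (h4 : S_UPr) (h5 : S_ULv)
    (h6 : S_AGm) (h7 : S_AHm) (w : ℕ) (K0 K s C0 : ℝ) (hPG : PG w K0) (hK0 : K0 ≤ K) (hK : 30000 ≤ K)
    (hlog : 25 / 2 + 7 / 2 * Real.log (1 + 3 * s) ≤ K) (hC : 0 ≤ C0) (hC2 : 13 * C0 ≤ K)
    (N : ℕ) (f : (Fin N → Bool) → ℝ) (hf : UH w s C0 f) :
    (∀ x, f x = 1 ∨ f x = -1) ∧ Mq K f := by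
  induction hf with
  | leaf f hv hf => exact ⟨hv, h5 K C0 N f hC (by linarith) hC2 hv hf⟩
  | neg f _ ih =>
    refine ⟨fun x => ?_, AC4_neg K f ih.2⟩
    beta_reduce
    rcases ih.1 x with h | h
    · exact Or.inr (by rw [h])
    · exact Or.inl (by rw [h]; norm_num)
  | una P u hP hd _ M φ hφ ih =>
    refine ⟨fun x => ?_, h3 K N M P u φ hK hφ ⟨hP, hd, fun i x => (ih i).1 x⟩
      (fun i => (ih i).2)⟩
    beta_reduce
    split_ifs
    · exact Or.inr rfl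
    · exact Or.inl rfl
  | gen P u hP hd _ M φ hφ ih =>
    refine ⟨fun x => ?_, h7 K C0 N M P u φ hC (by linarith) (by linarith)
      ⟨hP, hd, fun i x => (ih i).1 x⟩ hφ (fun i => (ih i).2)⟩
    beta_reduce
    split_ifs
    · exact Or.inr rfl
    · exact Or.inl rfl
  | arb P u hP hd _ M hs φ ih =>
    refine ⟨fun x => ?_, h6 K s N M P u φ (by linarith) hlog hs ⟨hP, hd, fun i x => (ih i).1 x⟩
      (fun i => (ih i).2)⟩
    beta_reduce
    split_ifs
    · exact Or.inr rfl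
    · exact Or.inl rfl
  | thr P u hP hd _ M a θ1 θ2 ih =>
    refine ⟨fun x => ?_, h1 K N M P u a θ1 θ2 hK ⟨hP, hd, fun i x => (ih i).1 x⟩
      (fun i => (ih i).2)⟩
    beta_reduce
    split_ifs
    · exact Or.inr rfl
    · exact Or.inl rfl
  | sym P u hP hd _ M φ ih =>
    refine ⟨fun x => ?_, h2 K N M P u φ hK ⟨hP, hd, fun i x => (ih i).1 x⟩
      (fun i => (ih i).2)⟩
    beta_reduce
    split_ifs
    · exact Or.inr rfl
    · exact Or.inl rfl
  | prog P u hP hd _ n σ v x0 o hr ih =>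
    refine ⟨fun x => ?_, h4 w K0 K hPG hK0 (by linarith) N P u ⟨hP, hd, fun i x => (ih i).1 x⟩
      (fun i => (ih i).2) n σ v x0 o hr⟩
    beta_reduce
    split_ifs
    · exact Or.inr rfl
    · exact Or.inl rfl

/-- **AC4** (the class UH) -/
theorem rAC4 (h1 : S_UTh) (h2 : S_USy) (h3 : S_UUa) (h4 : S_UPr) (h5 : S_ULv) (h6 : S_AGm)
    (h7 : S_AHm) : S_AC4 :=
  fun w K0 K s C0 hPG hK0 hK hlog hC hC2 N f hf =>
    AC4_all h1 h2 h3 h4 h5 h6 h7 w K0 K s C0 hPG hK0 hK hlog hC hC2 N f hf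

end Pool.Agent.MP3145b1.AG
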