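import Pool.Agent.Lib.MP_3145b1_co.AG.Spec

/-!
# MP_3145b1_co, project AG: one more variable in the potential `Ps`
-/

set_option autoImplicit false

namespace Pool.Agent.MP3145b1.AG

open Finset Pool.Agent.MP3145b1 Pool.Agent.MP3145b1.RC Pool.Agent.MP3145b1.RD Pool.Agent.MP3145b1.RT Pool.Agent.MP3145b1.UM

private theorem ADc_sg_nonneg {p : ℕ → ℝ} (hp : ∀ i, 0 ≤ p i ∧ p i ≤ 1) (B : Finset ℕ) : 0 ≤ sg p B :=
  Finset.sum_nonneg fun i _ => mul_nonneg (hp i).1 (by linarith [(hp i).2])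

private theorem ADc_sg1 (p : ℕ → ℝ) (J T : Finset ℕ) (i : ℕ) (hi : i ∉ J) (hT : i ∉ T) :
    sg p (insert i J \ T) = sg p (J \ T) + p i * (1 - p i) := by
  unfold sg
  rw [Finset.insert_sdiff_of_notMem _ hT, Finset.sum_insert (fun h => hi (Finset.mem_sdiff.1 h).1)]
  ring

private theorem ADc_sg2 (p : ℕ → ℝ) (J T : Finset ℕ) (i : ℕ) (hi : i ∉ J) :
    sg p (insert i J \ insert i T) = sg p (J \ T) := by
  have e : insert i J \ insert i T = J \ T := by
    ext j
    simp only [Finset.mem_sdiff, Finset.mem_insert]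
    constructor
    · rintro ⟨h1 | h1, h2⟩
      · exact absurd (Or.inl h1) h2
      · exact ⟨h1, fun h => h2 (Or.inr h)⟩
    · rintro ⟨h1, h2⟩
      refine ⟨Or.inr h1, ?_⟩
      rintro (h | h)
      · exact hi (h ▸ h1)
      · exact h2 h
  rw [e]

theorem rADc : S_ADc := by
  intro a p J i F z hi hp
  have hemp : (∅ : Finset ℕ) ∈ J.powerset := Finset.empty_mem_powerset J
  have hemp' : (∅ : Finset ℕ) ∈ (insert i J).powerset := Finset.empty_mem_powerset _
  have hv : 0 ≤ p i * (1 - p i) := mul_nonneg (hp i).1 (by linarith [(hp i).2])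
  obtain ⟨h, hh⟩ : ∃ h : Finset ℕ → ℝ, ∀ T, h T =
      sg p (insert i J \ T) * (wt p T * Co a p (insert i J) T F z ^ 2) := ⟨_, fun _ => rfl⟩
  have hne : ∀ T ∈ J.powerset, i ∉ T := fun T hT h0 => hi (Finset.mem_powerset.1 hT h0)
  have h1 : ∀ T ∈ J.powerset, h T = (sg p (J \ T) + p i * (1 - p i)) *
      (wt p T * (p i * Co a p J T F z + (1 - p i) * Co a p J T F (z + a i)) ^ 2) := fun T hT => by
    rw [hh, ADc_sg1 p J T i hi (hne T hT), Co_insert_not a p J T i hi (Finset.mem_powerset.1 hT)]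
  have h2 : ∀ T ∈ J.powerset, h (insert i T) = sg p (J \ T) *
      (4 * (p i * (1 - p i)) * wt p T * ((Co a p J T F z - Co a p J T F (z + a i)) / 2) ^ 2) :=
    fun T hT => by
      rw [hh, ADc_sg2 p J T i hi, Co_insert_mem a p J T i hi (Finset.mem_powerset.1 hT),
        wt_insert p T i (hne T hT)]
  have h3 : 0 ≤ h (insert i ∅) := by
    rw [h2 ∅ hemp]
    exact mul_nonneg (ADc_sg_nonneg hp _)
      (mul_nonneg (mul_nonneg (by linarith) (wt_nonneg hp _)) (sq_nonneg _))
  have h4 : Ps a p (insert i J) F z = ∑ T ∈ J.powerset.erase ∅, (h T + h (insert i T)) +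
      h (insert i ∅) := by
    have e1 : Ps a p (insert i J) F z = ∑ T ∈ (insert i J).powerset.erase ∅, h T :=
      Finset.sum_congr rfl fun T _ => (hh T).symm
    have e2 := Finset.add_sum_erase (insert i J).powerset h hemp'
    have e3 := Finset.add_sum_erase J.powerset h hemp
    have e4 := Finset.add_sum_erase J.powerset (fun T => h (insert i T)) hemp
    rw [Finset.sum_powerset_insert hi] at e2
    rw [e1, Finset.sum_add_distrib]
    linarith
  have h5 : ∑ T ∈ J.powerset.erase ∅, (h T + h (insert i T)) =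
      p i * Ps a p J F z + (1 - p i) * Ps a p J F (z + a i) +
      p i * (1 - p i) * ∑ T ∈ J.powerset.erase ∅, wt p T * Co a p J T (gA (p i) (a i) F) z ^ 2 := by
    unfold Ps
    rw [Finset.mul_sum, Finset.mul_sum, Finset.mul_sum, ← Finset.sum_add_distrib,
      ← Finset.sum_add_distrib]
    refine Finset.sum_congr rfl fun T hT => ?_
    have hT' := Finset.mem_of_mem_erase hT
    rw [h1 T hT', h2 T hT', Co_gA]
    ring
  rw [h4, h5]
  linarith

end Pool.Agent.MP3145b1.AG
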