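import Pool.Agent.Lib.MP_3145b1_co.AG.Spec3

/-!
# MP_3145b1_co, project AG, module ADh: restrictions of functions of degree `k`
-/

set_option autoImplicit false

namespace Pool.Agent.MP3145b1.AG

open Finset Pool.Agent.MP3145b1 Pool.Agent.MP3145b1.RC Pool.Agent.MP3145b1.RD Pool.Agent.MP3145b1.RT Pool.Agent.MP3145b1.UM Pool.Agent.MP3145b1.LD

/-- The restrictions of a function of degree `k` have degree at most `k`. -/
private theorem ADh_deg {N k : ℕ} (f : (Fin N → Bool) → ℝ)
    (hk : ∀ S : Finset (Fin N), k < S.card → coeff f S = 0) (A : Finset (Fin N)) (y : Fin N → Bool)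
    (S : Finset (Fin N)) (hS : k < S.card) : coeff (Q.blk A y f) S = 0 := by
  by_cases hSA : S ⊆ A
  · have h1 := Q.marginal A S hSA f
    have h2 : ∑ T ∈ (Aᶜ).powerset, coeff f (S ∪ T) ^ 2 = 0 := by
      refine Finset.sum_eq_zero fun T _ => ?_
      rw [hk (S ∪ T) (lt_of_lt_of_le hS (Finset.card_le_card Finset.subset_union_left))]
      norm_num
    rw [h2] at h1
    have h3 : (∑ z : Fin N → Bool, coeff (Q.blk A z f) S ^ 2) / 2 ^ N = 0 := h1
    have h4 : (∑ z : Fin N → Bool, coeff (Q.blk A z f) S ^ 2) = 0 := by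
      rcases div_eq_zero_iff.1 h3 with h | h
      · exact h
      · exact absurd h (by positivity)
    have h5 := (Finset.sum_eq_zero_iff_of_nonneg
      (fun z (_ : z ∈ (univ : Finset (Fin N → Bool))) => sq_nonneg (coeff (Q.blk A z f) S))).1 h4 y
      (Finset.mem_univ y)
    exact pow_eq_zero_iff (two_ne_zero) |>.1 h5
  · exact Q.coeff_blk_zero A S y f hSA

theorem rADh (h1 : S_ADk) : S_ADh := by
  intro N k f hk1 hf hk A y
  exact h1 N k (Q.blk A y f) hk1 (Q.blk_pm A y hf) (ADh_deg f hk A y)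

end Pool.Agent.MP3145b1.AG
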