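import Pool.Agent.Lib.MP_3145b1_co.AG.Spec3

/-!
# MP_3145b1_co, project AG, module ADk: spectral entropy of Boolean functions of degree `k`
-/

set_option autoImplicit false

namespace Pool.Agent.MP3145b1.AG

open Finset Pool.Agent.MP3145b1 Pool.Agent.MP3145b1.RC Pool.Agent.MP3145b1.RD Pool.Agent.MP3145b1.RT Pool.Agent.MP3145b1.UM Pool.Agent.MP3145b1.LD

private theorem ADk_nn {N : ℕ} (f : (Fin N → Bool) → ℝ) : 0 ≤ influence f := by
  unfold influence
  exact Finset.sum_nonneg fun T _ => mul_nonneg (Nat.cast_nonneg _) (sq_nonneg _)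

private theorem ADk_log : 2 / Real.log 2 ≤ 3 := by
  have h := Real.log_two_gt_d9
  have h0 : (0 : ℝ) < Real.log 2 := by linarith
  rw [div_le_iff₀ h0]
  linarith

/-- **ADk**: `Ent ≤ 3 (2 + log_2 k) I` for the Boolean functions of degree `≤ k`. -/
theorem rADk (h1 : S_AKi) : S_ADk := by
  intro N k f hk hf hdeg
  have hg := Q.global f hf
  have hI := ADk_nn f
  have hk1 : (1 : ℝ) ≤ k := by exact_mod_cast hk
  have hlk : 0 ≤ Real.logb 2 (k : ℝ) := Real.logb_nonneg (by norm_num) hk1
  have hm : max 1 (Q.meanKill f) ≤ 2 * (k : ℝ) := by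
    refine max_le (by linarith) ?_
    unfold Q.meanKill
    rcases hI.eq_or_lt with h0 | h0
    · rw [← h0, div_zero]
      linarith
    · rw [div_le_iff₀ h0]
      have h2 := h1 N k f hk hf hdeg
      have h3 : 2 * ((k : ℝ) - 1) * influence f ≤ 2 * (k : ℝ) * influence f :=
        mul_le_mul_of_nonneg_right (by linarith) hI
      exact h2.trans h3
  have hm1 : (1 : ℝ) ≤ max 1 (Q.meanKill f) := le_max_left _ _
  have hlog : Real.logb 2 (max 1 (Q.meanKill f)) ≤ 1 + Real.logb 2 (k : ℝ) := by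
    have h2 : Real.logb 2 (max 1 (Q.meanKill f)) ≤ Real.logb 2 (2 * (k : ℝ)) :=
      Real.logb_le_logb_of_le (by norm_num) (by linarith) hm
    rw [Real.logb_mul (by norm_num) (by linarith), Real.logb_self_eq_one (by norm_num)] at h2
    exact h2
  have hlog0 : 0 ≤ Real.logb 2 (max 1 (Q.meanKill f)) := Real.logb_nonneg (by norm_num) hm1
  refine hg.trans ?_
  refine mul_le_mul_of_nonneg_right ?_ hI
  exact mul_le_mul ADk_log (by linarith) (by linarith) (by norm_num)

end Pool.Agent.MP3145b1.AG
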