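import Pool.Agent.Lib.MP_3145b1_co.AG.Spec

/-!
# MP_3145b1_co, project AG, module AF1: the final statement `S_AF1` (entropy)
-/

set_option autoImplicit false

namespace Pool.Agent.MP3145b1.AG

open Finset Pool.Agent.MP3145b1 Pool.Agent.MP3145b1.RC Pool.Agent.MP3145b1.RD Pool.Agent.MP3145b1.RT Pool.Agent.MP3145b1.UM

private theorem AF1_hh_le {t : ℝ} (ht : 0 ≤ t) : hh t ≤ 1 - t := by
  unfold hh Real.negMulLog
  rcases ht.eq_or_lt with h | h
  · subst h
    simp
  · have h1 : 1 - t⁻¹ ≤ Real.log t := Real.one_sub_inv_le_log_of_pos h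
    have h2 : t * (1 - t⁻¹) ≤ t * Real.log t := mul_le_mul_of_nonneg_left h1 h.le
    have h3 : t * t⁻¹ = 1 := mul_inv_cancel₀ h.ne'
    have h4 : t * (1 - t⁻¹) = t - 1 := by
      rw [mul_sub, h3, mul_one]
    rw [h4] at h2
    linarith

private theorem AF1_term (c : ℝ) : c ^ 2 * Real.logb 2 (1 / c ^ 2) = hh (c ^ 2) / Real.log 2 := by
  unfold hh Real.negMulLog Real.logb
  rw [one_div, Real.log_inv]
  ring

private theorem AF1_sq_le {N : ℕ} (f : (Fin N → Bool) → ℝ) (hf : ∀ x, f x = 1 ∨ f x = -1)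
    (S : Finset (Fin N)) : coeff f S ^ 2 ≤ 1 := by
  have h1 : ∑ T : Finset (Fin N), coeff f T ^ 2 = 1 := by
    rw [Q.parseval, funext (fun x => (by rcases hf x with h | h <;> rw [h] <;> norm_num :
      f x ^ 2 = (1 : ℝ)))]
    exact Q.mean_const 1
  rw [← h1]
  exact Finset.single_le_sum (f := fun T => coeff f T ^ 2) (fun T _ => sq_nonneg _) (mem_univ S)

/-- the logarithmic condition on the constant -/
private theorem AF1_log (w : ℝ) (s C0 : ℝ) (hw : 1 ≤ w) (hs : 0 ≤ s) (hC : 0 ≤ C0) :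
    25 / 2 + 7 / 2 * Real.log (1 + 3 * s) ≤ 4706 * 7000000 * (w + Real.log (2 + s) + C0) := by
  have h0 : 0 ≤ Real.log (2 + s) := Real.log_nonneg (by linarith)
  have h1 : Real.log (1 + 3 * s) ≤ Real.log (4 * (2 + s)) :=
    Real.log_le_log (by linarith) (by linarith)
  have h2 : Real.log (4 * (2 + s)) = Real.log 4 + Real.log (2 + s) :=
    Real.log_mul (by norm_num) (by linarith)
  have h3 : Real.log 4 ≤ 3 := by
    have := Real.log_le_sub_one_of_pos (show (0 : ℝ) < 4 by norm_num)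
    linarith
  linarith

/-- **AF1** (final statement, entropy) -/
theorem rAF1 (h1 : S_GVar) (h2 : S_GPg) (h3 : S_AC1) : S_AF1 := by
  have hlog : 0 < Real.log 2 := Real.log_pos one_lt_two
  refine ⟨4706 * 7000000 / Real.log 2, by positivity, fun w hw s C0 hs hC0 N f hf => ?_⟩
  have hw1 : (1 : ℝ) ≤ (w : ℝ) := by exact_mod_cast hw
  have hl0 : 0 ≤ Real.log (2 + s) := Real.log_nonneg (by linarith)
  have hPG : PG w (4706 * (7000000 * (w : ℝ))) := h2 w (7000000 * (w : ℝ)) (by linarith) (h1 w hw)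
  have hK0 : 4706 * (7000000 * (w : ℝ)) ≤ 4706 * 7000000 * ((w : ℝ) + Real.log (2 + s) + C0) := by
    linarith
  have hK2 : 30000 ≤ 4706 * 7000000 * ((w : ℝ) + Real.log (2 + s) + C0) := by linarith
  have hK3 := AF1_log (w : ℝ) s C0 hw1 hs hC0
  have hK4 : C0 ≤ 4706 * 7000000 * ((w : ℝ) + Real.log (2 + s) + C0) := by linarith
  have hC : 4706 * 7000000 / Real.log 2 * ((w : ℝ) + Real.log (2 + s) + C0) =
      4706 * 7000000 * ((w : ℝ) + Real.log (2 + s) + C0) / Real.log 2 := by ring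
  rw [hC]
  generalize 4706 * 7000000 * ((w : ℝ) + Real.log (2 + s) + C0) = K at hK0 hK2 hK3 hK4
  have hK1 : 1 ≤ K := by linarith
  obtain ⟨hv, hE⟩ := h3 w (4706 * (7000000 * (w : ℝ))) K s C0 hPG hK0 hK2 hK3 hK4 N f hf
  have h2 : ∑ S ∈ (univ : Finset (Finset (Fin N))).erase ∅, coeff f S ^ 2 * Real.logb 2 (1 / coeff f S ^ 2) ≤
      K / Real.log 2 * (influence f - (1 - coeff f ∅ ^ 2)) := by
    rw [Finset.sum_congr rfl (fun S _ => AF1_term (coeff f S)), ← Finset.sum_div, div_mul_eq_mul_div]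
    exact div_le_div_of_nonneg_right hE hlog.le
  have h3 : specEntropy f ≤ K / Real.log 2 * influence f := by
    unfold specEntropy
    rw [← Finset.add_sum_erase univ (fun S : Finset (Fin N) =>
      coeff f S ^ 2 * Real.logb 2 (1 / coeff f S ^ 2)) (mem_univ ∅)]
    have h4 : coeff f ∅ ^ 2 * Real.logb 2 (1 / coeff f ∅ ^ 2) ≤
        K / Real.log 2 * (1 - coeff f ∅ ^ 2) := by
      rw [AF1_term, div_mul_eq_mul_div]
      refine div_le_div_of_nonneg_right ?_ hlog.le
      have h5 := AF1_hh_le (sq_nonneg (coeff f ∅))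
      have h6 := AF1_sq_le f hv ∅
      have h7 : 1 * (1 - coeff f ∅ ^ 2) ≤ K * (1 - coeff f ∅ ^ 2) :=
        mul_le_mul_of_nonneg_right hK1 (by linarith)
      linarith
    have h8 : K / Real.log 2 * influence f = K / Real.log 2 * (1 - coeff f ∅ ^ 2) +
        K / Real.log 2 * (influence f - (1 - coeff f ∅ ^ 2)) := by ring
    rw [h8]
    exact add_le_add h4 h2
  exact ⟨h2, h3, Q.large f hv _ h3⟩

end Pool.Agent.MP3145b1.AG
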