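import Pool.Agent.Lib.MP_3145b1_co.AG.Spec2

/-!
# MP_3145b1_co, project AG, part 2: the final statement `S_AF4`
-/

set_option autoImplicit false

namespace Pool.Agent.MP3145b1.AG

open Finset Pool.Agent.MP3145b1 Pool.Agent.MP3145b1.RC Pool.Agent.MP3145b1.RD Pool.Agent.MP3145b1.RT Pool.Agent.MP3145b1.UM

private theorem AF4_log (s : ℝ) (hs : 0 ≤ s) : Real.log (1 + 3 * s) ≤ 3 + Real.log (2 + s) := by
  have h1 : Real.log (1 + 3 * s) ≤ Real.log (4 * (2 + s)) :=
    Real.log_le_log (by linarith) (by linarith)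
  have h2 : Real.log (4 * (2 + s)) = Real.log 4 + Real.log (2 + s) :=
    Real.log_mul (by norm_num) (by linarith)
  have h3 : Real.log 4 ≤ 4 - 1 := Real.log_le_sub_one_of_pos (by norm_num)
  linarith

/-- **AF4** (final statement, min-entropy, arbitrary gates) -/
theorem rAF4 (h1 : S_GVar) (h2 : S_GPg) (h3 : S_AC4) (h4 : S_UMn) : S_AF4 := by
  refine ⟨4706 * 7000000, by norm_num, fun w hw s C0 hs hC0 N f hf => ?_⟩
  have hw1 : (1 : ℝ) ≤ (w : ℝ) := by exact_mod_cast hw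
  have hl0 : 0 ≤ Real.log (2 + s) := Real.log_nonneg (by linarith)
  have hl1 := AF4_log s hs
  have hPG : PG w (4706 * (7000000 * (w : ℝ))) := h2 w (7000000 * (w : ℝ)) (by linarith) (h1 w hw)
  have hle : 4706 * (7000000 * (w : ℝ)) ≤ 4706 * 7000000 * ((w : ℝ) + Real.log (2 + s) + C0) := by
    linarith
  have hK2 : 30000 ≤ 4706 * 7000000 * ((w : ℝ) + Real.log (2 + s) + C0) := by linarith
  have hK3 : 25 / 2 + 7 / 2 * Real.log (1 + 3 * s) ≤
      4706 * 7000000 * ((w : ℝ) + Real.log (2 + s) + C0) := by linarith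
  have h13 : 13 * C0 ≤ 4706 * 7000000 * ((w : ℝ) + Real.log (2 + s) + C0) := by linarith
  generalize 4706 * 7000000 * ((w : ℝ) + Real.log (2 + s) + C0) = K at hle hK2 hK3 h13 ⊢
  have hK1 : 1 ≤ K := by linarith
  obtain ⟨hv, hE⟩ := h3 w (4706 * (7000000 * (w : ℝ))) K s C0 hPG hle hK2 hK3 hC0 h13 N f hf
  exact ⟨hE, h4 K N f hK1 hv hE⟩

end Pool.Agent.MP3145b1.AG
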