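import Pool.Agent.Lib.MP_3145b1_co.AG.Spec

/-!
# MP_3145b1_co, project AG, module AFk: all pivotal probabilities at most `1/2`
-/

set_option autoImplicit false

namespace Pool.Agent.MP3145b1.AG

open Finset Pool.Agent.MP3145b1 Pool.Agent.MP3145b1.RC Pool.Agent.MP3145b1.RD Pool.Agent.MP3145b1.RT Pool.Agent.MP3145b1.UM

private theorem AFk_val (A : ℝ) (F : ℝ → ℝ) (hF : ∀ y, F y = 1 ∨ F y = -1) (y : ℝ) :
    hA A F y ≤ hA A F y ^ 2 ∧ -1 * hA A F y ≤ hA A F y ^ 2 := by
  unfold hA
  rcases hF y with h | h <;> rcases hF (y + A) with h' | h' <;> rw [h, h'] <;> norm_num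

private theorem AFk_abs (a : ℕ → ℝ) {p : ℕ → ℝ} (hp : ∀ i, 0 ≤ p i ∧ p i ≤ 1) (J : Finset ℕ) (A : ℝ)
    (F : ℝ → ℝ) (hF : ∀ y, F y = 1 ∨ F y = -1) (z : ℝ) :
    |Av a p J (hA A F) z| ≤ Av a p J (fun y => hA A F y ^ 2) z := by
  rw [abs_le]
  constructor
  · have h := Av_mono a hp J (F := fun y => -1 * hA A F y) (G := fun y => hA A F y ^ 2)
      (fun y => (AFk_val A F hF y).2) z
    rw [Av_mul a p J (-1) (hA A F) z] at h
    linarith
  · exact Av_mono a hp J (fun y => (AFk_val A F hF y).1) z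

/-- the sets which contain `i` -/
private theorem AFk_reindex (J : Finset ℕ) (i : ℕ) (hi : i ∈ J) (g : Finset ℕ → ℝ) :
    ∑ T ∈ J.powerset.filter (fun T => i ∈ T), g T = ∑ T ∈ (J.erase i).powerset, g (insert i T) := by
  refine Finset.sum_nbij' (fun T => T.erase i) (fun T => insert i T) ?_ ?_ ?_ ?_ ?_
  · intro T hT
    rw [Finset.mem_filter, Finset.mem_powerset] at hT
    exact Finset.mem_powerset.2 (Finset.erase_subset_erase i hT.1)
  · intro T hT
    rw [Finset.mem_powerset] at hT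
    rw [Finset.mem_filter, Finset.mem_powerset]
    refine ⟨?_, Finset.mem_insert_self i T⟩
    intro j hj
    rcases Finset.mem_insert.1 hj with h | h
    · exact h ▸ hi
    · exact Finset.mem_of_mem_erase (hT h)
  · intro T hT
    rw [Finset.mem_filter] at hT
    exact Finset.insert_erase hT.2
  · intro T hT
    rw [Finset.mem_powerset] at hT
    exact Finset.erase_insert (fun h => (Finset.mem_erase.1 (hT h)).1 rfl)
  · intro T hT
    rw [Finset.mem_filter] at hT
    rw [Finset.insert_erase hT.2]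

/-- the combinatorial part -/
private theorem AFk_main (J : Finset ℕ) (x : Finset ℕ → ℝ) (hx : ∀ T, 0 ≤ x T)
    (h : ∀ i ∈ J, 2 * x {i} ≤ ∑ T ∈ J.powerset.filter (fun T => i ∈ T), x T) :
    ∑ T ∈ J.powerset.erase ∅, x T ≤ 3 * ∑ T ∈ J.powerset.erase ∅, ((T.card : ℝ) - 1) * x T := by
  have hemp : (∅ : Finset ℕ) ∈ J.powerset := Finset.empty_mem_powerset J
  -- the sum over `i`
  have h1 : ∑ i ∈ J, ∑ T ∈ J.powerset.filter (fun T => i ∈ T), x T =
      ∑ T ∈ J.powerset, (T.card : ℝ) * x T := by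
    have e : ∀ i ∈ J, ∑ T ∈ J.powerset.filter (fun T => i ∈ T), x T =
        ∑ T ∈ J.powerset, if i ∈ T then x T else 0 := fun i _ => Finset.sum_filter _ _
    rw [Finset.sum_congr rfl e, Finset.sum_comm]
    refine Finset.sum_congr rfl fun T hT => ?_
    rw [← Finset.sum_filter, Finset.filter_mem_eq_inter,
      Finset.inter_eq_right.2 (Finset.mem_powerset.1 hT), Finset.sum_const, nsmul_eq_mul]
  have h2 : ∑ T ∈ J.powerset, (T.card : ℝ) * x T = ∑ T ∈ J.powerset.erase ∅, ((T.card : ℝ) - 1) * x T +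
      ∑ T ∈ J.powerset.erase ∅, x T := by
    rw [← Finset.add_sum_erase J.powerset (fun T => (T.card : ℝ) * x T) hemp, ← Finset.sum_add_distrib]
    simp only [Finset.card_empty, Nat.cast_zero, zero_mul, zero_add]
    exact Finset.sum_congr rfl fun T _ => by ring
  have h3 : 2 * ∑ i ∈ J, x {i} ≤ ∑ i ∈ J, ∑ T ∈ J.powerset.filter (fun T => i ∈ T), x T := by
    rw [Finset.mul_sum]
    exact Finset.sum_le_sum h
  -- sets with one element
  have h4 : ∑ T ∈ J.powerset.erase ∅, x T ≤ ∑ i ∈ J, x {i} + ∑ T ∈ J.powerset.erase ∅, ((T.card : ℝ) - 1) * x T := by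
    have e : ∑ i ∈ J, x {i} = ∑ T ∈ J.powerset.erase ∅, ∑ i ∈ J, if T = {i} then x T else 0 := by
      rw [Finset.sum_comm]
      refine Finset.sum_congr rfl fun i hi => ?_
      rw [Finset.sum_ite_eq' (J.powerset.erase ∅) {i} x, if_pos]
      exact Finset.mem_erase.2 ⟨Finset.singleton_ne_empty i, Finset.mem_powerset.2 (Finset.singleton_subset_iff.2 hi)⟩
    rw [e, ← Finset.sum_add_distrib]
    refine Finset.sum_le_sum fun T hT => ?_
    have hT0 : T ≠ ∅ := (Finset.mem_erase.1 hT).1
    have hTJ : T ⊆ J := Finset.mem_powerset.1 (Finset.mem_erase.1 hT).2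
    have hc : 1 ≤ T.card := Finset.card_pos.2 (Finset.nonempty_iff_ne_empty.2 hT0)
    have hnn : 0 ≤ ∑ i ∈ J, (if T = {i} then x T else 0) :=
      Finset.sum_nonneg fun i _ => by
        split_ifs
        · exact hx T
        · exact le_rfl
    rcases Nat.lt_or_ge 1 T.card with h5 | h5
    · have h6 : (2 : ℝ) ≤ T.card := by exact_mod_cast h5
      nlinarith [mul_nonneg (sub_nonneg.2 h6) (hx T)]
    · have h6 : T.card = 1 := le_antisymm h5 hc
      obtain ⟨i, hi⟩ := Finset.card_eq_one.1 h6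
      have hiJ : i ∈ J := hTJ (by rw [hi]; exact Finset.mem_singleton_self i)
      have h7 : x T ≤ ∑ j ∈ J, (if T = {j} then x T else 0) := by
        have h8 := Finset.single_le_sum (f := fun j => if T = {j} then x T else 0) (s := J)
          (fun j _ => by
            split_ifs
            · exact hx T
            · exact le_rfl) hiJ
        simpa only [if_pos hi] using h8
      rw [h6]
      push_cast
      linarith
  linarith

theorem rAFk (h1 : S_TPar) : S_AFk := by
  intro a p J F z hp hF hQ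
  unfold Dd
  refine AFk_main J (fun T => wt p T * Co a p J T F z ^ 2) (fun T => mul_nonneg (wt_nonneg hp T) (sq_nonneg _)) ?_
  intro i hi
  have hi1 : ∀ T ∈ (J.erase i).powerset, i ∉ T := fun T hT h =>
    (Finset.mem_erase.1 (Finset.mem_powerset.1 hT h)).1 rfl
  have e : ∀ T ∈ (J.erase i).powerset,
      Co a p J (insert i T) F z = Co a p (J.erase i) T (hA (a i) F) z := by
    intro T hT
    have h := Co_insert_mem a p (J.erase i) T i (Finset.notMem_erase i J)
      (Finset.mem_powerset.1 hT) F z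
    rw [Finset.insert_erase hi] at h
    rw [Co_hA]
    exact h
  have hQe : QQ a p J F z i = Av a p (J.erase i) (fun y => hA (a i) F y ^ 2) z := by
    unfold QQ
    rw [← (h1 a p (J.erase i) ∅ (hA (a i) F) z (Finset.empty_subset _)).1]
    exact Finset.sum_congr rfl fun T hT => by rw [e T hT]
  have hc : Co a p J {i} F z = Av a p (J.erase i) (hA (a i) F) z := by
    have h := e ∅ (Finset.empty_mem_powerset _)
    rw [Co_empty] at h
    rwa [insert_empty_eq] at h
  have hab := AFk_abs a hp (J.erase i) (a i) F hF z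
  rw [← hc, ← hQe] at hab
  have hsum : ∑ T ∈ J.powerset.filter (fun T => i ∈ T), wt p T * Co a p J T F z ^ 2 = vi p i * QQ a p J F z i := by
    rw [AFk_reindex J i hi, QQ, Finset.mul_sum]
    refine Finset.sum_congr rfl fun T hT => ?_
    rw [wt_eq, wt_eq, Finset.prod_insert (hi1 T hT)]
    ring
  have hw1 : wt p {i} = vi p i := by
    rw [wt_eq, Finset.prod_singleton]
  rw [hsum, hw1]
  have hq := hQ i hi
  have hq0 : 0 ≤ QQ a p J F z i := le_trans (abs_nonneg _) hab
  have hsq : Co a p J {i} F z ^ 2 ≤ QQ a p J F z i ^ 2 := by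
    rw [← sq_abs]
    exact pow_le_pow_left₀ (abs_nonneg _) hab 2
  have h2 : 2 * Co a p J {i} F z ^ 2 ≤ QQ a p J F z i := by
    nlinarith [mul_nonneg hq0 (sub_nonneg.2 hq)]
  nlinarith [mul_le_mul_of_nonneg_left h2 (vi_nonneg hp i)]

end Pool.Agent.MP3145b1.AG
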