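import Pool.Agent.Lib.MP_3145b1_co.AG.Spec

/-!
# MP_3145b1_co, project AG: arbitrary gates of a composition, min-entropy
-/

set_option autoImplicit false

namespace Pool.Agent.MP3145b1.AG

open Finset Pool.Agent.MP3145b1 Pool.Agent.MP3145b1.RC Pool.Agent.MP3145b1.RD Pool.Agent.MP3145b1.RT Pool.Agent.MP3145b1.UM

private noncomputable def AGm_F (φ : Finset ℕ → Bool) (y : ℝ) : ℝ :=
  if φ (⌊y⌋₊.bitIndices.toFinset) then (-1 : ℝ) else 1

private theorem AGm_val (φ : Finset ℕ → Bool) (y : ℝ) : AGm_F φ y = 1 ∨ AGm_F φ y = -1 := by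
  unfold AGm_F
  split_ifs
  · exact Or.inr rfl
  · exact Or.inl rfl

private theorem AGm_sum (φ : Finset ℕ → Bool) (U : Finset ℕ) :
    AGm_F φ (0 + ∑ i ∈ U, (fun i : ℕ => (2 : ℝ) ^ i) i) = if φ U then (-1 : ℝ) else 1 := by
  have e : (0 : ℝ) + ∑ i ∈ U, (fun i : ℕ => (2 : ℝ) ^ i) i = ((∑ i ∈ U, 2 ^ i : ℕ) : ℝ) := by
    push_cast
    rw [zero_add]
  rw [AGm_F, e, Nat.floor_natCast, Finset.toFinset_bitIndices_sum_two_pow]

/-- Arbitrary gates, min-entropy. -/
theorem rAGm (h1 : S_Vsm) (h2 : S_TCfo) (h3 : S_UPv) (h4 : S_UGE) (h5 : S_UCm) (h6 : S_AGt) : S_AGm := by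
  intro K s N M P u φ hK hKs hs hC hu
  have hp : ∀ i, 0 ≤ pb u i ∧ pb u i ≤ 1 := fun i => (h1 N P u hC i).1
  have hsg0 : 0 ≤ sg (pb u) (range M) :=
    Finset.sum_nonneg fun i _ => mul_nonneg (hp i).1 (sub_nonneg.2 (hp i).2)
  have hsg4 : 4 * sg (pb u) (range M) = ∑ i ∈ range M, (1 - coeff (u i) ∅ ^ 2) := by
    rw [sg, Finset.mul_sum]
    exact Finset.sum_congr rfl fun i _ => (h1 N P u hC i).2.1
  have hsg : sg (pb u) (range M) ≤ s := by linarith
  have hlog : Real.log (1 + 3 * sg (pb u) (range M)) ≤ Real.log (1 + 3 * s) :=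
    Real.log_le_log (by linarith) (by linarith)
  have hfe : (fun x : Fin N → Bool =>
      if φ ((range M).filter (fun i => u i x = -1)) then (-1 : ℝ) else 1) =
      (fun x => AGm_F φ (0 + ∑ i ∈ range M, (if u i x = -1 then (fun i : ℕ => (2 : ℝ) ^ i) i else 0))) := by
    funext x
    rw [← Finset.sum_filter]
    exact (AGm_sum φ _).symm
  have hval : ∀ x : Fin N → Bool,
      (fun x : Fin N → Bool =>
        if φ ((range M).filter (fun i => u i x = -1)) then (-1 : ℝ) else 1) x = 1 ∨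
      (fun x : Fin N → Bool =>
        if φ ((range M).filter (fun i => u i x = -1)) then (-1 : ℝ) else 1) x = -1 := by
    intro x
    by_cases h : φ ((range M).filter (fun i => u i x = -1)) = true
    · right
      show (if φ ((range M).filter (fun i => u i x = -1)) then (-1 : ℝ) else 1) = -1
      rw [if_pos h]
    · left
      show (if φ ((range M).filter (fun i => u i x = -1)) then (-1 : ℝ) else 1) = 1
      rw [if_neg h]
  have hco : ∀ S, coeff (fun x : Fin N → Bool =>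
      if φ ((range M).filter (fun i => u i x = -1)) then (-1 : ℝ) else 1) S =
      Lp P M (fun i R => coeff (u i) R) S *
        (fun T => Co (fun i : ℕ => (2 : ℝ) ^ i) (pb u) (range M) T (AGm_F φ) 0) (TT P M S) := by
    intro S
    rw [hfe]
    exact h2 N M (fun i : ℕ => (2 : ℝ) ^ i) (AGm_F φ) P u hC 0 S
  have hsum := h3 N M P u _
    (fun T => Co (fun i : ℕ => (2 : ℝ) ^ i) (pb u) (range M) T (AGm_F φ) 0) hC hco hval
  have hineq := h6 (fun i : ℕ => (2 : ℝ) ^ i) (pb u) (range M) (AGm_F φ) 0 K hp (AGm_val φ) hK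
    (by linarith)
  have hGM := h4 K (pb u) M
    (fun T => Co (fun i : ℕ => (2 : ℝ) ^ i) (pb u) (range M) T (AGm_F φ) 0) hp hsum hineq
  exact h5 K N M P u _ _ (by linarith) hC hco hval hGM hu

end Pool.Agent.MP3145b1.AG
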