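import Pool.Agent.Lib.MP_3145b1_co.AG.Spec

/-!
# MP_3145b1_co, project AG: arbitrary gates of a composition, entropy (binary encoding of the sets)
-/

set_option autoImplicit false

namespace Pool.Agent.MP3145b1.AG

open Finset Pool.Agent.MP3145b1 Pool.Agent.MP3145b1.RC Pool.Agent.MP3145b1.RD Pool.Agent.MP3145b1.RT Pool.Agent.MP3145b1.UM

private noncomputable def AGs_F (φ : Finset ℕ → Bool) (y : ℝ) : ℝ :=
  if φ (⌊y⌋₊.bitIndices.toFinset) then (-1 : ℝ) else 1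

private theorem AGs_val (φ : Finset ℕ → Bool) (y : ℝ) : AGs_F φ y = 1 ∨ AGs_F φ y = -1 := by
  unfold AGs_F
  split_ifs
  · exact Or.inr rfl
  · exact Or.inl rfl

private theorem AGs_sum (φ : Finset ℕ → Bool) (U : Finset ℕ) :
    AGs_F φ (0 + ∑ i ∈ U, (fun i : ℕ => (2 : ℝ) ^ i) i) = if φ U then (-1 : ℝ) else 1 := by
  have e : (0 : ℝ) + ∑ i ∈ U, (fun i : ℕ => (2 : ℝ) ^ i) i = ((∑ i ∈ U, 2 ^ i : ℕ) : ℝ) := by
    push_cast
    rw [zero_add]
  rw [AGs_F, e, Nat.floor_natCast, Finset.toFinset_bitIndices_sum_two_pow]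

/-- the total variance of the gate variables -/
private theorem AGs_sg {N : ℕ} (h1 : S_Vsm) (P : ℕ → Finset (Fin N)) (u : ℕ → (Fin N → Bool) → ℝ)
    (hC : Cp P u) (M : ℕ) (s : ℝ) (hs : ∑ i ∈ range M, (1 - coeff (u i) ∅ ^ 2) ≤ s) :
    0 ≤ sg (pb u) (range M) ∧ sg (pb u) (range M) ≤ s := by
  have h0 : 0 ≤ sg (pb u) (range M) := by
    unfold sg
    refine Finset.sum_nonneg fun i _ => ?_
    have h := (h1 N P u hC i).1
    exact mul_nonneg h.1 (by linarith [h.2])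
  have h4 : 4 * sg (pb u) (range M) = ∑ i ∈ range M, (1 - coeff (u i) ∅ ^ 2) := by
    unfold sg
    rw [Finset.mul_sum]
    exact Finset.sum_congr rfl fun i _ => (h1 N P u hC i).2.1
  constructor
  · exact h0
  · linarith

/-- Arbitrary gates. -/
theorem rAGs (h1 : S_Vsm) (h2 : S_TCfo) (h3 : S_TCmp) (h4 : S_AGt) : S_AGs := by
  intro K s N M P u φ hK hKs hs hC hS
  obtain ⟨hg0, hgs⟩ := AGs_sg h1 P u hC M s hs
  have hlog : Real.log (1 + 3 * sg (pb u) (range M)) ≤ Real.log (1 + 3 * s) :=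
    Real.log_le_log (by linarith) (by linarith)
  have hfe : (fun x : Fin N → Bool =>
      if φ ((range M).filter (fun i => u i x = -1)) then (-1 : ℝ) else 1) =
      (fun x => AGs_F φ (0 + ∑ i ∈ range M, (if u i x = -1 then (fun i : ℕ => (2 : ℝ) ^ i) i else 0))) := by
    funext x
    rw [← Finset.sum_filter]
    exact (AGs_sum φ _).symm
  refine h3 K N M P u _ (fun T => Co (fun i : ℕ => (2 : ℝ) ^ i) (pb u) (range M) T (AGs_F φ) 0)
    hC ?_ ?_ hS
  · intro S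
    rw [hfe]
    exact h2 N M (fun i : ℕ => (2 : ℝ) ^ i) (AGs_F φ) P u hC 0 S
  · exact h4 (fun i : ℕ => (2 : ℝ) ^ i) (pb u) (range M) (AGs_F φ) 0 K
      (fun i => (h1 N P u hC i).1) (AGs_val φ) hK (by linarith)

end Pool.Agent.MP3145b1.AG
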