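import Pool.Agent.Lib.MP_3145b1_co.AG.Spec

/-! MP_3145b1_co, project AG, module AGt: the gate inequality in the form of RT/UM. -/

set_option autoImplicit false

namespace Pool.Agent.MP3145b1.AG

open Finset Pool.Agent.MP3145b1 Pool.Agent.MP3145b1.RC Pool.Agent.MP3145b1.RD Pool.Agent.MP3145b1.RT Pool.Agent.MP3145b1.UM

theorem rAGt (h1 : S_TPar) (h2 : S_AMn) : S_AGt := by
  intro a p J F z K hp hF hK1 hK2
  have hmain := h2 a p J F z K hp hF hK1 hK2
  have hpar : ∑ T ∈ J.powerset, wt p T * Co a p J T F z ^ 2 = 1 := by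
    rw [(h1 a p J ∅ F z (Finset.empty_subset J)).1]
    have hF2 : (fun y => F y ^ 2) = fun _ => (1 : ℝ) := by
      funext y
      rcases hF y with h | h <;> rw [h] <;> norm_num
    rw [hF2, Av_const]
  have hwt0 : wt p ∅ = 1 := by unfold wt; simp
  have hemp : (∅ : Finset ℕ) ∈ J.powerset := Finset.empty_mem_powerset J
  have s1 := Finset.add_sum_erase J.powerset
    (fun T => ((T.card : ℝ) - 1) * (wt p T * Co a p J T F z ^ 2)) hemp
  have s2 : ∑ T ∈ J.powerset, ((T.card : ℝ) - 1) * (wt p T * Co a p J T F z ^ 2) =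
      (∑ T ∈ J.powerset, (T.card : ℝ) * (wt p T * Co a p J T F z ^ 2)) -
        ∑ T ∈ J.powerset, wt p T * Co a p J T F z ^ 2 := by
    rw [← Finset.sum_sub_distrib]
    exact Finset.sum_congr rfl fun T _ => by ring
  have s3 := Finset.add_sum_erase J.powerset (fun T => wt p T * hh (Co a p J T F z ^ 2)) hemp
  rw [hwt0, Finset.card_empty] at s1
  rw [hwt0] at s3
  rw [s2, hpar] at s1
  have e1 : Dd a p J F z = (∑ T ∈ J.powerset, (T.card : ℝ) * (wt p T * Co a p J T F z ^ 2)) -
      (1 - Co a p J ∅ F z ^ 2) := by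
    unfold Dd
    push_cast at s1
    linarith
  unfold Hs at hmain
  rw [e1] at hmain
  linarith

end Pool.Agent.MP3145b1.AG
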