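import Pool.Agent.Lib.MP_3145b1_co.AG.Spec2

/-! Project AG (MP_3145b1_co), part 2, statement `AHe`: hereditary leaves. -/

set_option autoImplicit false

namespace Pool.Agent.MP3145b1.AG

open Finset Pool.Agent.MP3145b1 Pool.Agent.MP3145b1.RC Pool.Agent.MP3145b1.RD Pool.Agent.MP3145b1.RT Pool.Agent.MP3145b1.UM Pool.Agent.MP3145b1.LD

private theorem AHe_wt (T : Finset ℕ) : wt hf T = 1 := by
  unfold wt hf
  apply Finset.prod_eq_one
  intro i _
  norm_num

/-- sums over the subsets of the image of `A` -/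
private theorem AHe_pow {N : ℕ} (A : Finset (Fin N)) (G : Finset ℕ → ℝ) :
    ∑ T ∈ (A.map Fin.valEmbedding).powerset, G T = ∑ S ∈ A.powerset, G (S.map Fin.valEmbedding) := by
  symm
  apply Finset.sum_bij (fun S _ => S.map Fin.valEmbedding)
  · intro S hS
    rw [Finset.mem_powerset] at hS ⊢
    exact Finset.map_subset_map.2 hS
  · intro S _ S' _ h
    exact Finset.map_injective _ h
  · intro T hT
    rw [Finset.mem_powerset] at hT
    obtain ⟨S, hS, hST⟩ := Finset.subset_map_iff.1 hT
    exact ⟨S, Finset.mem_powerset.2 hS, hST.symm⟩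
  · intro S _
    rfl

/-- the same without the empty set -/
private theorem AHe_pow' {N : ℕ} (A : Finset (Fin N)) (G : Finset ℕ → ℝ) :
    ∑ T ∈ (A.map Fin.valEmbedding).powerset.erase ∅, G T =
      ∑ S ∈ A.powerset.erase ∅, G (S.map Fin.valEmbedding) := by
  have h1 := Finset.add_sum_erase (A.map Fin.valEmbedding).powerset G (Finset.empty_mem_powerset _)
  have h2 := Finset.add_sum_erase A.powerset (fun S => G (S.map Fin.valEmbedding))
    (Finset.empty_mem_powerset _)
  simp only [Finset.map_empty] at h2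
  rw [AHe_pow] at h1
  linarith

private theorem AHe_one {N : ℕ} (g : (Fin N → Bool) → ℝ) (hg : ∀ x, g x = 1 ∨ g x = -1) :
    ∑ S : Finset (Fin N), coeff g S ^ 2 = 1 := by
  rw [Q.parseval]
  have h1 : (fun x => g x ^ 2) = fun _ : Fin N → Bool => (1 : ℝ) := by
    funext x
    rcases hg x with h | h <;> rw [h] <;> norm_num
  rw [h1, Q.mean_const]

/-- the two entropies of one term -/
private theorem AHe_hh (t : ℝ) (h0 : 0 ≤ t) (h1 : t ≤ 1) :
    0 ≤ hh t ∧ hh t ≤ t * Real.logb 2 (1 / t) := by
  have hn : 0 ≤ hh t := Real.negMulLog_nonneg h0 h1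
  refine ⟨hn, ?_⟩
  have hl : 0 < Real.log 2 := Real.log_pos (by norm_num)
  have hl1 : Real.log 2 ≤ 1 := by
    have := Real.log_two_lt_d9
    linarith
  have h2 : t * Real.logb 2 (1 / t) = hh t / Real.log 2 := by
    unfold Real.logb hh Real.negMulLog
    rw [one_div, Real.log_inv]
    ring
  rw [h2, le_div_iff₀ hl]
  nlinarith

/-- the plain inequality for a restriction -/
private theorem AHe_res (h2 : S_ATr) {N : ℕ} (f : (Fin N → Bool) → ℝ) (c : ℝ)
    (hv : ∀ x, f x = 1 ∨ f x = -1) (hq : Hq c f) (A : Finset (Fin N)) (y : Fin N → Bool) :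
    Hs tw hf (A.map Fin.valEmbedding) (fun t => f (xb N t))
        (∑ i ∈ univ.filter (fun i => i ∉ A ∧ y i = true), tw i.val) ≤
      c * Ti tw hf (A.map Fin.valEmbedding) (fun t => f (xb N t))
        (∑ i ∈ univ.filter (fun i => i ∉ A ∧ y i = true), tw i.val) := by
  obtain ⟨ha, hb⟩ := h2 N f A y
  have hgv : ∀ x, Q.blk A y f x = 1 ∨ Q.blk A y f x = -1 := fun x => hv _
  have hH : Hs tw hf (A.map Fin.valEmbedding) (fun t => f (xb N t))
        (∑ i ∈ univ.filter (fun i => i ∉ A ∧ y i = true), tw i.val) =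
      ∑ S ∈ A.powerset.erase ∅, hh (coeff (Q.blk A y f) S ^ 2) := by
    unfold Hs
    rw [AHe_pow']
    apply Finset.sum_congr rfl
    intro S hS
    rw [Finset.mem_erase, Finset.mem_powerset] at hS
    rw [AHe_wt, one_mul, ha S hS.2]
  have hT : Ti tw hf (A.map Fin.valEmbedding) (fun t => f (xb N t))
        (∑ i ∈ univ.filter (fun i => i ∉ A ∧ y i = true), tw i.val) =
      influence (Q.blk A y f) := by
    unfold Ti influence
    rw [AHe_pow]
    have h3 : ∑ S ∈ A.powerset, (S.card : ℝ) * coeff (Q.blk A y f) S ^ 2 =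
        ∑ S : Finset (Fin N), (S.card : ℝ) * coeff (Q.blk A y f) S ^ 2 := by
      apply Finset.sum_subset (Finset.subset_univ _)
      intro S _ hS
      rw [Finset.mem_powerset] at hS
      rw [hb S hS]
      ring
    rw [← h3]
    apply Finset.sum_congr rfl
    intro S hS
    rw [Finset.mem_powerset] at hS
    rw [AHe_wt, one_mul, ha S hS, Finset.card_map]
  rw [hH, hT]
  refine le_trans ?_ (hq A y)
  have hle : ∀ S : Finset (Fin N), coeff (Q.blk A y f) S ^ 2 ≤ 1 := by
    intro S
    rw [← AHe_one _ hgv]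
    exact Finset.single_le_sum (f := fun S => coeff (Q.blk A y f) S ^ 2)
      (fun S _ => sq_nonneg _) (Finset.mem_univ S)
  unfold specEntropy
  refine le_trans (Finset.sum_le_sum fun S _ => (AHe_hh _ (sq_nonneg _) (hle S)).2) ?_
  apply Finset.sum_le_sum_of_subset_of_nonneg (Finset.subset_univ _)
  intro S _ _
  exact (AHe_hh _ (sq_nonneg _) (hle S)).1.trans (AHe_hh _ (sq_nonneg _) (hle S)).2

private theorem AHe_blk {N : ℕ} (f : (Fin N → Bool) → ℝ) (y : Fin N → Bool) :
    Q.blk univ y f = f := by
  funext x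
  unfold Q.blk
  simp

theorem rAHe (h1 : S_AHr) (h2 : S_ATr) : S_AHe := by
  intro N f c hc hv hq
  have hmapu : (univ : Finset (Fin N)).map Fin.valEmbedding = range N := by
    ext i
    simp only [Finset.mem_map, Finset.mem_univ, true_and, Finset.mem_range, Fin.valEmbedding_apply]
    exact ⟨fun ⟨a, ha⟩ => ha ▸ a.2, fun h => ⟨⟨i, h⟩, rfl⟩⟩
  have hmain := h1 tw hf (fun t => f (xb N t)) c (23 + 4 * c)
    (fun i => by unfold hf; norm_num) (fun y => hv _) hc (by linarith) (by linarith) (range N) 0 (by
      intro J' U hJ hU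
      have hA : (univ.filter (fun i : Fin N => i.val ∈ J')).map Fin.valEmbedding = J' := by
        ext i
        simp only [Finset.mem_map, Finset.mem_filter, Finset.mem_univ, true_and,
          Fin.valEmbedding_apply]
        constructor
        · rintro ⟨a, ha, rfl⟩
          exact ha
        · intro hi
          exact ⟨⟨i, Finset.mem_range.1 (hJ hi)⟩, hi, rfl⟩
      have hs : ∑ i ∈ univ.filter (fun i : Fin N => i ∉ univ.filter (fun i : Fin N => i.val ∈ J') ∧
          decide (i.val ∈ U) = true), tw i.val = 0 + ∑ i ∈ U, tw i := by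
        rw [zero_add]
        apply Finset.sum_bij (fun (i : Fin N) _ => i.val)
        · intro i hi
          rw [Finset.mem_filter] at hi
          exact of_decide_eq_true hi.2.2
        · intro i _ j _ h
          exact Fin.ext h
        · intro i hi
          have h3 := hU hi
          rw [Finset.mem_sdiff, Finset.mem_range] at h3
          refine ⟨⟨i, h3.1⟩, ?_, rfl⟩
          rw [Finset.mem_filter, Finset.mem_filter]
          exact ⟨Finset.mem_univ _, fun h => h3.2 h.2, decide_eq_true hi⟩
        · intro i _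
          rfl
      have h3 := AHe_res h2 f c hv hq (univ.filter (fun i : Fin N => i.val ∈ J'))
        (fun i => decide (i.val ∈ U))
      rw [hA, hs] at h3
      exact h3)
  obtain ⟨ha, -⟩ := h2 N f univ (fun _ => false)
  have hz : ∑ i ∈ univ.filter (fun i : Fin N => i ∉ (univ : Finset (Fin N)) ∧ false = true),
      tw i.val = 0 := by
    apply Finset.sum_eq_zero
    intro i hi
    rw [Finset.mem_filter] at hi
    exact absurd (Finset.mem_univ i) hi.2.1
  rw [AHe_blk, hmapu, hz] at ha
  have hco : ∀ S : Finset (Fin N), Co tw hf (range N) (S.map Fin.valEmbedding) (fun t => f (xb N t)) 0 =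
      coeff f S := fun S => (ha S (Finset.subset_univ S)).symm
  have hH : Hs tw hf (range N) (fun t => f (xb N t)) 0 =
      ∑ S ∈ (univ : Finset (Finset (Fin N))).erase ∅, hh (coeff f S ^ 2) := by
    unfold Hs
    rw [← hmapu, AHe_pow', hmapu, Finset.powerset_univ]
    apply Finset.sum_congr rfl
    intro S _
    rw [AHe_wt, one_mul, hco]
  have hD : Dd tw hf (range N) (fun t => f (xb N t)) 0 = influence f - (1 - coeff f ∅ ^ 2) := by
    unfold Dd influence
    rw [← hmapu, AHe_pow', hmapu, Finset.powerset_univ]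
    have h3 : ∑ S ∈ (univ : Finset (Finset (Fin N))).erase ∅,
        ((S.map Fin.valEmbedding).card - 1 : ℝ) * (wt hf (S.map Fin.valEmbedding) *
          Co tw hf (range N) (S.map Fin.valEmbedding) (fun t => f (xb N t)) 0 ^ 2) =
        ∑ S ∈ (univ : Finset (Finset (Fin N))).erase ∅,
          ((S.card : ℝ) * coeff f S ^ 2 - coeff f S ^ 2) := by
      apply Finset.sum_congr rfl
      intro S _
      rw [AHe_wt, one_mul, hco, Finset.card_map]
      ring
    rw [h3, Finset.sum_sub_distrib]
    have h4 := Finset.add_sum_erase univ (fun S : Finset (Fin N) => (S.card : ℝ) * coeff f S ^ 2)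
      (Finset.mem_univ ∅)
    have h5 := Finset.add_sum_erase univ (fun S : Finset (Fin N) => coeff f S ^ 2)
      (Finset.mem_univ ∅)
    simp only [Finset.card_empty, Nat.cast_zero, zero_mul, zero_add] at h4
    rw [AHe_one f hv] at h5
    rw [h4]
    linarith
  unfold Shp
  rw [← hH, ← hD]
  exact hmain

end Pool.Agent.MP3145b1.AG
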