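import Pool.Agent.Lib.MP_3145b1_co.AG.Spec2

/-!
# MP_3145b1_co, project AG, part 2: general gates of a composition, min-entropy
-/

set_option autoImplicit false

namespace Pool.Agent.MP3145b1.AG

open Finset Pool.Agent.MP3145b1 Pool.Agent.MP3145b1.RC Pool.Agent.MP3145b1.RD Pool.Agent.MP3145b1.RT Pool.Agent.MP3145b1.UM Pool.Agent.MP3145b1.LD

private theorem AHm_sum (φ : Finset ℕ → Bool) (U : Finset ℕ) :
    Ph φ (0 + ∑ i ∈ U, tw i) = if φ U then (-1 : ℝ) else 1 := by
  have e : (0 : ℝ) + ∑ i ∈ U, tw i = ((∑ i ∈ U, 2 ^ i : ℕ) : ℝ) := by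
    push_cast
    rw [zero_add]
    rfl
  rw [Ph, e, Nat.floor_natCast, Finset.toFinset_bitIndices_sum_two_pow]

/-- General gates, min-entropy. -/
theorem rAHm (h1 : S_Vsm) (h2 : S_TCfo) (h3 : S_UPv) (h4 : S_UGE) (h5 : S_UCm) (h6 : S_AHt) : S_AHm := by
  intro K c N M P u φ hc hK hcK hC hH hu
  have hp : ∀ i, 0 ≤ pb u i ∧ pb u i ≤ 1 := fun i => (h1 N P u hC i).1
  have hfe : (fun x : Fin N → Bool =>
      if φ ((range M).filter (fun i => u i x = -1)) then (-1 : ℝ) else 1) =
      (fun x => Ph φ (0 + ∑ i ∈ range M, (if u i x = -1 then tw i else 0))) := by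
    funext x
    rw [← Finset.sum_filter]
    exact (AHm_sum φ _).symm
  have hval : ∀ x : Fin N → Bool,
      (fun x : Fin N → Bool =>
        if φ ((range M).filter (fun i => u i x = -1)) then (-1 : ℝ) else 1) x = 1 ∨
      (fun x : Fin N → Bool =>
        if φ ((range M).filter (fun i => u i x = -1)) then (-1 : ℝ) else 1) x = -1 := by
    intro x
    by_cases h : φ ((range M).filter (fun i => u i x = -1)) = true
    · right
      show (if φ ((range M).filter (fun i => u i x = -1)) then (-1 : ℝ) else 1) = -1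
      rw [if_pos h]
    · left
      show (if φ ((range M).filter (fun i => u i x = -1)) then (-1 : ℝ) else 1) = 1
      rw [if_neg h]
  have hco : ∀ S, coeff (fun x : Fin N → Bool =>
      if φ ((range M).filter (fun i => u i x = -1)) then (-1 : ℝ) else 1) S =
      Lp P M (fun i R => coeff (u i) R) S *
        (fun T => Co tw (pb u) (range M) T (Ph φ) 0) (TT P M S) := by
    intro S
    rw [hfe]
    exact h2 N M tw (Ph φ) P u hC 0 S
  have hsum := h3 N M P u _
    (fun T => Co tw (pb u) (range M) T (Ph φ) 0) hC hco hval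
  have hineq := h6 c K (pb u) M φ hp hc hK hcK hH
  have hGM := h4 K (pb u) M
    (fun T => Co tw (pb u) (range M) T (Ph φ) 0) hp hsum hineq
  exact h5 K N M P u _ _ (by linarith) hC hco hval hGM hu

end Pool.Agent.MP3145b1.AG
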