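import Pool.Agent.Lib.MP_3145b1_co.AG.Spec2

/-!
# MP_3145b1_co, project AG, module AHr: from the plain to the sharp inequality
-/

set_option autoImplicit false

namespace Pool.Agent.MP3145b1.AG

open Finset Pool.Agent.MP3145b1 Pool.Agent.MP3145b1.RC Pool.Agent.MP3145b1.RD Pool.Agent.MP3145b1.RT
  Pool.Agent.MP3145b1.UM Pool.Agent.MP3145b1.LD

private theorem AHr_v {p : ℕ → ℝ} (hp : ∀ i, 0 ≤ p i ∧ p i ≤ 1) (i : ℕ) : 0 ≤ p i * (1 - p i) :=
  mul_nonneg (hp i).1 (by linarith [(hp i).2])

private theorem AHr_Dd (a : ℕ → ℝ) {p : ℕ → ℝ} (hp : ∀ i, 0 ≤ p i ∧ p i ≤ 1) (J : Finset ℕ) (F : ℝ → ℝ)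
    (z : ℝ) : 0 ≤ Dd a p J F z := by
  unfold Dd
  refine Finset.sum_nonneg fun T hT => mul_nonneg ?_ (mul_nonneg (wt_nonneg hp T) (sq_nonneg _))
  have h : 1 ≤ T.card := Finset.card_pos.2 (Finset.nonempty_iff_ne_empty.2 (Finset.mem_erase.1 hT).1)
  have h' : (1 : ℝ) ≤ T.card := by exact_mod_cast h
  linarith

private theorem AHr_Ti (a p : ℕ → ℝ) (J : Finset ℕ) (F : ℝ → ℝ) (z : ℝ) :
    Ti a p J F z = Dd a p J F z + ∑ T ∈ J.powerset.erase ∅, wt p T * Co a p J T F z ^ 2 := by
  unfold Ti Dd
  rw [← Finset.sum_erase J.powerset (a := (∅ : Finset ℕ)) (f := fun T : Finset ℕ =>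
    (T.card : ℝ) * (wt p T * Co a p J T F z ^ 2)) (by simp), ← Finset.sum_add_distrib]
  exact Finset.sum_congr rfl fun T _ => by ring

private theorem AHr_QQ (h1 : S_TPar) (a p : ℕ → ℝ) (J : Finset ℕ) (F : ℝ → ℝ) (z : ℝ) (i : ℕ) (hi : i ∈ J) :
    QQ a p J F z i = Av a p (J.erase i) (fun y => hA (a i) F y ^ 2) z := by
  have e : ∀ T ∈ (J.erase i).powerset,
      Co a p J (insert i T) F z = Co a p (J.erase i) T (hA (a i) F) z := by
    intro T hT
    have h := Co_insert_mem a p (J.erase i) T i (Finset.notMem_erase i J)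
      (Finset.mem_powerset.1 hT) F z
    rw [Finset.insert_erase hi] at h
    rw [Co_hA]
    exact h
  unfold QQ
  rw [← (h1 a p (J.erase i) ∅ (hA (a i) F) z (Finset.empty_subset _)).1]
  exact Finset.sum_congr rfl fun T hT => by rw [e T hT]

/-- The sharp inequality follows from the plain inequality for all restrictions. -/
theorem rAHr (h1 : S_TPar) (h2 : S_ARc) (h3 : S_AFk) (h4 : S_ANd) : S_AHr := by
  intro a p F c K hp hF hc hK hcK J
  induction J using Finset.strongInduction with
  | H J ih =>
    intro z hyp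
    by_cases hall : ∀ i ∈ J, QQ a p J F z i ≤ 1 / 2
    · -- all pivotal probabilities are at most one half
      have hV := h3 a p J F z hp hF hall
      have hD := AHr_Dd a hp J F z
      have hT := AHr_Ti a p J F z
      have h0 := hyp J ∅ (Finset.Subset.refl J) (Finset.empty_subset _)
      rw [Finset.sum_empty, add_zero] at h0
      have h5 : Ti a p J F z ≤ 4 * Dd a p J F z := by rw [hT]; linarith
      have h6 : c * Ti a p J F z ≤ c * (4 * Dd a p J F z) := mul_le_mul_of_nonneg_left h5 hc
      have h7 : 4 * c * Dd a p J F z ≤ K * Dd a p J F z := mul_le_mul_of_nonneg_right hcK hD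
      linarith
    · -- a large pivotal probability
      push Not at hall
      obtain ⟨i, hi, hQ⟩ := hall
      have hss : J.erase i ⊂ J := Finset.erase_ssubset hi
      have hni : i ∉ J.erase i := Finset.notMem_erase i J
      have hins : insert i (J.erase i) = J := Finset.insert_erase hi
      rw [AHr_QQ h1 a p J F z i hi] at hQ
      obtain ⟨r1, r2⟩ := h2 a p (J.erase i) i F z hni hp hF
      rw [hins] at r1 r2
      have r3 := h4 a p (J.erase i) i F z hp hF hQ
      have i1 := ih (J.erase i) hss z (by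
        intro J' U hJ hU
        refine hyp J' U (hJ.trans (Finset.erase_subset i J)) (hU.trans ?_)
        exact Finset.sdiff_subset_sdiff (Finset.erase_subset i J) (Finset.Subset.refl J'))
      have i2 := ih (J.erase i) hss (z + a i) (by
        intro J' U hJ hU
        have hiU : i ∉ U := fun h => hni (Finset.mem_sdiff.1 (hU h)).1
        have hiJ : i ∉ J' := fun h => hni (hJ h)
        have h := hyp J' (insert i U) (hJ.trans (Finset.erase_subset i J)) (by
          intro x hx
          rw [Finset.mem_insert] at hx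
          rw [Finset.mem_sdiff]
          rcases hx with rfl | hx
          · exact ⟨hi, hiJ⟩
          · have hx' := Finset.mem_sdiff.1 (hU hx)
            exact ⟨Finset.mem_of_mem_erase hx'.1, hx'.2⟩)
        rw [Finset.sum_insert hiU, ← add_assoc] at h
        exact h)
      have hp0 := (hp i).1
      have hp1 : 0 ≤ 1 - p i := by linarith [(hp i).2]
      have j1 : p i * Hs a p (J.erase i) F z ≤ p i * (K * Dd a p (J.erase i) F z) :=
        mul_le_mul_of_nonneg_left i1 hp0
      have j2 : (1 - p i) * Hs a p (J.erase i) F (z + a i) ≤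
          (1 - p i) * (K * Dd a p (J.erase i) F (z + a i)) := mul_le_mul_of_nonneg_left i2 hp1
      have hX : 0 ≤ p i * (1 - p i) * ∑ T ∈ (J.erase i).powerset.erase ∅,
          wt p T * Co a p (J.erase i) T (hA (a i) F) z ^ 2 :=
        mul_nonneg (AHr_v hp i) (Finset.sum_nonneg fun T _ =>
          mul_nonneg (wt_nonneg hp T) (sq_nonneg _))
      have hKX : 23 * (p i * (1 - p i) * ∑ T ∈ (J.erase i).powerset.erase ∅,
          wt p T * Co a p (J.erase i) T (hA (a i) F) z ^ 2) ≤
          K * (p i * (1 - p i) * ∑ T ∈ (J.erase i).powerset.erase ∅,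
          wt p T * Co a p (J.erase i) T (hA (a i) F) z ^ 2) :=
        mul_le_mul_of_nonneg_right hK hX
      rw [r2]
      have e : K * (p i * Dd a p (J.erase i) F z + (1 - p i) * Dd a p (J.erase i) F (z + a i) +
          4 * (p i * (1 - p i)) * ∑ T ∈ (J.erase i).powerset.erase ∅,
            wt p T * Co a p (J.erase i) T (hA (a i) F) z ^ 2) =
          p i * (K * Dd a p (J.erase i) F z) + (1 - p i) * (K * Dd a p (J.erase i) F (z + a i)) +
          4 * (K * (p i * (1 - p i) * ∑ T ∈ (J.erase i).powerset.erase ∅,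
            wt p T * Co a p (J.erase i) T (hA (a i) F) z ^ 2)) := by ring
      rw [e]
      linarith

end Pool.Agent.MP3145b1.AG
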