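import Pool.Agent.Lib.MP_3145b1_co.AG.Spec2

/-!
# MP_3145b1_co, project AG, part 2: general gates of a composition, entropy (binary encoding of the sets)
-/

set_option autoImplicit false

namespace Pool.Agent.MP3145b1.AG

open Finset Pool.Agent.MP3145b1 Pool.Agent.MP3145b1.RC Pool.Agent.MP3145b1.RD Pool.Agent.MP3145b1.RT Pool.Agent.MP3145b1.UM Pool.Agent.MP3145b1.LD

private theorem AHs_sum (φ : Finset ℕ → Bool) (U : Finset ℕ) :
    Ph φ (0 + ∑ i ∈ U, tw i) = if φ U then (-1 : ℝ) else 1 := by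
  have e : (0 : ℝ) + ∑ i ∈ U, tw i = ((∑ i ∈ U, 2 ^ i : ℕ) : ℝ) := by
    unfold tw
    push_cast
    rw [zero_add]
  rw [Ph, e, Nat.floor_natCast, Finset.toFinset_bitIndices_sum_two_pow]

/-- General gates, entropy. -/
theorem rAHs (h1 : S_Vsm) (h2 : S_TCfo) (h3 : S_TCmp) (h4 : S_AHt) : S_AHs := by
  intro K c N M P u φ hc hK hcK hC hφ hS
  have hfe : (fun x : Fin N → Bool =>
      if φ ((range M).filter (fun i => u i x = -1)) then (-1 : ℝ) else 1) =
      (fun x => Ph φ (0 + ∑ i ∈ range M, (if u i x = -1 then tw i else 0))) := by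
    funext x
    rw [← Finset.sum_filter]
    exact (AHs_sum φ _).symm
  refine h3 K N M P u _ (fun T => Co tw (pb u) (range M) T (Ph φ) 0) hC ?_ ?_ hS
  · intro S
    rw [hfe]
    exact h2 N M tw (Ph φ) P u hC 0 S
  · exact h4 c K (pb u) M φ (fun i => (h1 N P u hC i).1) hc hK hcK hφ

end Pool.Agent.MP3145b1.AG
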