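import Pool.Agent.Lib.MP_3145b1_co.AG.Spec2

/-! MP_3145b1_co, project AG, module AHt: the gate inequality (part 2) in the form of RT/UM. -/

set_option autoImplicit false

namespace Pool.Agent.MP3145b1.AG

open Finset Pool.Agent.MP3145b1 Pool.Agent.MP3145b1.RC Pool.Agent.MP3145b1.RD Pool.Agent.MP3145b1.RT Pool.Agent.MP3145b1.UM Pool.Agent.MP3145b1.LD

private theorem AHt_sign (φ : Finset ℕ → Bool) (y : ℝ) : Ph φ y = 1 ∨ Ph φ y = -1 := by
  unfold Ph
  split_ifs
  · exact Or.inr rfl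
  · exact Or.inl rfl

theorem rAHt (h1 : S_TPar) (h2 : S_AHr) : S_AHt := by
  intro c K p M φ hp hc hK1 hK2 hd
  have hF := AHt_sign φ
  have hmain := h2 tw p (Ph φ) c K hp hF hc hK1 hK2 (range M) 0 (by
    intro J' U hJ' hU
    rw [zero_add]
    exact hd J' U hJ' hU)
  have hpar : ∑ T ∈ (range M).powerset, wt p T * Co tw p (range M) T (Ph φ) 0 ^ 2 = 1 := by
    rw [(h1 tw p (range M) ∅ (Ph φ) 0 (Finset.empty_subset (range M))).1]
    have hF2 : (fun y => Ph φ y ^ 2) = fun _ => (1 : ℝ) := by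
      funext y
      rcases hF y with h | h <;> rw [h] <;> norm_num
    rw [hF2, Av_const]
  have hwt0 : wt p ∅ = 1 := by unfold wt; simp
  have hemp : (∅ : Finset ℕ) ∈ (range M).powerset := Finset.empty_mem_powerset (range M)
  have s1 := Finset.add_sum_erase (range M).powerset
    (fun T => ((T.card : ℝ) - 1) * (wt p T * Co tw p (range M) T (Ph φ) 0 ^ 2)) hemp
  have s2 : ∑ T ∈ (range M).powerset, ((T.card : ℝ) - 1) * (wt p T * Co tw p (range M) T (Ph φ) 0 ^ 2) =
      (∑ T ∈ (range M).powerset, (T.card : ℝ) * (wt p T * Co tw p (range M) T (Ph φ) 0 ^ 2)) -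
        ∑ T ∈ (range M).powerset, wt p T * Co tw p (range M) T (Ph φ) 0 ^ 2 := by
    rw [← Finset.sum_sub_distrib]
    exact Finset.sum_congr rfl fun T _ => by ring
  have s3 := Finset.add_sum_erase (range M).powerset (fun T => wt p T * hh (Co tw p (range M) T (Ph φ) 0 ^ 2)) hemp
  rw [hwt0, Finset.card_empty] at s1
  rw [hwt0] at s3
  rw [s2, hpar] at s1
  have e1 : Dd tw p (range M) (Ph φ) 0 = (∑ T ∈ (range M).powerset, (T.card : ℝ) * (wt p T * Co tw p (range M) T (Ph φ) 0 ^ 2)) -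
      (1 - Co tw p (range M) ∅ (Ph φ) 0 ^ 2) := by
    unfold Dd
    push_cast at s1
    linarith
  unfold Hs at hmain
  rw [e1] at hmain
  linarith

end Pool.Agent.MP3145b1.AG
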