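import Pool.Agent.Lib.MP_3145b1_co.AG.Spec3

/-!
# MP_3145b1_co, project AG, module AKi: the number `Kill` of a function of degree `k`
-/

set_option autoImplicit false

namespace Pool.Agent.MP3145b1.AG

open Finset Pool.Agent.MP3145b1 Pool.Agent.MP3145b1.RC Pool.Agent.MP3145b1.RD Pool.Agent.MP3145b1.RT
  Pool.Agent.MP3145b1.UM Pool.Agent.MP3145b1.LD

private theorem AKi_sgn {N : ℕ} (i : Fin N) (x : Fin N → Bool) (S : Finset (Fin N)) :
    sgn (Q.flp i x) S = (if i ∈ S then -1 else 1) * sgn x S := by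
  split_ifs with h
  · unfold Q.flp
    rw [Q.sgn_upd_in x i (!x i) S h]
    have h1 : sgn x S = (if x i then (-1 : ℝ) else 1) * sgn x (S.erase i) := by
      unfold sgn
      rw [← Finset.mul_prod_erase S _ h]
    rw [h1]
    cases x i <;> simp
  · unfold Q.flp
    rw [Q.sgn_upd_out x i (!x i) S h, one_mul]

private theorem AKi_coeff {N : ℕ} (i : Fin N) (f : (Fin N → Bool) → ℝ) (S : Finset (Fin N)) :
    coeff (fun x => (f x - f (Q.flp i x)) / 2) S = if i ∈ S then coeff f S else 0 := by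
  rw [Q.coeff_mean]
  have h1 : (fun x => (f x - f (Q.flp i x)) / 2 * sgn x S) =
      fun x => (1 / 2 : ℝ) * ((f x * sgn x S) - (f (Q.flp i x) * sgn x S)) := by
    funext x
    ring
  have h2 : T.mean (fun x => f (Q.flp i x) * sgn x S) =
      (if i ∈ S then -1 else 1) * coeff f S := by
    rw [← Q.mean_flp i (fun x => f (Q.flp i x) * sgn x S), Q.coeff_mean, ← Q.mean_mul]
    congr 1
    funext x
    rw [Q.flp_flp, AKi_sgn]
    ring
  rw [h1, Q.mean_mul, Q.mean_sub, h2, ← Q.coeff_mean]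
  split_ifs <;> ring

open Classical in
private theorem AKi_pair {N : ℕ} (f : (Fin N → Bool) → ℝ) (hf : ∀ x, f x = 1 ∨ f x = -1)
    (i v : Fin N) :
    T.mean (fun x => if f (Q.flp i x) ≠ f x ∧ f (Q.flp i (Q.flp v x)) = f (Q.flp v x)
        then (1 : ℝ) else 0) ≤
      2 * ∑ S : Finset (Fin N), (if v ∈ S then (if i ∈ S then coeff f S ^ 2 else 0) else 0) := by
  set g : (Fin N → Bool) → ℝ := fun x => (f x - f (Q.flp i x)) / 2 with hg
  set h : (Fin N → Bool) → ℝ := fun x => (g x - g (Q.flp v x)) / 2 with hh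
  set E : (Fin N → Bool) → ℝ := fun x =>
    if f (Q.flp i x) ≠ f x ∧ f (Q.flp i (Q.flp v x)) = f (Q.flp v x) then (1 : ℝ) else 0 with hE
  have hpt : ∀ x, E x + E (Q.flp v x) ≤ 4 * h x ^ 2 := by
    intro x
    have e1 : E (Q.flp v x) = if f (Q.flp i (Q.flp v x)) ≠ f (Q.flp v x) ∧
        f (Q.flp i x) = f x then (1 : ℝ) else 0 := by
      rw [hE]
      simp only [Q.flp_flp]
    have e2 : h x = ((f x - f (Q.flp i x)) / 2 -
        (f (Q.flp v x) - f (Q.flp i (Q.flp v x))) / 2) / 2 := rfl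
    have e3 : E x = if f (Q.flp i x) ≠ f x ∧ f (Q.flp i (Q.flp v x)) = f (Q.flp v x)
        then (1 : ℝ) else 0 := rfl
    rw [e1, e2, e3]
    rcases hf x with h1 | h1 <;> rcases hf (Q.flp i x) with h2 | h2 <;>
      rcases hf (Q.flp v x) with h3 | h3 <;>
      rcases hf (Q.flp i (Q.flp v x)) with h4 | h4 <;>
      rw [h1, h2, h3, h4] <;> norm_num
  have hmean : T.mean E + T.mean E ≤ 4 * T.mean (fun x => h x ^ 2) := by
    have h1 := Q.mean_mono hpt
    rw [Q.mean_add, Q.mean_flp, Q.mean_mul] at h1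
    exact h1
  have hpar : T.mean (fun x => h x ^ 2) =
      ∑ S : Finset (Fin N), (if v ∈ S then (if i ∈ S then coeff f S ^ 2 else 0) else 0) := by
    rw [← Q.parseval]
    apply Finset.sum_congr rfl
    intro S _
    rw [hh, AKi_coeff v g S, hg, AKi_coeff i f S]
    split_ifs
    · rfl
    · norm_num
    · norm_num
  rw [← hpar]
  linarith

private theorem AKi_kill {N : ℕ} (f : (Fin N → Bool) → ℝ) (hf : ∀ x, f x = 1 ∨ f x = -1)
    (i : Fin N) :
    Q.Kill f univ i ≤ 2 * ∑ S : Finset (Fin N),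
      (if i ∈ S then ((S.card : ℝ) - 1) * coeff f S ^ 2 else 0) := by
  classical
  have h0 : Q.Kill f univ i = ∑ v ∈ (univ : Finset (Fin N)).erase i,
      T.mean (fun x => if f (Q.flp i x) ≠ f x ∧ f (Q.flp i (Q.flp v x)) = f (Q.flp v x)
        then (1 : ℝ) else 0) := by
    unfold Q.Kill
    have h1 : ∀ x, ((((univ : Finset (Fin N)).filter fun v => v ≠ i ∧ f (Q.flp i x) ≠ f x ∧
        f (Q.flp i (Q.flp v x)) = f (Q.flp v x)).card : ℕ) : ℝ) =
        ∑ v ∈ (univ : Finset (Fin N)).erase i,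
          if f (Q.flp i x) ≠ f x ∧ f (Q.flp i (Q.flp v x)) = f (Q.flp v x)
          then (1 : ℝ) else 0 := by
      intro x
      have h2 : ((univ : Finset (Fin N)).filter fun v => v ≠ i ∧ f (Q.flp i x) ≠ f x ∧
          f (Q.flp i (Q.flp v x)) = f (Q.flp v x)) =
          ((univ : Finset (Fin N)).erase i).filter fun v => f (Q.flp i x) ≠ f x ∧
            f (Q.flp i (Q.flp v x)) = f (Q.flp v x) := by
        ext v
        simp only [Finset.mem_filter, Finset.mem_erase]
        tauto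
      rw [h2, Finset.card_filter]
      push_cast
      rfl
    simp only [h1]
    rw [Q.mean_sum]
  rw [h0]
  have h1 : ∑ v ∈ (univ : Finset (Fin N)).erase i,
      T.mean (fun x => if f (Q.flp i x) ≠ f x ∧ f (Q.flp i (Q.flp v x)) = f (Q.flp v x)
        then (1 : ℝ) else 0) ≤
      ∑ v ∈ (univ : Finset (Fin N)).erase i,
        2 * ∑ S : Finset (Fin N), (if v ∈ S then (if i ∈ S then coeff f S ^ 2 else 0) else 0) :=
    Finset.sum_le_sum fun v _ => AKi_pair f hf i v
  refine h1.trans (le_of_eq ?_)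
  rw [← Finset.mul_sum, Finset.sum_comm]
  congr 1
  apply Finset.sum_congr rfl
  intro S _
  rw [← Finset.sum_filter, Finset.sum_const, nsmul_eq_mul]
  have h2 : ((univ : Finset (Fin N)).erase i).filter (fun v => v ∈ S) = S.erase i := by
    ext v
    simp only [Finset.mem_filter, Finset.mem_erase, Finset.mem_univ, and_true]
  rw [h2]
  split_ifs with h3
  · rw [Finset.card_erase_of_mem h3, Nat.cast_sub (Finset.card_pos.mpr ⟨i, h3⟩), Nat.cast_one]
  · rw [mul_zero]

/-- **AKi** (the number Kill) -/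
theorem rAKi : S_AKi := by
  classical
  intro N k f hk hf hdeg
  have h1 : ∑ i, Q.Kill f univ i ≤ ∑ i : Fin N, 2 * ∑ S : Finset (Fin N),
      (if i ∈ S then ((S.card : ℝ) - 1) * coeff f S ^ 2 else 0) :=
    Finset.sum_le_sum fun i _ => AKi_kill f hf i
  refine h1.trans ?_
  rw [← Finset.mul_sum, Finset.sum_comm, mul_assoc]
  have h2 : ∑ S : Finset (Fin N), ∑ i : Fin N,
      (if i ∈ S then ((S.card : ℝ) - 1) * coeff f S ^ 2 else 0) ≤ ((k : ℝ) - 1) * influence f := by
    unfold influence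
    rw [Finset.mul_sum]
    apply Finset.sum_le_sum
    intro S _
    rw [← Finset.sum_filter, Finset.sum_const, nsmul_eq_mul]
    have h3 : (univ : Finset (Fin N)).filter (fun i => i ∈ S) = S := by
      ext i
      simp
    rw [h3]
    by_cases h4 : k < S.card
    · rw [hdeg S h4]
      simp
    · push Not at h4
      have h5 : (S.card : ℝ) ≤ k := by exact_mod_cast h4
      have h6 : (0 : ℝ) ≤ S.card := Nat.cast_nonneg _
      have h7 : 0 ≤ (S.card : ℝ) * coeff f S ^ 2 := mul_nonneg h6 (sq_nonneg _)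
      nlinarith [mul_le_mul_of_nonneg_right h5 h7]
  linarith

end Pool.Agent.MP3145b1.AG
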