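import Pool.Agent.Lib.MP_3145b1_co.AG.Spec

/-!
# MP_3145b1_co, project AG, module AMn: the theorem for one gate
-/

set_option autoImplicit false

namespace Pool.Agent.MP3145b1.AG

open Finset Pool.Agent.MP3145b1 Pool.Agent.MP3145b1.RC Pool.Agent.MP3145b1.RD Pool.Agent.MP3145b1.RT
  Pool.Agent.MP3145b1.UM

private theorem AMn_v {p : ℕ → ℝ} (hp : ∀ i, 0 ≤ p i ∧ p i ≤ 1) (i : ℕ) : 0 ≤ p i * (1 - p i) :=
  mul_nonneg (hp i).1 (by linarith [(hp i).2])

private theorem AMn_sg {p : ℕ → ℝ} (hp : ∀ i, 0 ≤ p i ∧ p i ≤ 1) {B C : Finset ℕ} (h : B ⊆ C) :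
    sg p B ≤ sg p C :=
  Finset.sum_le_sum_of_subset_of_nonneg h fun i _ _ => AMn_v hp i

private theorem AMn_sg0 {p : ℕ → ℝ} (hp : ∀ i, 0 ≤ p i ∧ p i ≤ 1) (B : Finset ℕ) : 0 ≤ sg p B :=
  Finset.sum_nonneg fun i _ => AMn_v hp i

private theorem AMn_Dd (a : ℕ → ℝ) {p : ℕ → ℝ} (hp : ∀ i, 0 ≤ p i ∧ p i ≤ 1) (J : Finset ℕ) (F : ℝ → ℝ)
    (z : ℝ) : 0 ≤ Dd a p J F z := by
  unfold Dd
  refine Finset.sum_nonneg fun T hT => mul_nonneg ?_ (mul_nonneg (wt_nonneg hp T) (sq_nonneg _))
  have h : 1 ≤ T.card := Finset.card_pos.2 (Finset.nonempty_iff_ne_empty.2 (Finset.mem_erase.1 hT).1)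
  have h' : (1 : ℝ) ≤ T.card := by exact_mod_cast h
  linarith

private theorem AMn_Ps (a : ℕ → ℝ) {p : ℕ → ℝ} (hp : ∀ i, 0 ≤ p i ∧ p i ≤ 1) (J : Finset ℕ) (F : ℝ → ℝ)
    (z : ℝ) : Ps a p J F z ≤ sg p J * ∑ T ∈ J.powerset.erase ∅, wt p T * Co a p J T F z ^ 2 := by
  unfold Ps
  rw [Finset.mul_sum]
  refine Finset.sum_le_sum fun T _ => mul_le_mul_of_nonneg_right (AMn_sg hp Finset.sdiff_subset)
    (mul_nonneg (wt_nonneg hp T) (sq_nonneg _))

private theorem AMn_QQ (h1 : S_TPar) (a p : ℕ → ℝ) (J : Finset ℕ) (F : ℝ → ℝ) (z : ℝ) (i : ℕ) (hi : i ∈ J) :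
    QQ a p J F z i = Av a p (J.erase i) (fun y => hA (a i) F y ^ 2) z := by
  have e : ∀ T ∈ (J.erase i).powerset,
      Co a p J (insert i T) F z = Co a p (J.erase i) T (hA (a i) F) z := by
    intro T hT
    have h := Co_insert_mem a p (J.erase i) T i (Finset.notMem_erase i J)
      (Finset.mem_powerset.1 hT) F z
    rw [Finset.insert_erase hi] at h
    rw [Co_hA]
    exact h
  unfold QQ
  rw [← (h1 a p (J.erase i) ∅ (hA (a i) F) z (Finset.empty_subset _)).1]
  exact Finset.sum_congr rfl fun T hT => by rw [e T hT]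

/-- The theorem for one gate. -/
theorem rAMn (h1 : S_TPar) (h2 : S_ARc) (h3 : S_AAv) (h4 : S_AFk) (h5 : S_ANd) : S_AMn := by
  intro a p J F z K hp hF hK
  induction J using Finset.strongInduction generalizing z with
  | H J ih =>
    intro hlog
    by_cases hall : ∀ i ∈ J, QQ a p J F z i ≤ 1 / 2
    · -- all pivotal probabilities are at most one half
      have hV := h4 a p J F z hp hF hall
      have hS := AMn_sg0 hp J
      have hD := AMn_Dd a hp J F z
      have hP := AMn_Ps a hp J F z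
      have hA := h3 a p J F z (3 * sg p J) hp hF (by linarith)
      have hPs : Ps a p J F z ≤ sg p J * (3 * Dd a p J F z) :=
        hP.trans (mul_le_mul_of_nonneg_left hV hS)
      have hc : 0 < 2 * (1 + 3 * sg p J) := by linarith
      have h7 : 7 / (2 * (1 + 3 * sg p J)) * Ps a p J F z ≤ 7 / 2 * Dd a p J F z := by
        have h8 : 7 / (2 * (1 + 3 * sg p J)) * Ps a p J F z ≤
            7 / (2 * (1 + 3 * sg p J)) * (sg p J * (3 * Dd a p J F z)) :=
          mul_le_mul_of_nonneg_left hPs (by positivity)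
        refine h8.trans ?_
        rw [div_mul_eq_mul_div, div_le_iff₀ hc]
        nlinarith [mul_nonneg hS hD]
      have h9 : (25 / 2 + 7 / 2 * Real.log (1 + 3 * sg p J)) * Dd a p J F z ≤ K * Dd a p J F z :=
        mul_le_mul_of_nonneg_right hlog hD
      nlinarith
    · -- a large pivotal probability
      push Not at hall
      obtain ⟨i, hi, hQ⟩ := hall
      have hss : J.erase i ⊂ J := Finset.erase_ssubset hi
      have hni : i ∉ J.erase i := Finset.notMem_erase i J
      have hins : insert i (J.erase i) = J := Finset.insert_erase hi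
      rw [AMn_QQ h1 a p J F z i hi] at hQ
      obtain ⟨r1, r2⟩ := h2 a p (J.erase i) i F z hni hp hF
      rw [hins] at r1 r2
      have r3 := h5 a p (J.erase i) i F z hp hF hQ
      have hS' := AMn_sg0 hp (J.erase i)
      have hle : sg p (J.erase i) ≤ sg p J := AMn_sg hp (Finset.erase_subset i J)
      have hlog' : 25 / 2 + 7 / 2 * Real.log (1 + 3 * sg p (J.erase i)) ≤ K := by
        have h := Real.log_le_log (show 0 < 1 + 3 * sg p (J.erase i) by linarith)
          (show 1 + 3 * sg p (J.erase i) ≤ 1 + 3 * sg p J by linarith)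
        linarith
      have i1 := ih (J.erase i) hss z hlog'
      have i2 := ih (J.erase i) hss (z + a i) hlog'
      have hp0 := (hp i).1
      have hp1 : 0 ≤ 1 - p i := by linarith [(hp i).2]
      have j1 : p i * Hs a p (J.erase i) F z ≤ p i * (K * Dd a p (J.erase i) F z) :=
        mul_le_mul_of_nonneg_left i1 hp0
      have j2 : (1 - p i) * Hs a p (J.erase i) F (z + a i) ≤
          (1 - p i) * (K * Dd a p (J.erase i) F (z + a i)) := mul_le_mul_of_nonneg_left i2 hp1
      have hX : 0 ≤ p i * (1 - p i) * ∑ T ∈ (J.erase i).powerset.erase ∅,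
          wt p T * Co a p (J.erase i) T (hA (a i) F) z ^ 2 :=
        mul_nonneg (AMn_v hp i) (Finset.sum_nonneg fun T _ =>
          mul_nonneg (wt_nonneg hp T) (sq_nonneg _))
      have hKX : 23 * (p i * (1 - p i) * ∑ T ∈ (J.erase i).powerset.erase ∅,
          wt p T * Co a p (J.erase i) T (hA (a i) F) z ^ 2) ≤
          K * (p i * (1 - p i) * ∑ T ∈ (J.erase i).powerset.erase ∅,
          wt p T * Co a p (J.erase i) T (hA (a i) F) z ^ 2) :=
        mul_le_mul_of_nonneg_right hK hX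
      rw [r2]
      have e : K * (p i * Dd a p (J.erase i) F z + (1 - p i) * Dd a p (J.erase i) F (z + a i) +
          4 * (p i * (1 - p i)) * ∑ T ∈ (J.erase i).powerset.erase ∅,
            wt p T * Co a p (J.erase i) T (hA (a i) F) z ^ 2) =
          p i * (K * Dd a p (J.erase i) F z) + (1 - p i) * (K * Dd a p (J.erase i) F (z + a i)) +
          4 * (K * (p i * (1 - p i) * ∑ T ∈ (J.erase i).powerset.erase ∅,
            wt p T * Co a p (J.erase i) T (hA (a i) F) z ^ 2)) := by ring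
      rw [e]
      linarith

end Pool.Agent.MP3145b1.AG
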