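import Pool.Agent.Lib.MP_3145b1_co.AG.Spec

/-!
MP_3145b1_co, project AG, module ANd: a large pivotal probability.
-/

set_option autoImplicit false

namespace Pool.Agent.MP3145b1.AG

open Finset Pool.Agent.MP3145b1 Pool.Agent.MP3145b1.RC Pool.Agent.MP3145b1.RD Pool.Agent.MP3145b1.RT Pool.Agent.MP3145b1.UM

theorem rANd (h1 : S_TPar) (h2 : S_TBig) (h3 : S_ATl) : S_ANd := by
  intro a p J i F z hp hF hQ
  have hv : 0 ≤ p i * (1 - p i) := mul_nonneg (hp i).1 (by linarith [(hp i).2])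
  have hX := (h1 a p J ∅ (hA (a i) F) z (empty_subset J)).2.2.2
  have hY := (h1 a p J ∅ (gA (p i) (a i) F) z (empty_subset J)).2.2.2
  have hB := h2 a p J (a i) (p i) F z hp (hp i).1 (hp i).2 hF hQ
  rw [← hX, ← hY] at hB
  have hT : ∀ T ∈ J.powerset.erase ∅, wt p T * dlp (p i) (Co a p J T F z) (Co a p J T F (z + a i)) ≤
      28 * (p i * (1 - p i)) * (wt p T * Co a p J T (hA (a i) F) z ^ 2) +
        7 / 2 * (p i * (1 - p i)) * (wt p T * Co a p J T (gA (p i) (a i) F) z ^ 2) := by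
    intro T _
    have h4 := h3 (p i) (Co a p J T F z) (Co a p J T F (z + a i)) 0 (hp i).1 (hp i).2 le_rfl
    rw [add_zero, Real.log_one] at h4
    have h5 : 0 ≤ wt p T := wt_nonneg hp T
    rw [Co_hA, Co_gA]
    refine (mul_le_mul_of_nonneg_left h4 h5).trans (le_of_eq ?_)
    ring
  refine (Finset.sum_le_sum hT).trans ?_
  rw [Finset.sum_add_distrib, ← Finset.mul_sum, ← Finset.mul_sum]
  have h6 := mul_le_mul_of_nonneg_left hB (by linarith : 0 ≤ 7 / 2 * (p i * (1 - p i)))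
  linarith

end Pool.Agent.MP3145b1.AG
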