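import Pool.Agent.Lib.MP_3145b1_co.AG.Spec

/-!
# MP_3145b1_co, project AG: one more variable
-/

set_option autoImplicit false

namespace Pool.Agent.MP3145b1.AG

open Finset Pool.Agent.MP3145b1 Pool.Agent.MP3145b1.RC Pool.Agent.MP3145b1.RD Pool.Agent.MP3145b1.RT Pool.Agent.MP3145b1.UM

private theorem ARc_hh (x : ℝ) : hh (x ^ 2) ≤ 2 * (|x| - x ^ 2) := by
  by_cases hx : x = 0
  · subst hx
    simp [hh, Real.negMulLog]
  · have hp : 0 < |x| := abs_pos.2 hx
    have h1 : Real.log (|x|⁻¹) ≤ |x|⁻¹ - 1 := Real.log_le_sub_one_of_pos (inv_pos.2 hp)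
    rw [Real.log_inv] at h1
    have h2 : Real.log (x ^ 2) = 2 * Real.log |x| := by
      rw [← sq_abs, Real.log_pow]; norm_num
    have h3 : x ^ 2 * |x|⁻¹ = |x| := by
      rw [← sq_abs, sq, mul_assoc, mul_inv_cancel₀ hp.ne', mul_one]
    have h4 := mul_le_mul_of_nonneg_left h1 (sq_nonneg x)
    rw [mul_sub, h3, mul_one] at h4
    unfold hh Real.negMulLog
    rw [h2]
    linarith [h4]

private theorem ARc_hA_val (A : ℝ) (F : ℝ → ℝ) (hF : ∀ y, F y = 1 ∨ F y = -1) (y : ℝ) :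
    hA A F y ≤ hA A F y ^ 2 ∧ -1 * hA A F y ≤ hA A F y ^ 2 := by
  unfold hA
  rcases hF y with h | h <;> rcases hF (y + A) with h' | h' <;> rw [h, h'] <;> norm_num

private theorem ARc_abs (a : ℕ → ℝ) {p : ℕ → ℝ} (hp : ∀ i, 0 ≤ p i ∧ p i ≤ 1) (J : Finset ℕ) (A : ℝ)
    (F : ℝ → ℝ) (hF : ∀ y, F y = 1 ∨ F y = -1) (z : ℝ) :
    |Av a p J (hA A F) z| ≤ Av a p J (fun y => hA A F y ^ 2) z := by
  rw [abs_le]
  constructor
  · have h := Av_mono a hp J (F := fun y => -1 * hA A F y) (G := fun y => hA A F y ^ 2)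
      (fun y => (ARc_hA_val A F hF y).2) z
    rw [Av_mul a p J (-1) (hA A F) z] at h
    linarith
  · exact Av_mono a hp J (fun y => (ARc_hA_val A F hF y).1) z

private theorem ARc_sum (J : Finset ℕ) (i : ℕ) (hi : i ∉ J) (φ : Finset ℕ → ℝ) :
    ∑ T ∈ (insert i J).powerset.erase ∅, φ T =
      ∑ T ∈ J.powerset.erase ∅, (φ T + φ (insert i T)) + φ (insert i ∅) := by
  have h1 := Finset.add_sum_erase (insert i J).powerset φ (Finset.empty_mem_powerset _)
  have h2 := Finset.add_sum_erase J.powerset φ (Finset.empty_mem_powerset _)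
  have h3 := Finset.add_sum_erase J.powerset (fun T => φ (insert i T)) (Finset.empty_mem_powerset _)
  rw [Finset.sum_powerset_insert hi] at h1
  rw [Finset.sum_add_distrib]
  linarith

theorem rARc (h1 : S_TPar) : S_ARc := by
  intro a p J t F z ht hp hF
  have hP0 : 0 ≤ p t := (hp t).1
  have hP1 : p t ≤ 1 := (hp t).2
  obtain ⟨P, hP⟩ : ∃ P : ℝ, P = p t := ⟨_, rfl⟩
  obtain ⟨A, hA'⟩ : ∃ A : ℝ, A = a t := ⟨_, rfl⟩
  rw [← hP] at hP0 hP1
  have hv : 0 ≤ P * (1 - P) := mul_nonneg hP0 (by linarith)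
  obtain ⟨c0, hc0⟩ : ∃ c : Finset ℕ → ℝ, ∀ T, Co a p J T F z = c T := ⟨_, fun _ => rfl⟩
  obtain ⟨c1, hc1⟩ : ∃ c : Finset ℕ → ℝ, ∀ T, Co a p J T F (z + A) = c T := ⟨_, fun _ => rfl⟩
  have hO : ∀ T, Co a p J T (hA A F) z = (c0 T - c1 T) / 2 := fun T => by
    rw [Co_hA, hc0, hc1]
  have hN : ∀ T ∈ J.powerset, Co a p (insert t J) T F z = P * c0 T + (1 - P) * c1 T := fun T hT => by
    rw [Co_insert_not a p J T t ht (Finset.mem_powerset.1 hT), ← hP, ← hA', hc0, hc1]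
  have hM : ∀ T ∈ J.powerset, Co a p (insert t J) (insert t T) F z = (c0 T - c1 T) / 2 := fun T hT => by
    rw [Co_insert_mem a p J T t ht (Finset.mem_powerset.1 hT), ← hA', hc0, hc1]
  have htT : ∀ T ∈ J.powerset, t ∉ T := fun T hT h => ht (Finset.mem_powerset.1 hT h)
  have hwt0 : wt p ∅ = 1 := by unfold wt; simp
  have hemp : (∅ : Finset ℕ) ∈ J.powerset := Finset.empty_mem_powerset J
  have hW : |(c0 ∅ - c1 ∅) / 2| ≤ ∑ T ∈ J.powerset, wt p T * ((c0 T - c1 T) / 2) ^ 2 := by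
    have h := (h1 a p J ∅ (hA A F) z (Finset.empty_subset J)).1
    simp only [hO] at h
    rw [h, ← hO ∅, Co_empty]
    exact ARc_abs a hp J A F hF z
  rw [← Finset.add_sum_erase J.powerset (fun T => wt p T * ((c0 T - c1 T) / 2) ^ 2) hemp] at hW
  simp only [hwt0, one_mul] at hW
  constructor
  · unfold Hs
    rw [ARc_sum J t ht]
    rw [hM ∅ hemp, wt_insert p ∅ t (Finset.notMem_empty t), hwt0, ← hP, ← hA']
    simp only [hc0, hc1, hO]
    have e : ∑ T ∈ J.powerset.erase ∅, (wt p T * hh (Co a p (insert t J) T F z ^ 2) +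
        wt p (insert t T) * hh (Co a p (insert t J) (insert t T) F z ^ 2)) =
        P * ∑ T ∈ J.powerset.erase ∅, wt p T * hh (c0 T ^ 2) +
        (1 - P) * ∑ T ∈ J.powerset.erase ∅, wt p T * hh (c1 T ^ 2) +
        ∑ T ∈ J.powerset.erase ∅, wt p T * dlp P (c0 T) (c1 T) := by
      rw [Finset.mul_sum, Finset.mul_sum, ← Finset.sum_add_distrib, ← Finset.sum_add_distrib]
      refine Finset.sum_congr rfl fun T hT => ?_
      have hT' := Finset.mem_of_mem_erase hT
      rw [hN T hT', hM T hT', wt_insert p T t (htT T hT'), ← hP]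
      unfold dlp
      ring
    rw [e]
    have h4 := mul_le_mul_of_nonneg_left (ARc_hh ((c0 ∅ - c1 ∅) / 2)) hv
    have h5 := mul_le_mul_of_nonneg_left hW hv
    nlinarith [h4, h5]
  · unfold Dd
    rw [ARc_sum J t ht]
    simp only [hc0, hc1, hO, ← hP, ← hA']
    have e : ∑ T ∈ J.powerset.erase ∅, (((T.card : ℝ) - 1) * (wt p T * Co a p (insert t J) T F z ^ 2) +
        (((insert t T).card : ℝ) - 1) * (wt p (insert t T) * Co a p (insert t J) (insert t T) F z ^ 2)) =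
        P * ∑ T ∈ J.powerset.erase ∅, ((T.card : ℝ) - 1) * (wt p T * c0 T ^ 2) +
        (1 - P) * ∑ T ∈ J.powerset.erase ∅, ((T.card : ℝ) - 1) * (wt p T * c1 T ^ 2) +
        4 * (P * (1 - P)) * ∑ T ∈ J.powerset.erase ∅, wt p T * ((c0 T - c1 T) / 2) ^ 2 := by
      rw [Finset.mul_sum, Finset.mul_sum, Finset.mul_sum, ← Finset.sum_add_distrib, ← Finset.sum_add_distrib]
      refine Finset.sum_congr rfl fun T hT => ?_
      have hT' := Finset.mem_of_mem_erase hT
      rw [hN T hT', hM T hT', wt_insert p T t (htT T hT'), ← hP,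
        Finset.card_insert_of_notMem (htT T hT')]
      push_cast
      ring
    rw [e, Finset.card_insert_of_notMem (Finset.notMem_empty t)]
    simp

end Pool.Agent.MP3145b1.AG
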