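import Pool.Agent.Lib.MP_3145b1_co.AG.Spec

/-!
# MP_3145b1_co, project AG: ATl, the linearised two-point inequality
-/

set_option autoImplicit false

namespace Pool.Agent.MP3145b1.AG

open Finset Pool.Agent.MP3145b1 Pool.Agent.MP3145b1.RC Pool.Agent.MP3145b1.RD Pool.Agent.MP3145b1.RT Pool.Agent.MP3145b1.UM

private theorem ATl_log (U d Λ : ℝ) (hΛ : 0 ≤ Λ) :
    d ^ 2 * lg |U| d ≤ d ^ 2 * (Real.log (1 + Λ) / 2) + U ^ 2 / (2 * (1 + Λ)) := by
  have hL : 0 ≤ Real.log (1 + Λ) := Real.log_nonneg (by linarith)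
  have hpos : 0 < 1 + Λ := by linarith
  have hR : 0 ≤ d ^ 2 * (Real.log (1 + Λ) / 2) + U ^ 2 / (2 * (1 + Λ)) := by positivity
  unfold lg
  rcases le_total (Real.log (|U| / |d|)) 0 with h | h
  · rw [max_eq_left h, mul_zero]
    exact hR
  · rw [max_eq_right h]
    by_cases hd : d = 0
    · subst hd
      have h0 : (0 : ℝ) ^ 2 * Real.log (|U| / |0|) = 0 := by ring
      rw [h0]
      exact hR
    by_cases hU : U = 0
    · subst hU
      have h0 : d ^ 2 * Real.log (|0| / |d|) = 0 := by simp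
      rw [h0]
      exact hR
    have hd2 : 0 < d ^ 2 := by positivity
    have hy : 0 < U ^ 2 / d ^ 2 := by positivity
    have h1 : Real.log (|U| / |d|) = Real.log (U ^ 2 / d ^ 2) / 2 := by
      have h2 : U ^ 2 / d ^ 2 = (|U| / |d|) ^ 2 := by rw [div_pow, sq_abs, sq_abs]
      rw [h2, Real.log_pow]
      push_cast
      ring
    have h2 : Real.log (U ^ 2 / d ^ 2) =
        Real.log (1 + Λ) + Real.log (U ^ 2 / d ^ 2 / (1 + Λ)) := by
      rw [Real.log_div hy.ne' hpos.ne']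
      ring
    have h3 : Real.log (U ^ 2 / d ^ 2 / (1 + Λ)) ≤ U ^ 2 / d ^ 2 / (1 + Λ) := by
      have h4 := Real.log_le_sub_one_of_pos (show 0 < U ^ 2 / d ^ 2 / (1 + Λ) by positivity)
      linarith
    rw [h1, h2]
    calc d ^ 2 * ((Real.log (1 + Λ) + Real.log (U ^ 2 / d ^ 2 / (1 + Λ))) / 2)
        ≤ d ^ 2 * ((Real.log (1 + Λ) + U ^ 2 / d ^ 2 / (1 + Λ)) / 2) := by
          apply mul_le_mul_of_nonneg_left _ hd2.le
          linarith
      _ = d ^ 2 * (Real.log (1 + Λ) / 2) + U ^ 2 / (2 * (1 + Λ)) := by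
          field_simp

theorem rATl (h1 : S_GTw) : S_ATl := by
  intro p a b Λ hp0 hp1 hΛ
  have h2 := h1 p a b hp0 hp1
  have h3 := ATl_log (p * a + (1 - p) * b) (a - b) Λ hΛ
  have hv : 0 ≤ p * (1 - p) := mul_nonneg hp0 (by linarith)
  refine h2.trans ?_
  have h4 : (a - b) ^ 2 * (1 + lg |p * a + (1 - p) * b| (a - b)) ≤
      (a - b) ^ 2 * (1 + Real.log (1 + Λ) / 2) +
        (p * a + (1 - p) * b) ^ 2 / (2 * (1 + Λ)) := by
    linarith
  have h5 := mul_le_mul_of_nonneg_left h4 hv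
  linarith

end Pool.Agent.MP3145b1.AG
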