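import Pool.Agent.Lib.MP_3145b1_co.AG.Spec2

/-!
# MP_3145b1_co, project AG, module ATr: coefficients of a restriction
-/

set_option autoImplicit false

namespace Pool.Agent.MP3145b1.AG

open Finset Pool.Agent.MP3145b1 Pool.Agent.MP3145b1.RC Pool.Agent.MP3145b1.RD Pool.Agent.MP3145b1.RT Pool.Agent.MP3145b1.UM Pool.Agent.MP3145b1.LD

private noncomputable def ATr_w (N : ℕ) (i : ℕ) (x : Fin N → Bool) : ℝ :=
  if h : i < N then (if x ⟨i, h⟩ then -1 else 1) else 1

private theorem ATr_var (N : ℕ) (a : Fin N) :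
    coeff (fun x : Fin N → Bool => if x a then (-1 : ℝ) else 1) {a} = 1 ∧
    coeff (fun x : Fin N → Bool => if x a then (-1 : ℝ) else 1) ∅ = 0 := by
  set f : (Fin N → Bool) → ℝ := fun x => if x a then -1 else 1 with hf
  have hsg : ∀ x : Fin N → Bool, f x = sgn x {a} := by
    intro x
    simp [hf, sgn]
  have h1 : coeff f {a} = 1 := by
    rw [Q.coeff_mean]
    have : (fun x : Fin N → Bool => f x * sgn x {a}) = fun _ => (1 : ℝ) := by
      funext x
      rw [hsg, ← pow_two, sgn_sq]
    rw [this, Q.mean_const]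
  have hpar : ∑ S : Finset (Fin N), coeff f S ^ 2 = 1 := by
    rw [Q.parseval]
    have : (fun x : Fin N → Bool => f x ^ 2) = fun _ => (1 : ℝ) := by
      funext x
      rw [hsg, sgn_sq]
    rw [this, Q.mean_const]
  have h0 : ∀ S : Finset (Fin N), S ≠ {a} → coeff f S = 0 := by
    intro S hS
    have h2 : coeff f S ^ 2 ≤ 0 := by
      have h3 : coeff f S ^ 2 + coeff f {a} ^ 2 ≤ ∑ S : Finset (Fin N), coeff f S ^ 2 := by
        rw [← Finset.sum_pair (f := fun S => coeff f S ^ 2) hS]
        exact Finset.sum_le_sum_of_subset_of_nonneg (Finset.subset_univ _)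
          (fun _ _ _ => sq_nonneg _)
      rw [hpar, h1] at h3
      linarith
    exact pow_eq_zero_iff (two_ne_zero) |>.mp (le_antisymm h2 (sq_nonneg _))
  exact ⟨h1, h0 ∅ (fun h => (Finset.singleton_ne_empty a) h.symm)⟩

private theorem ATr_weq (N i : ℕ) (h : i < N) :
    ATr_w N i = fun x : Fin N → Bool => if x ⟨i, h⟩ then (-1 : ℝ) else 1 := by
  funext x
  unfold ATr_w
  rw [dif_pos h]

private theorem ATr_sum {N : ℕ} (f : (Fin N → Bool) → ℝ) (x : Fin N → Bool) :
    f (xb N (0 + ∑ i ∈ range N, (if ATr_w N i x = -1 then tw i else 0))) = f x := by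
  rw [← Finset.sum_filter]
  have e : (0 : ℝ) + ∑ i ∈ (range N).filter (fun i => ATr_w N i x = -1), tw i =
      ((∑ i ∈ (range N).filter (fun i => ATr_w N i x = -1), 2 ^ i : ℕ) : ℝ) := by
    unfold tw
    push_cast
    rw [zero_add]
  have hxb : ∀ y : ℝ, xb N y = fun j : Fin N => decide (j.val ∈ ⌊y⌋₊.bitIndices.toFinset) :=
    fun _ => rfl
  rw [e, hxb, Nat.floor_natCast, Finset.toFinset_bitIndices_sum_two_pow]
  congr 1
  funext j
  have h1 : (j.val ∈ (range N).filter (fun i => ATr_w N i x = -1)) ↔ x j = true := by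
    rw [Finset.mem_filter, Finset.mem_range, ATr_weq N j.val j.isLt]
    constructor
    · rintro ⟨-, h⟩
      by_contra h'
      simp only [Fin.eta] at h
      rw [if_neg h'] at h
      norm_num at h
    · intro h
      refine ⟨j.isLt, ?_⟩
      simp only [Fin.eta]
      rw [if_pos h]
  by_cases hx : x j = true
  · rw [hx]
    exact decide_eq_true (h1.2 hx)
  · rw [Bool.not_eq_true] at hx
    rw [hx]
    refine decide_eq_false fun h => ?_
    rw [h1.1 h] at hx
    exact absurd hx (by decide)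

private theorem ATr_Av (a p q : ℕ → ℝ) (B : Finset ℕ) (F : ℝ → ℝ) (z : ℝ)
    (h : ∀ i ∈ B, p i = q i) : Av a p B F z = Av a q B F z := by
  unfold Av
  refine Finset.sum_congr rfl fun S hS => ?_
  have hS' := Finset.mem_powerset.1 hS
  have e1 : ∏ i ∈ S, (1 - p i) = ∏ i ∈ S, (1 - q i) :=
    Finset.prod_congr rfl fun i hi => by rw [h i (hS' hi)]
  have e2 : ∏ i ∈ B \ S, p i = ∏ i ∈ B \ S, q i :=
    Finset.prod_congr rfl fun i hi => h i (Finset.mem_sdiff.1 hi).1
  rw [e1, e2]


/-- the point with the coordinates of `x` in `A` and those of `y` outside of `A` -/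
private def ATr_mx {N : ℕ} (A : Finset (Fin N)) (y x : Fin N → Bool) : Fin N → Bool :=
  fun j => if j ∈ A then x j else y j

private noncomputable def ATr_u {N : ℕ} (A : Finset (Fin N)) (y : Fin N → Bool) (i : ℕ)
    (x : Fin N → Bool) : ℝ := ATr_w N i (ATr_mx A y x)

private def ATr_P {N : ℕ} (A : Finset (Fin N)) (i : ℕ) : Finset (Fin N) :=
  if h : i < N then (if (⟨i, h⟩ : Fin N) ∈ A then {⟨i, h⟩} else ∅) else ∅

private theorem ATr_uin {N : ℕ} (A : Finset (Fin N)) (y : Fin N → Bool) (a : Fin N) (ha : a ∈ A) :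
    ATr_u A y a.val = fun x : Fin N → Bool => if x a then (-1 : ℝ) else 1 := by
  funext x
  unfold ATr_u
  rw [ATr_weq N a.val a.isLt]
  simp only [Fin.eta]
  unfold ATr_mx
  rw [if_pos ha]

private theorem ATr_uout {N : ℕ} (A : Finset (Fin N)) (y : Fin N → Bool) (a : Fin N) (ha : a ∉ A) :
    ATr_u A y a.val = fun _ : Fin N → Bool => if y a then (-1 : ℝ) else 1 := by
  funext x
  unfold ATr_u
  rw [ATr_weq N a.val a.isLt]
  simp only [Fin.eta]
  unfold ATr_mx
  rw [if_neg ha]

private theorem ATr_Pin {N : ℕ} (A : Finset (Fin N)) (a : Fin N) (ha : a ∈ A) :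
    ATr_P A a.val = {a} := by
  unfold ATr_P
  rw [dif_pos a.isLt]
  simp only [Fin.eta]
  rw [if_pos ha]

private theorem ATr_Psub {N : ℕ} (A : Finset (Fin N)) (i : ℕ) (a : Fin N) (h : a ∈ ATr_P A i) :
    a.val = i ∧ a ∈ A := by
  unfold ATr_P at h
  by_cases hi : i < N
  · rw [dif_pos hi] at h
    by_cases hA : (⟨i, hi⟩ : Fin N) ∈ A
    · rw [if_pos hA, Finset.mem_singleton] at h
      subst h
      exact ⟨rfl, hA⟩
    · rw [if_neg hA] at h
      exact absurd h (Finset.notMem_empty _)
  · rw [dif_neg hi] at h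
    exact absurd h (Finset.notMem_empty _)

private theorem ATr_cp {N : ℕ} (A : Finset (Fin N)) (y : Fin N → Bool) : Cp (ATr_P A) (ATr_u A y) := by
  refine ⟨?_, ?_, ?_⟩
  · intro i j hij
    rw [Finset.disjoint_left]
    intro a h1 h2
    exact hij ((ATr_Psub A i a h1).1.symm.trans (ATr_Psub A j a h2).1)
  · intro i x x' hxx
    by_cases hi : i < N
    · obtain ⟨a, rfl⟩ : ∃ a : Fin N, a.val = i := ⟨⟨i, hi⟩, rfl⟩
      by_cases hA : a ∈ A
      · rw [ATr_uin A y a hA]
        have h := hxx a (by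
          rw [ATr_Pin A a hA]
          exact Finset.mem_singleton_self _)
        show (if x a then (-1 : ℝ) else 1) = if x' a then (-1 : ℝ) else 1
        rw [h]
      · rw [ATr_uout A y a hA]
    · unfold ATr_u ATr_w
      rw [dif_neg hi, dif_neg hi]
  · intro i x
    unfold ATr_u ATr_w
    by_cases hi : i < N
    · rw [dif_pos hi]
      split_ifs
      · exact Or.inr rfl
      · exact Or.inl rfl
    · rw [dif_neg hi]
      exact Or.inl rfl

private theorem ATr_cst {N : ℕ} (c : ℝ) : coeff (fun _ : Fin N → Bool => c) ∅ = c := by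
  rw [Q.coeff_mean]
  have : (fun x : Fin N → Bool => c * sgn x ∅) = fun _ => c := by
    funext x
    simp [sgn]
  rw [this, Q.mean_const]

private theorem ATr_pbin {N : ℕ} (A : Finset (Fin N)) (y : Fin N → Bool) (a : Fin N) (ha : a ∈ A) :
    pb (ATr_u A y) a.val = 1 / 2 := by
  unfold pb
  rw [ATr_uin A y a ha, (ATr_var N a).2]
  norm_num

private theorem ATr_pbout {N : ℕ} (A : Finset (Fin N)) (y : Fin N → Bool) (a : Fin N) (ha : a ∉ A) :
    pb (ATr_u A y) a.val = if y a then 0 else 1 := by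
  unfold pb
  rw [ATr_uout A y a ha, ATr_cst]
  split_ifs <;> norm_num

private theorem ATr_TT {N : ℕ} (A S : Finset (Fin N)) (hS : S ⊆ A) :
    TT (ATr_P A) N S = S.map Fin.valEmbedding := by
  unfold TT
  ext j
  rw [Finset.mem_filter, Finset.mem_range, Finset.mem_map]
  constructor
  · rintro ⟨hj, b, hb⟩
    rw [Finset.mem_inter] at hb
    exact ⟨b, hb.1, (ATr_Psub A j b hb.2).1⟩
  · rintro ⟨a, ha, rfl⟩
    refine ⟨a.isLt, a, ?_⟩
    show a ∈ S ∩ ATr_P A a.val
    rw [ATr_Pin A a (hS ha), Finset.mem_inter, Finset.mem_singleton]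
    exact ⟨ha, rfl⟩

private theorem ATr_Lp {N : ℕ} (A S : Finset (Fin N)) (y : Fin N → Bool) (hS : S ⊆ A) :
    Lp (ATr_P A) N (fun i R => coeff (ATr_u A y i) R) S = 1 := by
  unfold Lp
  have hsub : S ⊆ (range N).biUnion (ATr_P A) := by
    intro a ha
    rw [Finset.mem_biUnion]
    refine ⟨a.val, Finset.mem_range.2 a.isLt, ?_⟩
    rw [ATr_Pin A a (hS ha)]
    exact Finset.mem_singleton_self _
  rw [if_pos hsub]
  refine Finset.prod_eq_one fun i hi => ?_
  rw [ATr_TT A S hS, Finset.mem_map] at hi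
  obtain ⟨a, ha, rfl⟩ := hi
  have hI : S ∩ ATr_P A a.val = {a} := by
    rw [ATr_Pin A a (hS ha)]
    ext b
    rw [Finset.mem_inter, Finset.mem_singleton]
    constructor
    · rintro ⟨-, h⟩
      exact h
    · rintro rfl
      exact ⟨ha, rfl⟩
  show coeff (ATr_u A y a.val) (S ∩ ATr_P A a.val) = 1
  rw [hI, ATr_uin A y a (hS ha)]
  exact (ATr_var N a).1

private theorem ATr_peel (a p : ℕ → ℝ) (J T : Finset ℕ) (F : ℝ → ℝ) (hT : T ⊆ J) (B : Finset ℕ) :
    Disjoint J B → (∀ i ∈ B, p i = 0 ∨ p i = 1) → ∀ z : ℝ,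
    Co a p (J ∪ B) T F z = Co a p J T F (z + ∑ i ∈ B.filter (fun i => p i = 0), a i) := by
  classical
  induction B using Finset.induction_on with
  | empty =>
    intro _ _ z
    rw [Finset.union_empty, Finset.filter_empty, Finset.sum_empty, add_zero]
  | insert i B hi ih =>
    intro hd hp z
    have hd' : Disjoint J B := Finset.disjoint_of_subset_right (Finset.subset_insert _ _) hd
    have hiJ : i ∉ J := fun h => Finset.disjoint_left.1 hd h (Finset.mem_insert_self _ _)
    have hi' : i ∉ J ∪ B := by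
      rw [Finset.mem_union]
      rintro (h | h)
      · exact hiJ h
      · exact hi h
    have ih' := ih hd' (fun j hj => hp j (Finset.mem_insert_of_mem hj))
    rw [Finset.union_insert, Co_insert_not a p (J ∪ B) T i hi' (hT.trans Finset.subset_union_left) F z,
      ih' z, ih' (z + a i)]
    rcases hp i (Finset.mem_insert_self _ _) with h | h
    · rw [Finset.filter_insert, if_pos h, Finset.sum_insert (fun h' => hi (Finset.mem_filter.1 h').1), h]
      rw [add_assoc]
      ring
    · have h0 : ¬ p i = 0 := by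
        rw [h]
        norm_num
      rw [Finset.filter_insert, if_neg h0, h]
      ring

/-- Coefficients of a restriction. -/
theorem rATr (h1 : S_TCfo) : S_ATr := by
  classical
  intro N f A y
  refine ⟨fun S hS => ?_, fun S hS => Q.coeff_blk_zero A S y f hS⟩
  have h := h1 N N tw (fun t => f (xb N t)) (ATr_P A) (ATr_u A y) (ATr_cp A y) 0 S
  have hfe : (fun x : Fin N → Bool => (fun t => f (xb N t)) (0 + ∑ i ∈ range N,
      (if ATr_u A y i x = -1 then tw i else 0))) = Q.blk A y f := by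
    funext x
    exact ATr_sum f (ATr_mx A y x)
  rw [hfe, ATr_Lp A S y hS, one_mul, ATr_TT A S hS] at h
  rw [h]
  have hA' : A.map Fin.valEmbedding ⊆ range N := by
    intro i hi
    rw [Finset.mem_map] at hi
    obtain ⟨a, _, rfl⟩ := hi
    exact Finset.mem_range.2 a.isLt
  have hST : S.map Fin.valEmbedding ⊆ A.map Fin.valEmbedding := Finset.map_subset_map.2 hS
  have hr : range N = A.map Fin.valEmbedding ∪ (range N \ A.map Fin.valEmbedding) :=
    (Finset.union_sdiff_of_subset hA').symm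
  have hout : ∀ i ∈ range N \ A.map Fin.valEmbedding, ∃ a : Fin N, a.val = i ∧ a ∉ A := by
    intro i hi
    rw [Finset.mem_sdiff, Finset.mem_range, Finset.mem_map] at hi
    exact ⟨⟨i, hi.1⟩, rfl, fun ha => hi.2 ⟨⟨i, hi.1⟩, ha, rfl⟩⟩
  have hpeel := ATr_peel tw (pb (ATr_u A y)) (A.map Fin.valEmbedding) (S.map Fin.valEmbedding)
    (fun t => f (xb N t)) hST (range N \ A.map Fin.valEmbedding) Finset.disjoint_sdiff
    (fun i hi => by
      obtain ⟨a, rfl, ha⟩ := hout i hi
      rw [ATr_pbout A y a ha]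
      split_ifs
      · exact Or.inl rfl
      · exact Or.inr rfl) 0
  rw [← hr] at hpeel
  rw [hpeel, zero_add]
  have hs : ∑ i ∈ (range N \ A.map Fin.valEmbedding).filter (fun i => pb (ATr_u A y) i = 0), tw i =
      ∑ i ∈ univ.filter (fun i : Fin N => i ∉ A ∧ y i = true), tw i.val := by
    have e : (range N \ A.map Fin.valEmbedding).filter (fun i => pb (ATr_u A y) i = 0) =
        (univ.filter (fun i : Fin N => i ∉ A ∧ y i = true)).map Fin.valEmbedding := by
      ext i
      rw [Finset.mem_filter, Finset.mem_map]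
      constructor
      · rintro ⟨hi, hp⟩
        obtain ⟨a, rfl, ha⟩ := hout i hi
        rw [ATr_pbout A y a ha] at hp
        refine ⟨a, ?_, rfl⟩
        rw [Finset.mem_filter]
        refine ⟨Finset.mem_univ _, ha, ?_⟩
        by_contra hy
        rw [if_neg hy] at hp
        norm_num at hp
      · rintro ⟨a, ha, rfl⟩
        rw [Finset.mem_filter] at ha
        refine ⟨?_, ?_⟩
        · rw [Finset.mem_sdiff, Finset.mem_range, Finset.mem_map]
          refine ⟨a.isLt, ?_⟩
          rintro ⟨b, hb, hba⟩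
          exact ha.2.1 ((Fin.valEmbedding.injective hba) ▸ hb)
        · show pb (ATr_u A y) a.val = 0
          rw [ATr_pbout A y a ha.2.1, if_pos ha.2.2]
    rw [e, Finset.sum_map]
    rfl
  rw [hs]
  unfold Co
  refine ATr_Av _ _ _ _ _ _ fun i hi => ?_
  have hi' := (Finset.mem_sdiff.1 hi).1
  rw [Finset.mem_map] at hi'
  obtain ⟨a, ha, rfl⟩ := hi'
  show pb (ATr_u A y) a.val = hf a.val
  rw [ATr_pbin A y a ha]
  rfl

end Pool.Agent.MP3145b1.AG
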