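import Pool.Agent.Lib.MP_3145b1_co.UM.Asm2
import Pool.Agent.Lib.MP_3145b1_co.AG.ATl
import Pool.Agent.Lib.MP_3145b1_co.AG.ARc
import Pool.Agent.Lib.MP_3145b1_co.AG.ADc
import Pool.Agent.Lib.MP_3145b1_co.AG.AAv
import Pool.Agent.Lib.MP_3145b1_co.AG.AFk
import Pool.Agent.Lib.MP_3145b1_co.AG.ANd
import Pool.Agent.Lib.MP_3145b1_co.AG.AMn
import Pool.Agent.Lib.MP_3145b1_co.AG.AGt
import Pool.Agent.Lib.MP_3145b1_co.AG.AGs
import Pool.Agent.Lib.MP_3145b1_co.AG.AGm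
import Pool.Agent.Lib.MP_3145b1_co.AG.AHr
import Pool.Agent.Lib.MP_3145b1_co.AG.AHt
import Pool.Agent.Lib.MP_3145b1_co.AG.AHs
import Pool.Agent.Lib.MP_3145b1_co.AG.AHm
import Pool.Agent.Lib.MP_3145b1_co.AG.ATr
import Pool.Agent.Lib.MP_3145b1_co.AG.AHe
import Pool.Agent.Lib.MP_3145b1_co.AG.AC3
import Pool.Agent.Lib.MP_3145b1_co.AG.AF3
import Pool.Agent.Lib.MP_3145b1_co.AG.AC4
import Pool.Agent.Lib.MP_3145b1_co.AG.AF4
import Pool.Agent.Lib.MP_3145b1_co.AG.AKi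
import Pool.Agent.Lib.MP_3145b1_co.AG.ADk
import Pool.Agent.Lib.MP_3145b1_co.AG.ADh

/-!
# MP_3145b1_co, project AG: assembly
-/

set_option autoImplicit false

namespace Pool.Agent.MP3145b1.AG

open Finset Pool.Agent.MP3145b1 Pool.Agent.MP3145b1.RC Pool.Agent.MP3145b1.RD Pool.Agent.MP3145b1.RT Pool.Agent.MP3145b1.UM Pool.Agent.MP3145b1.LD

theorem aTl : S_ATl := rATl (rGTw rMTg)

theorem aRc : S_ARc := rARc rTPar

theorem aFk : S_AFk := rAFk rTPar

theorem aNd : S_ANd := rANd rTPar rTBig aTl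

theorem aMn : S_AMn := rAMn rTPar aRc (rAAv aTl aRc rADc) aFk aNd

theorem aGt : S_AGt := rAGt rTPar aMn

theorem aHr : S_AHr := rAHr rTPar aRc aFk aNd

theorem aHt : S_AHt := rAHt rTPar aHr

/-- sharp entropy inequality for a function all of whose restrictions satisfy the plain inequality -/
theorem aHe : S_AHe := rAHe aHr (rATr tCfo)

theorem aC3 : S_AC3 :=
  rAC3 tGth tGsy tPrg (rAGs aVsm tCfo tCmp aGt) (rAHs aVsm tCfo tCmp aHt) aHe

/-- the composition theorem for the entropy inequality -/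
theorem fin3 : S_AF3 := rAF3 gVar gPg aC3

theorem aC4 : S_AC4 :=
  rAC4 uTh uSy uUa uPr uLv (rAGm aVsm tCfo uPv uGE uCm aGt) (rAHm aVsm tCfo uPv uGE uCm aHt)

/-- the composition theorem for the min-entropy inequality -/
theorem fin4 : S_AF4 := rAF4 gVar gPg aC4 rUMn

/-- Boolean functions of degree `k` and their restrictions -/
theorem aDh : S_ADh := rADh (rADk rAKi)

end Pool.Agent.MP3145b1.AG
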