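import Pool.Agent.Lib.MP_3145b1_co.AG.Spec5

/-!
# MP_3145b1_co, project AG, part 5: gate condition for almost unate gates
-/

set_option autoImplicit false

namespace Pool.Agent.MP3145b1.AG

open Finset Pool.Agent.MP3145b1 Pool.Agent.MP3145b1.RC Pool.Agent.MP3145b1.RD Pool.Agent.MP3145b1.RT Pool.Agent.MP3145b1.UM Pool.Agent.MP3145b1.LD

/-- the first element -/
private noncomputable def UGD_ι (T : Finset ℕ) : ℕ := if h : T.Nonempty then T.min' h else 0

private theorem UGD_ι_mem (T : Finset ℕ) (h : T ≠ ∅) : UGD_ι T ∈ T := by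
  have h' : T.Nonempty := Finset.nonempty_iff_ne_empty.2 h
  unfold UGD_ι
  rw [dif_pos h']
  exact Finset.min'_mem T h'

private theorem UGD_vi_pos {p : ℕ → ℝ} (hp : ∀ i, 0 ≤ p i ∧ p i ≤ 1) (T : Finset ℕ) (h : 0 < wt p T)
    (j : ℕ) (hj : j ∈ T) : 0 < vi p j := by
  refine lt_of_le_of_ne (vi_nonneg hp j) (fun h0 => ?_)
  rw [wt_eq, Finset.prod_eq_zero hj h0.symm] at h
  exact lt_irrefl _ h

/-- one term -/
private theorem UGD_term {p : ℕ → ℝ} (hp : ∀ i, 0 ≤ p i ∧ p i ≤ 1) (M : ℕ) (κ : ℕ → ℝ)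
    (hκ : ∀ i, i < M → 0 < vi p i → 2 * Real.log (1 / vi p i) ≤ κ i) (T : Finset ℕ) (hT : T ⊆ range M)
    (i : ℕ) (hi : i ∈ T) (y : ℝ) (hy : 0 ≤ y) :
    wt p T * y * (∑ j ∈ T.erase i, 2 * Real.log (1 / vi p j)) + wt p T * y * κ i ≤
      wt p T * y * ∑ j ∈ T, κ j := by
  have hw := wt_nonneg hp T
  rcases hw.lt_or_eq with hw | hw
  · rw [← Finset.add_sum_erase T κ hi, ← mul_add]
    refine mul_le_mul_of_nonneg_left ?_ (mul_nonneg hw.le hy)
    have h1 : ∑ j ∈ T.erase i, 2 * Real.log (1 / vi p j) ≤ ∑ j ∈ T.erase i, κ j := by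
      refine Finset.sum_le_sum fun j hj => ?_
      have hj' := Finset.mem_of_mem_erase hj
      exact hκ j (Finset.mem_range.1 (hT hj')) (UGD_vi_pos hp T hw j hj')
    linarith
  · rw [← hw]
    simp

private theorem UGD_swap (J : Finset ℕ) (g : ℕ → Finset ℕ → ℝ) :
    ∑ T ∈ J.powerset, ∑ i ∈ T, g i T = ∑ i ∈ J, ∑ T ∈ J.powerset.filter (fun T => i ∈ T), g i T := by
  refine Finset.sum_comm' fun T i => ?_
  rw [Finset.mem_filter, Finset.mem_powerset]
  constructor
  · rintro ⟨h1, h2⟩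
    exact ⟨⟨h1, h2⟩, h1 h2⟩
  · rintro ⟨⟨h1, h2⟩, _⟩
    exact ⟨h1, h2⟩

private theorem UGD_erase (J : Finset ℕ) (g : Finset ℕ → ℝ) (h : g ∅ = 0) :
    ∑ T ∈ J.powerset.erase ∅, g T = ∑ T ∈ J.powerset, g T := by
  rw [← Finset.add_sum_erase _ g (Finset.empty_mem_powerset J), h, zero_add]

/-- the sets which contain `i` -/
private theorem UGD_reindex (J : Finset ℕ) (i : ℕ) (hi : i ∈ J) (g : Finset ℕ → ℝ) :
    ∑ T ∈ J.powerset.filter (fun T => i ∈ T), g T = ∑ T ∈ (J.erase i).powerset, g (insert i T) := by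
  refine Finset.sum_nbij' (fun T => T.erase i) (fun T => insert i T) ?_ ?_ ?_ ?_ ?_
  · intro T hT
    rw [Finset.mem_filter, Finset.mem_powerset] at hT
    exact Finset.mem_powerset.2 (Finset.erase_subset_erase i hT.1)
  · intro T hT
    rw [Finset.mem_powerset] at hT
    rw [Finset.mem_filter, Finset.mem_powerset]
    refine ⟨?_, Finset.mem_insert_self i T⟩
    intro j hj
    rcases Finset.mem_insert.1 hj with h | h
    · exact h ▸ hi
    · exact Finset.mem_of_mem_erase (hT h)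
  · intro T hT
    rw [Finset.mem_filter] at hT
    exact Finset.insert_erase hT.2
  · intro T hT
    rw [Finset.mem_powerset] at hT
    exact Finset.erase_insert (fun h => (Finset.mem_erase.1 (hT h)).1 rfl)
  · intro T hT
    rw [Finset.mem_filter] at hT
    rw [Finset.insert_erase hT.2]

/-- the sets with one element -/
private theorem UGD_single (J : Finset ℕ) (g : Finset ℕ → ℝ) :
    ∑ T ∈ J.powerset.erase ∅, (if T.card = 1 then g T else 0) = ∑ i ∈ J, g {i} := by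
  rw [← Finset.sum_filter]
  symm
  refine Finset.sum_bij (fun i _ => ({i} : Finset ℕ)) ?_ ?_ ?_ ?_
  · intro i hi
    rw [Finset.mem_filter, Finset.mem_erase, Finset.mem_powerset]
    exact ⟨⟨Finset.singleton_ne_empty i, Finset.singleton_subset_iff.2 hi⟩, Finset.card_singleton i⟩
  · intro i _ j _ h
    exact Finset.singleton_injective h
  · intro T hT
    rw [Finset.mem_filter, Finset.mem_erase, Finset.mem_powerset] at hT
    obtain ⟨i, rfl⟩ := Finset.card_eq_one.1 hT.2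
    exact ⟨i, Finset.singleton_subset_iff.1 hT.1.2, rfl⟩
  · intro i _
    rfl

/-- the logarithm of the quotient, one element -/
private theorem UGD_log1 (v Q c : ℝ) (hv : 0 ≤ v) (hQ0 : 0 ≤ Q) (hQ1 : Q ≤ 1) (h : v * c ^ 2 ≤ v * Q) :
    v * c ^ 2 * Real.log (Q ^ 2 / c ^ 2) ≤ v * Q - v * c ^ 2 := by
  rcases eq_or_ne c 0 with hc | hc
  · rw [hc]
    have := mul_nonneg hv hQ0
    simpa using this
  · rcases hQ0.lt_or_eq with hQ | hQ
    · have hc2 : 0 < c ^ 2 := by positivity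
      have h1 : Real.log (Q ^ 2 / c ^ 2) ≤ Q ^ 2 / c ^ 2 - 1 :=
        Real.log_le_sub_one_of_pos (by positivity)
      have h2 : c ^ 2 * Real.log (Q ^ 2 / c ^ 2) ≤ Q ^ 2 - c ^ 2 := by
        calc c ^ 2 * Real.log (Q ^ 2 / c ^ 2) ≤ c ^ 2 * (Q ^ 2 / c ^ 2 - 1) :=
              mul_le_mul_of_nonneg_left h1 hc2.le
          _ = Q ^ 2 - c ^ 2 := by field_simp
      have h3 : Q ^ 2 ≤ Q := by nlinarith
      have h4 : v * (c ^ 2 * Real.log (Q ^ 2 / c ^ 2)) ≤ v * (Q - c ^ 2) :=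
        mul_le_mul_of_nonneg_left (by linarith) hv
      calc v * c ^ 2 * Real.log (Q ^ 2 / c ^ 2) = v * (c ^ 2 * Real.log (Q ^ 2 / c ^ 2)) := by ring
        _ ≤ v * (Q - c ^ 2) := h4
        _ = v * Q - v * c ^ 2 := by ring
    · rw [← hQ] at h ⊢
      have e0 : (0 : ℝ) ^ 2 / c ^ 2 = 0 := by simp
      rw [e0, Real.log_zero, mul_zero]
      linarith

/-- the logarithm of the quotient, in general -/
private theorem UGD_log2 (e Q c : ℝ) (he : 0 ≤ e) (hQ0 : 0 ≤ Q) (h : Q ≤ Real.exp e * |c|) :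
    Real.log (Q ^ 2 / c ^ 2) ≤ 2 * e := by
  rcases hQ0.lt_or_eq with hQ | hQ
  · have hc : 0 < |c| := by
      by_contra hcon
      have : |c| = 0 := le_antisymm (not_lt.1 hcon) (abs_nonneg c)
      rw [this, mul_zero] at h
      linarith
    have hc2 : 0 < c ^ 2 := by rw [← sq_abs]; positivity
    rw [← Real.log_exp (2 * e)]
    apply Real.log_le_log (by positivity)
    rw [div_le_iff₀ hc2]
    have h1 : Real.exp (2 * e) = Real.exp e ^ 2 := by
      rw [← Real.exp_nat_mul]; norm_num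
    rw [h1, ← sq_abs c, ← mul_pow]
    exact pow_le_pow_left₀ hQ0 h 2
  · rw [← hQ]
    have e0 : (0 : ℝ) ^ 2 / c ^ 2 = 0 := by simp
    rw [e0, Real.log_zero]
    linarith

/-- the sum of the logarithms of the quotients -/
private theorem UGD_core (J : Finset ℕ) (v Q c1 : ℕ → ℝ) (x : Finset ℕ → ℝ) (ι : Finset ℕ → ℕ) (e : ℝ)
    (he : 0 ≤ e) (hv : ∀ i, 0 ≤ v i) (hx : ∀ T, 0 ≤ x T) (hQ0 : ∀ i, 0 ≤ Q i) (hQ1 : ∀ i ∈ J, Q i ≤ 1)
    (hQ : ∀ i ∈ J, ∑ T ∈ J.powerset.filter (fun T => i ∈ T), x T = v i * Q i)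
    (hx1 : ∀ i ∈ J, x {i} = v i * c1 i ^ 2) (hD : ∀ i ∈ J, Q i ≤ Real.exp e * |c1 i|)
    (hι : ∀ T ∈ J.powerset.erase ∅, ι T ∈ T) :
    ∑ T ∈ J.powerset.erase ∅, x T * Real.log (Q (ι T) ^ 2 / c1 (ι T) ^ 2) ≤
      (2 + 2 * e) * ∑ T ∈ J.powerset.erase ∅, ((T.card : ℝ) - 1) * x T := by
  have mem_s : ∀ T, T ∈ J.powerset.erase ∅ ↔ T ≠ ∅ ∧ T ⊆ J := by
    intro T
    rw [Finset.mem_erase, Finset.mem_powerset]
  have hιs : ∀ i ∈ J, ι {i} = i := by
    intro i hi
    have := hι {i} ((mem_s _).2 ⟨Finset.singleton_ne_empty i, Finset.singleton_subset_iff.2 hi⟩)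
    exact Finset.mem_singleton.1 this
  have hpt : ∀ T ∈ J.powerset.erase ∅, x T * Real.log (Q (ι T) ^ 2 / c1 (ι T) ^ 2) ≤
      2 * e * (((T.card : ℝ) - 1) * x T) +
        (if T.card = 1 then (v (ι T) * Q (ι T) - x T) else 0) := by
    intro T hT
    obtain ⟨hT0, hTJ⟩ := (mem_s T).1 hT
    split_ifs with h1
    · obtain ⟨i, rfl⟩ := Finset.card_eq_one.1 h1
      have hi : i ∈ J := Finset.singleton_subset_iff.1 hTJ
      rw [hιs i hi, Finset.card_singleton, hx1 i hi]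
      have h2 : v i * c1 i ^ 2 ≤ v i * Q i := by
        rw [← hx1 i hi, ← hQ i hi]
        exact Finset.single_le_sum (f := x) (fun T _ => hx T)
          (Finset.mem_filter.2 ⟨Finset.mem_powerset.2 hTJ, Finset.mem_singleton_self i⟩)
      have h3 := UGD_log1 (v i) (Q i) (c1 i) (hv i) (hQ0 i) (hQ1 i hi) h2
      push_cast
      linarith
    · have hc : 1 ≤ T.card := Finset.card_pos.2 (Finset.nonempty_iff_ne_empty.2 hT0)
      have hc2 : (2 : ℝ) ≤ T.card := by
        have : 2 ≤ T.card := by omega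
        exact_mod_cast this
      have hi : ι T ∈ J := hTJ (hι T hT)
      have h2 := mul_le_mul_of_nonneg_left (UGD_log2 e (Q (ι T)) (c1 (ι T)) he (hQ0 _) (hD _ hi)) (hx T)
      have h3 : x T * (2 * e) ≤ 2 * e * (((T.card : ℝ) - 1) * x T) := by
        have h4 : 0 ≤ 2 * e * x T := mul_nonneg (by linarith) (hx T)
        nlinarith
      linarith
  have hsum := Finset.sum_le_sum hpt
  rw [Finset.sum_add_distrib, ← Finset.mul_sum, UGD_single J (fun T => v (ι T) * Q (ι T) - x T)] at hsum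
  have h2 : ∑ i ∈ J, (v (ι {i}) * Q (ι {i}) - x {i}) ≤
      2 * ∑ T ∈ J.powerset.erase ∅, ((T.card : ℝ) - 1) * x T := by
    have e1 : ∑ i ∈ J, (v (ι {i}) * Q (ι {i}) - x {i}) =
        ∑ T ∈ J.powerset.erase ∅, ((T.card : ℝ) * x T - (if T.card = 1 then x T else 0)) := by
      rw [Finset.sum_sub_distrib, Finset.sum_sub_distrib, UGD_single J x,
        UGD_erase J (fun T => (T.card : ℝ) * x T) (by simp)]
      congr 1
      calc ∑ i ∈ J, v (ι {i}) * Q (ι {i}) = ∑ i ∈ J, ∑ T ∈ J.powerset.filter (fun T => i ∈ T), x T := by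
            refine Finset.sum_congr rfl fun i hi => ?_
            rw [hιs i hi, hQ i hi]
        _ = ∑ T ∈ J.powerset, ∑ i ∈ T, x T := (UGD_swap J (fun _ T => x T)).symm
        _ = ∑ T ∈ J.powerset, (T.card : ℝ) * x T :=
            Finset.sum_congr rfl fun T _ => by rw [Finset.sum_const, nsmul_eq_mul]
    rw [e1, Finset.mul_sum]
    refine Finset.sum_le_sum fun T hT => ?_
    have hT0 := ((mem_s T).1 hT).1
    have hc : 1 ≤ T.card := Finset.card_pos.2 (Finset.nonempty_iff_ne_empty.2 hT0)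
    split_ifs with h1
    · rw [h1]
      push_cast
      linarith
    · have hc2 : (2 : ℝ) ≤ T.card := by
        have : 2 ≤ T.card := by omega
        exact_mod_cast this
      have := hx T
      nlinarith
  linarith

/-- the influence is at most one -/
private theorem UGD_Q1 (h1 : S_TPar) (a : ℕ → ℝ) {p : ℕ → ℝ} (J : Finset ℕ) (F : ℝ → ℝ) (z : ℝ)
    (hp : ∀ i, 0 ≤ p i ∧ p i ≤ 1) (hF : ∀ y, F y = 1 ∨ F y = -1) (i : ℕ) (hi : i ∈ J) :
    QQ a p J F z i ≤ 1 := by
  have e : ∀ T ∈ (J.erase i).powerset,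
      Co a p J (insert i T) F z = Co a p (J.erase i) T (hA (a i) F) z := by
    intro T hT
    have h := Co_insert_mem a p (J.erase i) T i (Finset.notMem_erase i J)
      (Finset.mem_powerset.1 hT) F z
    rw [Finset.insert_erase hi] at h
    rw [Co_hA]
    exact h
  have hQ : QQ a p J F z i = Av a p (J.erase i) (fun y => hA (a i) F y ^ 2) z := by
    unfold QQ
    rw [← (h1 a p (J.erase i) ∅ (hA (a i) F) z (Finset.empty_subset _)).1]
    exact Finset.sum_congr rfl fun T hT => by rw [e T hT]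
  rw [hQ]
  refine Av_le_const a hp _ (fun y => ?_) z
  unfold hA
  rcases hF y with h | h <;> rcases hF (y + a i) with h' | h' <;> rw [h, h'] <;> norm_num

/-- Gate condition for almost unate gates. -/
theorem rUGD (h1 : S_TPar) (h2 : S_ULg) (h3 : S_UAv) : S_UGD := by
  intro K e a p M F z he hK hp hF hDu κ hκ hpos
  beta_reduce at hpos ⊢
  obtain ⟨s, hs⟩ : ∃ s, s = (range M).powerset.erase ∅ := ⟨_, rfl⟩
  obtain ⟨x, hx⟩ : ∃ x : Finset ℕ → ℝ, x = fun T => wt p T * Co a p (range M) T F z ^ 2 := ⟨_, rfl⟩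
  have hxT : ∀ T, wt p T * Co a p (range M) T F z ^ 2 = x T := fun T => by rw [hx]
  have hx0 : ∀ T, 0 ≤ x T := fun T => by
    rw [← hxT]
    exact mul_nonneg (wt_nonneg hp T) (sq_nonneg _)
  have mem_s : ∀ T, T ∈ s ↔ T ≠ ∅ ∧ T ⊆ range M := by
    intro T
    rw [hs, Finset.mem_erase, Finset.mem_powerset]
  have hι : ∀ T ∈ s, UGD_ι T ∈ T := fun T hT => UGD_ι_mem T ((mem_s T).1 hT).1
  have hL := h2 a p (range M) F z UGD_ι hp hF (by rw [← hs]; exact hι)
  have hi1 : ∀ i, ∀ T ∈ ((range M).erase i).powerset, i ∉ T := fun i T hT h =>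
    (Finset.mem_erase.1 (Finset.mem_powerset.1 hT h)).1 rfl
  have hQ0 : ∀ i, 0 ≤ QQ a p (range M) F z i := fun i =>
    Finset.sum_nonneg fun T _ => mul_nonneg (wt_nonneg hp T) (sq_nonneg _)
  have hwi : ∀ i, wt p {i} = vi p i := fun i => by
    rw [wt_eq, Finset.prod_singleton]
  have hcore := UGD_core (range M) (vi p) (QQ a p (range M) F z) (fun i => Co a p (range M) {i} F z) x
    UGD_ι e he (fun i => vi_nonneg hp i) hx0 hQ0 (fun i hi => UGD_Q1 h1 a (range M) F z hp hF i hi)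
    (fun i hi => by
      rw [UGD_reindex (range M) i hi, QQ, Finset.mul_sum]
      refine Finset.sum_congr rfl fun T hT => ?_
      rw [← hxT, wt_eq, wt_eq, Finset.prod_insert (hi1 i T hT)]
      ring)
    (fun i _ => by rw [← hxT, hwi]) (fun i hi => hDu i (Finset.mem_range.1 hi))
    (by rw [← hs]; exact hι)
  rw [← hs] at hpos hL hcore ⊢
  simp only [hxT] at hpos hL ⊢
  have hcard : 0 ≤ ∑ T ∈ s, ((T.card : ℝ) - 1) * x T := by
    refine Finset.sum_nonneg fun T hT => mul_nonneg ?_ (hx0 T)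
    have h4 : 1 ≤ T.card := Finset.card_pos.2 (Finset.nonempty_iff_ne_empty.2 ((mem_s T).1 hT).1)
    have h5 : (1 : ℝ) ≤ T.card := by exact_mod_cast h4
    linarith
  obtain ⟨R, hR⟩ : ∃ R, R = ∑ T' ∈ s, x T' * (∑ i ∈ T', κ i) +
      K * ∑ T' ∈ s, ((T'.card : ℝ) - 1) * x T' := ⟨_, rfl⟩
  have hterm : ∑ T ∈ s, (x T * (∑ j ∈ T.erase (UGD_ι T), 2 * Real.log (1 / vi p j)) + x T * κ (UGD_ι T)) ≤
      ∑ T ∈ s, x T * (∑ j ∈ T, κ j) := by
    refine Finset.sum_le_sum fun T hT => ?_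
    have := UGD_term hp M κ hκ T ((mem_s T).1 hT).2 (UGD_ι T) (hι T hT) (Co a p (range M) T F z ^ 2)
      (sq_nonneg _)
    rwa [hxT] at this
  have hsum : ∑ T ∈ s, x T * (2 * Real.log (1 / QQ a p (range M) F z (UGD_ι T)) + κ (UGD_ι T) +
      Real.log (QQ a p (range M) F z (UGD_ι T) ^ 2 / Co a p (range M) {UGD_ι T} F z ^ 2)) ≤ R := by
    have e1 : ∑ T ∈ s, x T * (2 * Real.log (1 / QQ a p (range M) F z (UGD_ι T)) + κ (UGD_ι T) +
        Real.log (QQ a p (range M) F z (UGD_ι T) ^ 2 / Co a p (range M) {UGD_ι T} F z ^ 2)) =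
        ∑ T ∈ s, x T * (2 * Real.log (1 / QQ a p (range M) F z (UGD_ι T))) + ∑ T ∈ s, x T * κ (UGD_ι T) +
        ∑ T ∈ s, x T * Real.log (QQ a p (range M) F z (UGD_ι T) ^ 2 / Co a p (range M) {UGD_ι T} F z ^ 2) := by
      rw [← Finset.sum_add_distrib, ← Finset.sum_add_distrib]
      exact Finset.sum_congr rfl fun T _ => by ring
    rw [Finset.sum_add_distrib] at hterm
    rw [e1, hR]
    have := mul_le_mul_of_nonneg_right hK hcard
    linarith
  obtain ⟨T1, hT1, hxT1, hle⟩ := h3 s x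
    (fun T => 2 * Real.log (1 / QQ a p (range M) F z (UGD_ι T)) + κ (UGD_ι T) +
      Real.log (QQ a p (range M) F z (UGD_ι T) ^ 2 / Co a p (range M) {UGD_ι T} F z ^ 2))
    R (fun T _ => hx0 T) hpos hsum
  have hi := hι T1 hT1
  obtain ⟨i, hiT⟩ : ∃ i, i = UGD_ι T1 := ⟨_, rfl⟩
  rw [← hiT] at hle hi
  have hiM : i ∈ range M := ((mem_s T1).1 hT1).2 hi
  have hc0 : 0 ≤ Co a p (range M) T1 F z ^ 2 := sq_nonneg _
  have hwT1 : 0 < wt p T1 := by
    refine lt_of_le_of_ne (wt_nonneg hp T1) (fun h => ?_)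
    rw [← hxT, ← h, zero_mul] at hxT1
    exact lt_irrefl _ hxT1
  have hcT1 : 0 < Co a p (range M) T1 F z ^ 2 := by
    refine lt_of_le_of_ne hc0 (fun h => ?_)
    rw [← hxT, ← h, mul_zero] at hxT1
    exact lt_irrefl _ hxT1
  have hvi := UGD_vi_pos hp T1 hwT1 i hi
  have hwe : 0 < wt p (T1.erase i) := by
    refine lt_of_le_of_ne (wt_nonneg hp _) (fun h => ?_)
    have h5 := wt_insert p (T1.erase i) i (Finset.notMem_erase i T1)
    rw [Finset.insert_erase hi, ← h, mul_zero] at h5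
    rw [h5] at hwT1
    exact lt_irrefl _ hwT1
  have hQ : 0 < QQ a p (range M) F z i := by
    unfold QQ
    refine lt_of_lt_of_le (mul_pos hwe hcT1) ?_
    have h6 := Finset.single_le_sum
      (f := fun T : Finset ℕ => wt p T * Co a p (range M) (insert i T) F z ^ 2)
      (s := ((range M).erase i).powerset)
      (fun T _ => mul_nonneg (wt_nonneg hp T) (sq_nonneg _))
      (Finset.mem_powerset.2 (Finset.erase_subset_erase i ((mem_s T1).1 hT1).2))
    beta_reduce at h6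
    rwa [Finset.insert_erase hi] at h6
  have hci : Co a p (range M) {i} F z ≠ 0 := by
    intro h
    have h6 := hDu i (Finset.mem_range.1 hiM)
    rw [h, abs_zero, mul_zero] at h6
    linarith
  have hci2 : 0 < Co a p (range M) {i} F z ^ 2 := by positivity
  refine ⟨{i}, ?_, ?_, ?_⟩
  · rw [mem_s]
    exact ⟨Finset.singleton_ne_empty i, Finset.singleton_subset_iff.2 hiM⟩
  · rw [← hxT, hwi]
    exact mul_pos hvi hci2
  · rw [← hR, Finset.sum_singleton]
    have e2 : Real.log (1 / Co a p (range M) {i} F z ^ 2) =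
        2 * Real.log (1 / QQ a p (range M) F z i) +
          Real.log (QQ a p (range M) F z i ^ 2 / Co a p (range M) {i} F z ^ 2) := by
      have e5 : Real.log (QQ a p (range M) F z i ^ 2) = 2 * Real.log (QQ a p (range M) F z i) := by
        rw [Real.log_pow]
        push_cast
        ring
      have hQ2 : QQ a p (range M) F z i ^ 2 ≠ 0 := by positivity
      rw [one_div, one_div, Real.log_inv, Real.log_inv, Real.log_div hQ2 hci2.ne', e5]
      ring
    rw [e2]
    have e3 : 2 * Real.log (1 / QQ a p (range M) F z i) +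
          Real.log (QQ a p (range M) F z i ^ 2 / Co a p (range M) {i} F z ^ 2) + κ i =
        2 * Real.log (1 / QQ a p (range M) F z i) + κ i +
          Real.log (QQ a p (range M) F z i ^ 2 / Co a p (range M) {i} F z ^ 2) := by ring
    rw [e3]
    exact hle

end Pool.Agent.MP3145b1.AG
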