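import Pool.Agent.Lib.MP_3145b1_co.AG.Fin
import Pool.Agent.Lib.MP_3145b1_co.AG.UGD
import Pool.Agent.Lib.MP_3145b1_co.AG.UDa
import Pool.Agent.Lib.MP_3145b1_co.AG.AC5
import Pool.Agent.Lib.MP_3145b1_co.AG.AF5

/-!
# MP_3145b1_co, project AG, part 5: assembly (almost unate gates)
-/

set_option autoImplicit false

namespace Pool.Agent.MP3145b1.AG

open Finset Pool.Agent.MP3145b1 Pool.Agent.MP3145b1.RC Pool.Agent.MP3145b1.RD Pool.Agent.MP3145b1.RT Pool.Agent.MP3145b1.UM Pool.Agent.MP3145b1.LD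

theorem uDa : S_UDa := rUDa aVsm tCfo (rUGD rTPar uLg rUAv) uCm

theorem aC5 : S_AC5 :=
  rAC5 uTh uSy uUa uPr uLv (rAGm aVsm tCfo uPv uGE uCm aGt) (rAHm aVsm tCfo uPv uGE uCm aHt) uDa

/-- the composition theorem for the min-entropy inequality, with almost unate gates -/
theorem fin5 : S_AF5 := rAF5 gVar gPg aC5 rUMn

end Pool.Agent.MP3145b1.AG
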