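import Pool.Agent.Lib.MP_3145b1_co.AG.Spec4

/-!
# MP_3145b1_co, project AG, module DHf
-/

set_option autoImplicit false

namespace Pool.Agent.MP3145b1.AG

open Finset Pool.Agent.MP3145b1

theorem rDHf (h1 : S_D2) (h2 : S_DHo) (h3 : S_DHx) : S_DHf := by
  obtain ⟨C, hC, h⟩ := h1
  refine ⟨C, hC, fun n m k d M c f hk hf A y => ?_⟩
  rcases hf with hf | hf
  · obtain ⟨m', M', c', hk', hf'⟩ := h2 n m k M c f A y hk hf
    exact h n m' k d M' c' _ hk' (Or.inl hf')
  · obtain ⟨m', M', c', hk', hf'⟩ := h3 n m k d M c f A y hk hf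
    exact h n m' k d M' c' _ hk' (Or.inr hf')

end Pool.Agent.MP3145b1.AG
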