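import Pool.Agent.Lib.MP_3145b1_co.AG.Spec4

/-!
# MP_3145b1_co, project AG, module DHo: restriction of an OR of terms
-/

set_option autoImplicit false

namespace Pool.Agent.MP3145b1.AG

open Finset Pool.Agent.MP3145b1

private theorem DHo_sat {n : ℕ} (M A : Finset (Fin n)) (c x y : Fin n → Bool) :
    F.Sat M c (fun i => if i ∈ A then x i else y i) ↔ F.Sat (M ∩ A) c x ∧ F.Sat (M \ A) c y := by
  unfold F.Sat
  constructor
  · intro h
    refine ⟨fun i hi => ?_, fun i hi => ?_⟩
    · have h1 := h i (Finset.mem_inter.1 hi).1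
      beta_reduce at h1
      rwa [if_pos (Finset.mem_inter.1 hi).2] at h1
    · have h1 := h i (Finset.mem_sdiff.1 hi).1
      beta_reduce at h1
      rwa [if_neg (Finset.mem_sdiff.1 hi).2] at h1
  · rintro ⟨h1, h2⟩ i hi
    show (if i ∈ A then x i else y i) = c i
    by_cases hA : i ∈ A
    · rw [if_pos hA]
      exact h1 i (Finset.mem_inter.2 ⟨hi, hA⟩)
    · rw [if_neg hA]
      exact h2 i (Finset.mem_sdiff.2 ⟨hi, hA⟩)

/-- **DHo**: every restriction of an OR of terms is an OR of terms, with the same read. -/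
theorem rDHo : S_DHo := by
  classical
  intro n m k M c f A y hk hf
  obtain ⟨s, hs, hf⟩ := hf
  have hJ : ∃ J : Finset (Fin m), ∀ j, j ∈ J ↔ F.Sat (M j \ A) (c j) y :=
    ⟨univ.filter (fun j => F.Sat (M j \ A) (c j) y), fun j => by simp⟩
  obtain ⟨J, hJ⟩ := hJ
  refine ⟨J.card, fun j => M (J.orderEmbOfFin rfl j) ∩ A, fun j => c (J.orderEmbOfFin rfl j), ?_,
    s, hs, ?_⟩
  · intro i
    refine le_trans ?_ (hk i)
    apply Finset.card_le_card_of_injOn (fun j => J.orderEmbOfFin rfl j)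
    · intro j hj
      rw [Finset.mem_coe, Finset.mem_filter] at hj ⊢
      exact ⟨Finset.mem_univ _, (Finset.mem_inter.1 hj.2).1⟩
    · exact (J.orderEmbOfFin rfl).injective.injOn
  · intro x
    show f (fun i => if i ∈ A then x i else y i) = _
    rw [hf]
    have hiff : (∃ j, F.Sat (M j) (c j) (fun i => if i ∈ A then x i else y i)) ↔
        ∃ j, F.Sat (M (J.orderEmbOfFin rfl j) ∩ A) (c (J.orderEmbOfFin rfl j)) x := by
      constructor
      · rintro ⟨j, hj⟩
        rw [DHo_sat] at hj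
        have hjJ : j ∈ J := (hJ j).2 hj.2
        have hr : j ∈ Set.range (J.orderEmbOfFin rfl) := by
          rw [Finset.range_orderEmbOfFin]
          exact hjJ
        obtain ⟨j', hj'⟩ := hr
        refine ⟨j', ?_⟩
        rw [hj']
        exact hj.1
      · rintro ⟨j', hj'⟩
        exact ⟨_, (DHo_sat _ _ _ _ _).2 ⟨hj', (hJ _).1 (Finset.orderEmbOfFin_mem J rfl j')⟩⟩
    by_cases h : ∃ j, F.Sat (M j) (c j) (fun i => if i ∈ A then x i else y i)
    · rw [if_pos h, if_pos (hiff.1 h)]
    · rw [if_neg h, if_neg (fun h' => h (hiff.2 h'))]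

end Pool.Agent.MP3145b1.AG
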