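import Pool.Agent.Lib.MP_3145b1_co.AG.Spec4

/-!
# MP_3145b1_co, project AG: restriction of an XOR of terms and of a polynomial (`S_DHx`)
-/

set_option autoImplicit false

namespace Pool.Agent.MP3145b1.AG

open Finset Pool.Agent.MP3145b1

open Classical in
/-- The sign of a proposition: `-1` if it holds. -/
private noncomputable def DHx_s (P : Prop) : ℝ := if P then -1 else 1

private theorem DHx_ite (P : Prop) [Decidable P] : (if P then (-1 : ℝ) else 1) = DHx_s P := by
  unfold DHx_s
  by_cases h : P
  · rw [if_pos h, if_pos h]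
  · rw [if_neg h, if_neg h]

private theorem DHx_false {P : Prop} (h : ¬ P) : DHx_s P = 1 := by
  unfold DHx_s; rw [if_neg h]

private theorem DHx_pow (P : Prop) (k : ℕ) [Decidable (Odd k)] :
    DHx_s P ^ k = if Odd k then DHx_s P else 1 := by
  by_cases h : P
  · have hs : DHx_s P = -1 := by unfold DHx_s; rw [if_pos h]
    rw [hs]
    by_cases ho : Odd k
    · rw [if_pos ho, ho.neg_one_pow]
    · rw [if_neg ho, (Nat.not_odd_iff_even.1 ho).neg_one_pow]
  · rw [DHx_false h, one_pow]
    split_ifs <;> rfl

/-- A term at a mixed point. -/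
private theorem DHx_sat {n : ℕ} (M A : Finset (Fin n)) (c x y : Fin n → Bool) :
    F.Sat M c (fun i => if i ∈ A then x i else y i) ↔
      F.Sat (M \ A) c y ∧ F.Sat (M ∩ A) c x := by
  unfold F.Sat
  constructor
  · intro h
    refine ⟨fun i hi => ?_, fun i hi => ?_⟩
    · rw [mem_sdiff] at hi
      have := h i hi.1
      simpa only [if_neg hi.2] using this
    · rw [mem_inter] at hi
      have := h i hi.1
      simpa only [if_pos hi.2] using this
  · rintro ⟨h1, h2⟩ i hi
    by_cases hA : i ∈ A
    · simpa only [if_pos hA] using h2 i (mem_inter.2 ⟨hi, hA⟩)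
    · simpa only [if_neg hA] using h1 i (mem_sdiff.2 ⟨hi, hA⟩)

/-- A product of signs over the whole type as a product over a subset. -/
private theorem DHx_prod {ι : Type} [DecidableEq ι] (S : Finset ι) (p q r : ι → Prop)
    [DecidablePred q] (h : ∀ j, p j ↔ q j ∧ r j) :
    ∏ j ∈ S, DHx_s (p j) = ∏ j ∈ S.filter q, DHx_s (r j) := by
  rw [prod_filter]
  refine prod_congr rfl fun j _ => ?_
  by_cases hq : q j
  · rw [if_pos hq]
    congr 1
    apply propext
    rw [h j]
    exact ⟨fun h => h.2, fun h => ⟨hq, h⟩⟩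
  · rw [if_neg hq]
    exact DHx_false fun hp => hq ((h j).1 hp).1

theorem rDHx : S_DHx := by
  classical
  intro n m k d M c f A y hM hf
  obtain ⟨P0, hQ, hfQ⟩ := hf
  -- the terms
  let J : Finset (Fin m) := univ.filter (fun j => F.Sat (M j \ A) (c j) y)
  let e : Fin J.card → Fin m := fun j => ((J.equivFin.symm j : J) : Fin m)
  have he : Function.Injective e := fun a b hab => J.equivFin.symm.injective (Subtype.ext hab)
  -- the monomials
  let Q1 : Finset (Finset (Fin n)) := P0.filter (fun N => ∀ i ∈ N \ A, y i = true)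
  let Q' : Finset (Finset (Fin n)) :=
    univ.filter (fun N' => Odd ((Q1.filter (fun N => N ∩ A = N')).card))
  refine ⟨J.card, fun j => M (e j) ∩ A, fun j => c (e j), ?_, Q', ?_, ?_⟩
  · intro i
    refine le_trans ?_ (hM i)
    refine card_le_card_of_injOn e ?_ he.injOn
    intro j hj
    have hj' := (mem_filter.1 (mem_coe.1 hj)).2
    exact mem_coe.2 (mem_filter.2 ⟨mem_univ _, (mem_inter.1 hj').1⟩)
  · intro N' hN'
    have h1 : Odd ((Q1.filter (fun N => N ∩ A = N')).card) := (mem_filter.1 hN').2
    have h2 : (Q1.filter (fun N => N ∩ A = N')).Nonempty := by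
      rw [← card_pos]
      exact h1.pos
    obtain ⟨N, hN⟩ := h2
    rw [mem_filter] at hN
    have h3 : N ∈ P0 := (mem_filter.1 hN.1).1
    rw [← hN.2]
    exact (card_le_card inter_subset_left).trans (hQ N h3)
  · intro x
    have hb : Q.blk A y f x = f (fun i => if i ∈ A then x i else y i) := rfl
    rw [hb, hfQ]
    simp only [DHx_ite]
    congr 1
    · -- the monomials
      have e1 : ∏ N ∈ P0, DHx_s (∀ i ∈ N, (if i ∈ A then x i else y i) = true) =
          ∏ N ∈ Q1, DHx_s (∀ i ∈ N ∩ A, x i = true) :=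
        DHx_prod P0 _ (fun N => ∀ i ∈ N \ A, y i = true) (fun N => ∀ i ∈ N ∩ A, x i = true)
          (fun N => DHx_sat N A (fun _ => true) x y)
      rw [e1, ← prod_fiberwise Q1 (fun N => N ∩ A)]
      have e2 : ∀ N' : Finset (Fin n),
          ∏ N ∈ Q1 with N ∩ A = N', DHx_s (∀ i ∈ N ∩ A, x i = true) =
            if Odd ((Q1.filter (fun N => N ∩ A = N')).card) then DHx_s (∀ i ∈ N', x i = true)
              else 1 := by
        intro N'
        rw [← DHx_pow, ← prod_const]
        refine prod_congr rfl fun N hN => ?_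
        rw [(mem_filter.1 hN).2]
      rw [prod_congr rfl fun N' _ => e2 N', ← prod_filter]
    · -- the terms
      have e1 : ∏ j, DHx_s (F.Sat (M j) (c j) (fun i => if i ∈ A then x i else y i)) =
          ∏ j ∈ J, DHx_s (F.Sat (M j ∩ A) (c j) x) :=
        DHx_prod univ _ (fun j => F.Sat (M j \ A) (c j) y) (fun j => F.Sat (M j ∩ A) (c j) x)
          (fun j => DHx_sat (M j) A (c j) x y)
      rw [e1, ← prod_coe_sort J]
      exact (J.equivFin.symm.prod_comp
        (fun j : J => DHx_s (F.Sat (M (j : Fin m) ∩ A) (c (j : Fin m)) x))).symm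

end Pool.Agent.MP3145b1.AG
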