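import Pool.Agent.Lib.MP_3145b1_co.F.Fin
import Pool.Agent.Lib.MP_3145b1_co.F.MainE
import Pool.Agent.Lib.MP_3145b1_co.F.Jn
import Pool.Agent.Lib.MP_3145b1_co.F.ExpB
import Pool.Agent.Lib.MP_3145b1_co.F.Sc
import Pool.Agent.Lib.MP_3145b1_co.F.Step
import Pool.Agent.Lib.MP_3145b1_co.F.Desc
import Pool.Agent.Lib.MP_3145b1_co.F.Ind
import Pool.Agent.Lib.MP_3145b1_co.F.LSum
import Pool.Agent.Lib.MP_3145b1_co.F.LTerm
import Pool.Agent.Lib.MP_3145b1_co.F.Cos
import Pool.Agent.Lib.MP_3145b1_co.F.First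
import Pool.Agent.Lib.MP_3145b1_co.F.Nm
import Pool.Agent.Lib.MP_3145b1_co.F.Un
import Pool.Agent.Lib.MP_3145b1_co.F.Prod
import Pool.Agent.Lib.MP_3145b1_co.F.Res
import Pool.Agent.Lib.MP_3145b1_co.F.PolB
import Pool.Agent.Lib.MP_3145b1_co.F.RM
import Pool.Agent.Lib.MP_3145b1_co.F.ResA
import Pool.Agent.Lib.MP_3145b1_co.F.MinA
import Pool.Agent.Lib.MP_3145b1_co.F.InfA
import Pool.Agent.Lib.MP_3145b1_co.F.CostA
import Pool.Agent.Lib.MP_3145b1_co.F.LP
import Pool.Agent.Lib.MP_3145b1_co.F.ResB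
import Pool.Agent.Lib.MP_3145b1_co.F.MinB
import Pool.Agent.Lib.MP_3145b1_co.F.NormB
import Pool.Agent.Lib.MP_3145b1_co.F.ShortB
import Pool.Agent.Lib.MP_3145b1_co.AG.DHf
import Pool.Agent.Lib.MP_3145b1_co.AG.DHo
import Pool.Agent.Lib.MP_3145b1_co.AG.DHx

/-!
# MP_3145b1_co, project AG: depth-two formulas of bounded read and their restrictions
-/

set_option autoImplicit false

namespace Pool.Agent.MP3145b1.AG

open Finset Pool.Agent.MP3145b1 Pool.Agent.MP3145b1.F

private theorem d2_full : ∃ C : ℝ, 0 < C ∧ ∀ (n m k d : ℕ) (M : Fin m → Finset (Fin n))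
    (c : Fin m → Fin n → Bool) (f : (Fin n → Bool) → ℝ),
    (∀ i, (univ.filter fun j => i ∈ M j).card ≤ k) → (IsOr M c f ∨ IsXor d M c f) →
      specEntropy f ≤ C * (k ^ 2 + d + 1) * influence f ∧
        ∃ S : Finset (Fin n), Real.exp (-C * (k ^ 2 + d + 1) * influence f) ≤ |coeff f S| := by
  have hRes := res
  have hPolB := polB
  have hLSum := lSum
  have hFirst := first cos
  have hProd := prod hLSum lTerm nm un
  have hLP := lp ind un
  have hDesc := desc (step sc)
  have hResB := resB hRes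
  have hA : S_MainAe := mainAe jn hDesc hPolB (resA hRes hPolB) (minA hPolB)
    (infA hPolB (rm hPolB)) (costA hFirst hProd hLSum hRes ind)
  have hB : S_MainBe := mainBe jn hDesc hResB minB (infBe hLP ind un)
    (costBe hFirst (normB hLP hProd un) hLP hResB hLSum un) (shortB ind)
  exact fin_main hA hB

/-- the entropy part of the theorem on depth-two formulas -/
theorem d2 : S_D2 := by
  obtain ⟨C, hC, h⟩ := d2_full
  exact ⟨C, hC, fun n m k d M c f hk hf => (h n m k d M c f hk hf).1⟩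

/-- depth-two formulas of bounded read and all their restrictions -/
theorem dHf : S_DHf := rDHf d2 rDHo rDHx

end Pool.Agent.MP3145b1.AG
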