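import Pool.Agent.Lib.MP_3145b1_co.AG.Spec
import Pool.Agent.Lib.MP_3145b1_co.LD.Spec

/-!
# MP_3145b1_co, project AG, part 2 (architect helper45): the sharp inequality follows from the plain one (hereditary form)

THEOREM. If all restrictions `g` of `f` satisfy `Ent(g) ≤ c I(g)` then `Ent(f) - h(f^(∅)^2) ≤ C (1 + c) (I(f) - Var f)`; the same for Boolean functions of
independent biased bits (all restrictions with the plain inequality for the product measure). So the classes of AG/Spec.lean get the leaf (her) and the gate (gen).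
The point: if all pivotal probabilities are at most `1/2` then `Var ≤ 3 (I - Var)` (S_AFk), so plain implies sharp with the factor `4`; otherwise read a variable
with a large pivotal probability (S_ANd) and pass to the two restrictions.

RULES: as in AG/Spec.lean; import Pool.Agent.Lib.MP_3145b1_co.AG.Spec2; open in addition Pool.Agent.MP3145b1.LD (tw, hf, xb).
-/

set_option autoImplicit false

namespace Pool.Agent.MP3145b1.AG

open Finset Pool.Agent.MP3145b1 Pool.Agent.MP3145b1.RC Pool.Agent.MP3145b1.RD Pool.Agent.MP3145b1.RT Pool.Agent.MP3145b1.UM Pool.Agent.MP3145b1.LD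

/-- total influence for the product measure with the probabilities `p` -/
noncomputable def Ti (a p : ℕ → ℝ) (J : Finset ℕ) (F : ℝ → ℝ) (z : ℝ) : ℝ :=
  ∑ T ∈ J.powerset, (T.card : ℝ) * (wt p T * Co a p J T F z ^ 2)

/-- **AHr** (from the plain to the sharp inequality). Uses: S_TPar, S_ARc, S_AFk, S_ANd. MODEL: AG/AMn.lean (the same induction).
Proof. Strong induction on `J.card`, for all `J`, `z`. `Dd = ∑_{T ≠ ∅} (|T| - 1) x T`, `Ti = ∑ |T| x T = Dd + ∑_{T ≠ ∅} x T`. Case 1: `QQ a p J F z i ≤ 1/2` for all `i ∈ J`: `∑_{T ≠ ∅} x T ≤ 3 Dd` (S_AFk), `Ti ≤ 4 Dd`, the hypothesis with `J' = J`, `U = ∅`: `Hs ≤ c * Ti ≤ 4 c Dd ≤ K Dd` (`Dd ≥ 0`).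
Case 2: as in AG/AMn.lean; the hypothesis for `J' = J.erase i` at `z` and at `z + a i`: for `J'' ⊆ J'`, `U ⊆ J' \ J''`: `z + ∑ U` is of the form for `J`, `J''`, `U`, and `z + a i + ∑ U = z + ∑ (insert i U)` with `insert i U ⊆ J \ J''`. -/
def S_AHr : Prop := ∀ (a p : ℕ → ℝ) (F : ℝ → ℝ) (c K : ℝ), (∀ i, 0 ≤ p i ∧ p i ≤ 1) → (∀ y, F y = 1 ∨ F y = -1) →
  0 ≤ c → 23 ≤ K → 4 * c ≤ K → ∀ (J : Finset ℕ) (z : ℝ),
  (∀ J' U : Finset ℕ, J' ⊆ J → U ⊆ J \ J' → Hs a p J' F (z + ∑ i ∈ U, a i) ≤ c * Ti a p J' F (z + ∑ i ∈ U, a i)) →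
  Hs a p J F z ≤ K * Dd a p J F z

/-- the gate `φ` as a function of a number (binary encoding of the set of the true bits) -/
noncomputable def Ph (φ : Finset ℕ → Bool) (y : ℝ) : ℝ := if φ (⌊y⌋₊.bitIndices.toFinset) then -1 else 1

/-- the gate `φ` of `M` independent bits (`p i` = probability that the bit `i` is false) and all its restrictions (`J`: free bits, `U`: the true bits outside of `J`)
satisfy the plain entropy inequality `∑_{T ≠ ∅} x_T log (wt_T/x_T) ≤ c ∑ |T| x_T` for the product measure (`x_T = wt p T * Co .. T^2` is the square of the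
coefficient in the orthonormal basis) -/
def Hd (c : ℝ) (p : ℕ → ℝ) (M : ℕ) (φ : Finset ℕ → Bool) : Prop := ∀ J U : Finset ℕ, J ⊆ range M → U ⊆ range M \ J →
  Hs tw p J (Ph φ) (∑ i ∈ U, tw i) ≤ c * Ti tw p J (Ph φ) (∑ i ∈ U, tw i)

/-- **AHt** (the gate inequality). Uses: S_TPar, S_AHr. MODEL: AG/AGt.lean.
Proof. S_AHr with `J = range M`, `z = 0` (`0 + ∑ U`), `a = tw`, `F = Ph φ`. -/
def S_AHt : Prop := ∀ (c K : ℝ) (p : ℕ → ℝ) (M : ℕ) (φ : Finset ℕ → Bool), (∀ i, 0 ≤ p i ∧ p i ≤ 1) → 0 ≤ c → 23 ≤ K → 4 * c ≤ K →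
  Hd c p M φ → ∑ T ∈ (range M).powerset, wt p T * hh (Co tw p (range M) T (Ph φ) 0 ^ 2) ≤ hh (Co tw p (range M) ∅ (Ph φ) 0 ^ 2) +
    K * (∑ T ∈ (range M).powerset, (T.card : ℝ) * (wt p T * Co tw p (range M) T (Ph φ) 0 ^ 2) - (1 - Co tw p (range M) ∅ (Ph φ) 0 ^ 2))

/-- **AHs** (general gates, entropy). Uses: S_Vsm, S_TCfo, S_TCmp, S_AHt. MODEL: AG/AGs.lean (`tw i = 2^i`, `Ph φ` is the function used there). -/
def S_AHs : Prop := ∀ (K c : ℝ) (N M : ℕ) (P : ℕ → Finset (Fin N)) (u : ℕ → (Fin N → Bool) → ℝ) (φ : Finset ℕ → Bool),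
  0 ≤ c → 23 ≤ K → 4 * c ≤ K → Cp P u → Hd c (pb u) M φ → (∀ i, Shp K (u i)) →
  Shp K (fun x => if φ ((range M).filter (fun i => u i x = -1)) then (-1 : ℝ) else 1)

/-- **AHm** (general gates, min-entropy). Uses: S_Vsm, S_TCfo, S_UPv, S_UGE, S_UCm, S_AHt. MODEL: AG/AGm.lean. -/
def S_AHm : Prop := ∀ (K c : ℝ) (N M : ℕ) (P : ℕ → Finset (Fin N)) (u : ℕ → (Fin N → Bool) → ℝ) (φ : Finset ℕ → Bool),
  0 ≤ c → 23 ≤ K → 4 * c ≤ K → Cp P u → Hd c (pb u) M φ → (∀ i, Mq K (u i)) →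
  Mq K (fun x => if φ ((range M).filter (fun i => u i x = -1)) then (-1 : ℝ) else 1)

/-- **ATr** (coefficients of a restriction). Uses: S_TCfo. MODEL: LD/LTr.lean.
Proof. (1) `P i = if i ∈ A' then {⟨i, _⟩} else ∅` (`A' = A.map Fin.valEmbedding`), `u i = ` the variable `i` (`-1` if `x i`) for `i ∈ A'`, the constant `if y i then -1 else 1` for the other `i < N`, `1` for `i ≥ N`; `Q.blk A y f x = F (0 + ∑ i ∈ range N, (if u i x = -1 then tw i else 0))` with `F t = f (xb N t)` (as in LD/LTr.lean), S_TCfo with `z = 0`.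
`pb u i = 1/2` for `i ∈ A'`, `0` or `1` for the other `i < N` (`0` iff `y i`). For `B` disjoint from `A'` with `pb u i ∈ {0, 1}` on `B`: `Co tw (pb u) (A' ∪ B) T F z = Co tw (pb u) A' T F (z + ∑_{i ∈ B, pb u i = 0} tw i)` (induction on `B`, Co_insert_not), `range N = A' ∪ (range N \ A')`, and `Co .. A' T` depends only on the values of `p` on `A'`.
(2) `Q.blk A y f` does not depend on the variables outside of `A` (also from S_TCfo: `Lp = 0`). -/
def S_ATr : Prop := ∀ (N : ℕ) (f : (Fin N → Bool) → ℝ) (A : Finset (Fin N)) (y : Fin N → Bool),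
  (∀ S : Finset (Fin N), S ⊆ A → coeff (Q.blk A y f) S = Co tw hf (A.map Fin.valEmbedding) (S.map Fin.valEmbedding) (fun t => f (xb N t))
    (∑ i ∈ univ.filter (fun i => i ∉ A ∧ y i = true), tw i.val)) ∧
  ∀ S : Finset (Fin N), ¬ S ⊆ A → coeff (Q.blk A y f) S = 0

/-- `f` and all its restrictions (`A`: free variables, the others as in `y`) satisfy the plain entropy inequality (in bits) with the constant `c` -/
def Hq (c : ℝ) {N : ℕ} (f : (Fin N → Bool) → ℝ) : Prop := ∀ (A : Finset (Fin N)) (y : Fin N → Bool),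
  specEntropy (Q.blk A y f) ≤ c * influence (Q.blk A y f)

/-- **AHe** (leaves). Uses: S_AHr, S_ATr.
Proof. `F t = f (xb N t)`, `a = tw`, `p = hf`, `J = range N`, `z = 0`, `K = 23 + 4 c`; `wt hf T = 1`. Conclusion: S_ATr with `A = univ` (`Q.blk univ y f = f`): `Hs = ∑_{S ≠ ∅} hh (coeff f S^2)`, `Dd = ∑_{S ≠ ∅} (|S| - 1) coeff^2 = influence f - (1 - coeff f ∅^2)` (Parseval). Hypothesis of S_AHr for `J' ⊆ range N`, `U ⊆ range N \ J'`:
`A = univ.filter (fun i => i.val ∈ J')`, `y i = decide (i.val ∈ U)`: `A.map = J'`, the number in S_ATr is `∑ i ∈ U, tw i`; `Hs = ∑_{S ⊆ A, S ≠ ∅} hh (coeff (Q.blk A y f) S^2) ≤ specEntropy (Q.blk A y f)` (`hh t = t log (1/t) ≤ t logb 2 (1/t)` for `0 ≤ t ≤ 1`, `log 2 ≤ 1`, all terms `≥ 0`) `≤ c * influence (Q.blk A y f) = c * Ti`. -/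
def S_AHe : Prop := ∀ (N : ℕ) (f : (Fin N → Bool) → ℝ) (c : ℝ), 0 ≤ c → (∀ x, f x = 1 ∨ f x = -1) → Hq c f → Shp (23 + 4 * c) f

/-- **Read-once compositions for the entropy**: the smallest class of functions `(Fin N → Bool) → {1, -1}` which contains
(leaf) every function `f` with values `1`, `-1` and `Ent(f) - h(f^(∅)^2) ≤ C0 (I(f) - Var f)` (natural logarithm),
(her) every function `f` with values `1`, `-1` such that all restrictions `g` of `f` satisfy `Ent(g) ≤ C0 I(g)` (in bits), with `f` also `-f`, and with functions `u i` (`i : ℕ`) of pairwise disjoint sets `P i` of variables also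
(gen) every function `φ` of the `u i`, `i < M`, which satisfies, with all its restrictions, the plain entropy inequality with the constant `C0` for the product measure with the biases of the `u i` (`Hd`);
(arb) EVERY function of the `u i`, `i < M`, if the sum of the variances of these `u i` is at most `s`;
(thr) the function which is `-1` iff the sum of the real weights `a i` over the `i < M` with `u i x = -1` is in `[θ1, θ2)`;
(sym) every function of the number of the `i < M` with `u i x = -1`;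
(prog) every function computed by a read-once branching program with `w` states per level whose nodes read the values of the `u i`. -/
inductive RH (w : ℕ) (s C0 : ℝ) {N : ℕ} : ((Fin N → Bool) → ℝ) → Prop
  | leaf (f : (Fin N → Bool) → ℝ) (hv : ∀ x, f x = 1 ∨ f x = -1) (hf : Shp C0 f) : RH w s C0 f
  | her (f : (Fin N → Bool) → ℝ) (hv : ∀ x, f x = 1 ∨ f x = -1) (hf : Hq C0 f) : RH w s C0 f
  | neg (f : (Fin N → Bool) → ℝ) (hf : RH w s C0 f) : RH w s C0 (fun x => - f x)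
  | gen (P : ℕ → Finset (Fin N)) (u : ℕ → (Fin N → Bool) → ℝ)
      (hP : ∀ i j, i ≠ j → Disjoint (P i) (P j)) (hd : ∀ i, Dp (P i) (u i)) (hu : ∀ i, RH w s C0 (u i))
      (M : ℕ) (φ : Finset ℕ → Bool) (hφ : Hd C0 (pb u) M φ) :
      RH w s C0 (fun x => if φ ((range M).filter (fun i => u i x = -1)) then -1 else 1)
  | arb (P : ℕ → Finset (Fin N)) (u : ℕ → (Fin N → Bool) → ℝ)
      (hP : ∀ i j, i ≠ j → Disjoint (P i) (P j)) (hd : ∀ i, Dp (P i) (u i)) (hu : ∀ i, RH w s C0 (u i))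
      (M : ℕ) (hs : ∑ i ∈ range M, (1 - coeff (u i) ∅ ^ 2) ≤ s) (φ : Finset ℕ → Bool) :
      RH w s C0 (fun x => if φ ((range M).filter (fun i => u i x = -1)) then -1 else 1)
  | thr (P : ℕ → Finset (Fin N)) (u : ℕ → (Fin N → Bool) → ℝ)
      (hP : ∀ i j, i ≠ j → Disjoint (P i) (P j)) (hd : ∀ i, Dp (P i) (u i)) (hu : ∀ i, RH w s C0 (u i))
      (M : ℕ) (a : ℕ → ℝ) (θ1 θ2 : ℝ) :
      RH w s C0 (fun x => if θ1 ≤ ∑ i ∈ range M, (if u i x = -1 then a i else 0) ∧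
        ∑ i ∈ range M, (if u i x = -1 then a i else 0) < θ2 then -1 else 1)
  | sym (P : ℕ → Finset (Fin N)) (u : ℕ → (Fin N → Bool) → ℝ)
      (hP : ∀ i j, i ≠ j → Disjoint (P i) (P j)) (hd : ∀ i, Dp (P i) (u i)) (hu : ∀ i, RH w s C0 (u i))
      (M : ℕ) (φ : ℕ → Bool) :
      RH w s C0 (fun x => if φ ((range M).filter (fun i => u i x = -1)).card then -1 else 1)
  | prog (P : ℕ → Finset (Fin N)) (u : ℕ → (Fin N → Bool) → ℝ)
      (hP : ∀ i j, i ≠ j → Disjoint (P i) (P j)) (hd : ∀ i, Dp (P i) (u i)) (hu : ∀ i, RH w s C0 (u i))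
      (n : ℕ) (σ : ℕ → Fin w → Bool → Fin w) (v : ℕ → Fin w → ℕ) (x0 : Fin w) (o : Fin w → Bool)
      (hr : ReadOnce σ v n x0) :
      RH w s C0 (fun x => if o (run σ v x0 (fun i => decide (u i x = -1)) n) then -1 else 1)

/-- **Read-once compositions for the min-entropy**: the smallest class of functions `(Fin N → Bool) → {1, -1}` which contains
(leaf) every function `f` with values `1`, `-1` and `Pm C0 f` (plain min-entropy inequality; the constants and the variables among them), with `f`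
also `-f`, and with functions `u i` (`i : ℕ`) of pairwise disjoint sets `P i` of variables also
(una) every unate function of the `u i`, `i < M`; (gen), (arb), (thr), (sym), (prog) as in `RH`. -/
inductive UH (w : ℕ) (s C0 : ℝ) {N : ℕ} : ((Fin N → Bool) → ℝ) → Prop
  | leaf (f : (Fin N → Bool) → ℝ) (hv : ∀ x, f x = 1 ∨ f x = -1) (hf : Pm C0 f) : UH w s C0 f
  | neg (f : (Fin N → Bool) → ℝ) (hf : UH w s C0 f) : UH w s C0 (fun x => - f x)
  | una (P : ℕ → Finset (Fin N)) (u : ℕ → (Fin N → Bool) → ℝ)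
      (hP : ∀ i j, i ≠ j → Disjoint (P i) (P j)) (hd : ∀ i, Dp (P i) (u i)) (hu : ∀ i, UH w s C0 (u i))
      (M : ℕ) (φ : Finset ℕ → Bool)
      (hφ : ∀ i, i < M → (∀ U, U ⊆ range M → i ∉ U → φ U = true → φ (insert i U) = true) ∨
        (∀ U, U ⊆ range M → i ∉ U → φ (insert i U) = true → φ U = true)) :
      UH w s C0 (fun x => if φ ((range M).filter (fun i => u i x = -1)) then -1 else 1)
  | gen (P : ℕ → Finset (Fin N)) (u : ℕ → (Fin N → Bool) → ℝ)
      (hP : ∀ i j, i ≠ j → Disjoint (P i) (P j)) (hd : ∀ i, Dp (P i) (u i)) (hu : ∀ i, UH w s C0 (u i))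
      (M : ℕ) (φ : Finset ℕ → Bool) (hφ : Hd C0 (pb u) M φ) :
      UH w s C0 (fun x => if φ ((range M).filter (fun i => u i x = -1)) then -1 else 1)
  | arb (P : ℕ → Finset (Fin N)) (u : ℕ → (Fin N → Bool) → ℝ)
      (hP : ∀ i j, i ≠ j → Disjoint (P i) (P j)) (hd : ∀ i, Dp (P i) (u i)) (hu : ∀ i, UH w s C0 (u i))
      (M : ℕ) (hs : ∑ i ∈ range M, (1 - coeff (u i) ∅ ^ 2) ≤ s) (φ : Finset ℕ → Bool) :
      UH w s C0 (fun x => if φ ((range M).filter (fun i => u i x = -1)) then -1 else 1)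
  | thr (P : ℕ → Finset (Fin N)) (u : ℕ → (Fin N → Bool) → ℝ)
      (hP : ∀ i j, i ≠ j → Disjoint (P i) (P j)) (hd : ∀ i, Dp (P i) (u i)) (hu : ∀ i, UH w s C0 (u i))
      (M : ℕ) (a : ℕ → ℝ) (θ1 θ2 : ℝ) :
      UH w s C0 (fun x => if θ1 ≤ ∑ i ∈ range M, (if u i x = -1 then a i else 0) ∧
        ∑ i ∈ range M, (if u i x = -1 then a i else 0) < θ2 then -1 else 1)
  | sym (P : ℕ → Finset (Fin N)) (u : ℕ → (Fin N → Bool) → ℝ)
      (hP : ∀ i j, i ≠ j → Disjoint (P i) (P j)) (hd : ∀ i, Dp (P i) (u i)) (hu : ∀ i, UH w s C0 (u i))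
      (M : ℕ) (φ : ℕ → Bool) :
      UH w s C0 (fun x => if φ ((range M).filter (fun i => u i x = -1)).card then -1 else 1)
  | prog (P : ℕ → Finset (Fin N)) (u : ℕ → (Fin N → Bool) → ℝ)
      (hP : ∀ i j, i ≠ j → Disjoint (P i) (P j)) (hd : ∀ i, Dp (P i) (u i)) (hu : ∀ i, UH w s C0 (u i))
      (n : ℕ) (σ : ℕ → Fin w → Bool → Fin w) (v : ℕ → Fin w → ℕ) (x0 : Fin w) (o : Fin w → Bool)
      (hr : ReadOnce σ v n x0) :
      UH w s C0 (fun x => if o (run σ v x0 (fun i => decide (u i x = -1)) n) then -1 else 1)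

/-- **AC3** (the class RH). Uses: S_TGth, S_TGsy, S_TPrg, S_AGs, S_AHs, S_AHe. MODEL: AG/AC1.lean (two more cases).
her: S_AHe gives `Shp (23 + 4 C0) f` and `23 + 4 C0 ≤ K` (monotone in `K` as the case leaf). -/
def S_AC3 : Prop := ∀ (w : ℕ) (K0 K s C0 : ℝ), PG w K0 → K0 ≤ K → 30000 ≤ K → 25 / 2 + 7 / 2 * Real.log (1 + 3 * s) ≤ K → 0 ≤ C0 → 23 + 4 * C0 ≤ K →
  ∀ (N : ℕ) (f : (Fin N → Bool) → ℝ), RH w s C0 f → (∀ x, f x = 1 ∨ f x = -1) ∧ Shp K f

/-- **AF3** (final statement, entropy). Uses: S_GVar, S_GPg, S_AC3. MODEL: AG/AF1.lean (`23 + 4 C0 ≤ K`). -/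
def S_AF3 : Prop := ∃ C : ℝ, 0 < C ∧ ∀ w : ℕ, 1 ≤ w → ∀ s C0 : ℝ, 0 ≤ s → 0 ≤ C0 → ∀ (N : ℕ) (f : (Fin N → Bool) → ℝ), RH w s C0 f →
  ∑ S ∈ (univ : Finset (Finset (Fin N))).erase ∅, coeff f S ^ 2 * Real.logb 2 (1 / coeff f S ^ 2) ≤
    C * (w + Real.log (2 + s) + C0) * (influence f - (1 - coeff f ∅ ^ 2)) ∧
  specEntropy f ≤ C * (w + Real.log (2 + s) + C0) * influence f ∧
  ∃ S : Finset (Fin N), (2 : ℝ) ^ (-(C * (w + Real.log (2 + s) + C0) * influence f / 2)) ≤ |coeff f S|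

/-- **AC4** (the class UH). Uses: S_UTh, S_USy, S_UUa, S_UPr, S_ULv, S_AGm, S_AHm. MODEL: AG/AC2.lean (one more case). -/
def S_AC4 : Prop := ∀ (w : ℕ) (K0 K s C0 : ℝ), PG w K0 → K0 ≤ K → 30000 ≤ K → 25 / 2 + 7 / 2 * Real.log (1 + 3 * s) ≤ K →
  0 ≤ C0 → 13 * C0 ≤ K → ∀ (N : ℕ) (f : (Fin N → Bool) → ℝ), UH w s C0 f → (∀ x, f x = 1 ∨ f x = -1) ∧ Mq K f

/-- **AF4** (final statement, min-entropy). Uses: S_GVar, S_GPg, S_AC4, S_UMn. MODEL: AG/AF2.lean. -/
def S_AF4 : Prop := ∃ C : ℝ, 0 < C ∧ ∀ w : ℕ, 1 ≤ w → ∀ s C0 : ℝ, 0 ≤ s → 0 ≤ C0 → ∀ (N : ℕ) (f : (Fin N → Bool) → ℝ), UH w s C0 f →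
  (0 < 1 - coeff f ∅ ^ 2 → ∃ S : Finset (Fin N), S ≠ ∅ ∧ coeff f S ≠ 0 ∧
    (1 - coeff f ∅ ^ 2) * Real.log (1 / coeff f S ^ 2) ≤
      C * (w + Real.log (2 + s) + C0) * (influence f - (1 - coeff f ∅ ^ 2))) ∧
  ∃ S : Finset (Fin N), Real.exp (-(C * (w + Real.log (2 + s) + C0) * influence f)) ≤ |coeff f S|

end Pool.Agent.MP3145b1.AG
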