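import Pool.Agent.Lib.MP_3145b1_co.AG.Asm
import Pool.Agent.Lib.MP_3145b1_co.RK.Cls

/-!
# MP_3145b1_co, project AG: the composition theorems with one constant
-/

set_option autoImplicit false

namespace Pool.Agent.MP3145b1.AG

open Finset Pool.Agent.MP3145b1 Pool.Agent.MP3145b1.RC Pool.Agent.MP3145b1.RD Pool.Agent.MP3145b1.RT Pool.Agent.MP3145b1.UM Pool.Agent.MP3145b1.LD

theorem RH_pm {w : ℕ} {s c : ℝ} {N : ℕ} {f : (Fin N → Bool) → ℝ} (h : RH w s c f) :
    ∀ x, f x = 1 ∨ f x = -1 := by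
  induction h with
  | leaf f hv _ => exact hv
  | her f hv _ => exact hv
  | neg f _ ih =>
    intro x
    rcases ih x with h | h
    · right; show -f x = -1; rw [h]
    · left; show -f x = 1; rw [h]; norm_num
  | gen => intro x; dsimp only; split_ifs <;> simp
  | arb => intro x; dsimp only; split_ifs <;> simp
  | thr => intro x; dsimp only; split_ifs <;> simp
  | sym => intro x; dsimp only; split_ifs <;> simp
  | prog => intro x; dsimp only; split_ifs <;> simp

theorem UH_pm {w : ℕ} {s c : ℝ} {N : ℕ} {f : (Fin N → Bool) → ℝ} (h : UH w s c f) :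
    ∀ x, f x = 1 ∨ f x = -1 := by
  induction h with
  | leaf f hv _ => exact hv
  | neg f _ ih =>
    intro x
    rcases ih x with h | h
    · right; show -f x = -1; rw [h]
    · left; show -f x = 1; rw [h]; norm_num
  | una => intro x; dsimp only; split_ifs <;> simp
  | gen => intro x; dsimp only; split_ifs <;> simp
  | arb => intro x; dsimp only; split_ifs <;> simp
  | thr => intro x; dsimp only; split_ifs <;> simp
  | sym => intro x; dsimp only; split_ifs <;> simp
  | prog => intro x; dsimp only; split_ifs <;> simp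

/-- compositions of programs, threshold gates and symmetric gates are in the class -/
theorem RG_RH {w : ℕ} (s c : ℝ) {N : ℕ} {f : (Fin N → Bool) → ℝ} (h : RG w f) : RH w s c f := by
  induction h with
  | const b =>
    refine RH.leaf _ (fun x => ?_) (RK.Shp_const c N _ ?_)
    · cases b <;> simp
    · cases b <;> simp
  | var b => exact RH.leaf _ (by intro x; split_ifs <;> simp) (RK.Shp_var c N b)
  | neg f _ ih => exact RH.neg f ih
  | prog P u hP hd _ n σ v x0 o hr ih => exact RH.prog P u hP hd ih n σ v x0 o hr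
  | thr P u hP hd _ M a θ1 θ2 ih => exact RH.thr P u hP hd ih M a θ1 θ2
  | sym P u hP hd _ M φ ih => exact RH.sym P u hP hd ih M φ

theorem gap_nonneg {N : ℕ} {f : (Fin N → Bool) → ℝ} (hf : ∀ x, f x = 1 ∨ f x = -1) :
    0 ≤ influence f - (1 - coeff f ∅ ^ 2) := by
  have h1 : ∑ S : Finset (Fin N), coeff f S ^ 2 = 1 := by
    rw [Q.parseval]
    have : (fun x => f x ^ 2) = fun _ => (1 : ℝ) := by
      funext x
      rcases hf x with h | h <;> rw [h] <;> norm_num
    rw [this]
    exact Q.mean_const 1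
  have h2 : influence f = ∑ S : Finset (Fin N), (S.card : ℝ) * coeff f S ^ 2 := rfl
  rw [← Finset.add_sum_erase univ (fun S : Finset (Fin N) => coeff f S ^ 2) (mem_univ ∅)] at h1
  rw [← Finset.add_sum_erase univ (fun S : Finset (Fin N) => (S.card : ℝ) * coeff f S ^ 2) (mem_univ ∅)] at h2
  have h3 : ∑ S ∈ (univ : Finset (Finset (Fin N))).erase ∅, coeff f S ^ 2 ≤
      ∑ S ∈ (univ : Finset (Finset (Fin N))).erase ∅, (S.card : ℝ) * coeff f S ^ 2 := by
    refine Finset.sum_le_sum fun S hS => ?_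
    have h4 : 1 ≤ S.card := Finset.card_pos.2 (Finset.nonempty_iff_ne_empty.2 (Finset.ne_of_mem_erase hS))
    have h5 : (1 : ℝ) ≤ (S.card : ℝ) := by exact_mod_cast h4
    nlinarith [sq_nonneg (coeff f S)]
  simp only [Finset.card_empty, Nat.cast_zero, zero_mul, zero_add] at h2
  linarith

theorem inf_nonneg {N : ℕ} (f : (Fin N → Bool) → ℝ) : 0 ≤ influence f := by
  have h2 : influence f = ∑ S : Finset (Fin N), (S.card : ℝ) * coeff f S ^ 2 := rfl
  rw [h2]
  exact Finset.sum_nonneg fun S _ => mul_nonneg (Nat.cast_nonneg _) (sq_nonneg _)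

/-- the composition theorems for the entropy and for the min-entropy, halfspaces, decision trees of bounded rank -/
theorem main : ∃ C : ℝ, 0 < C ∧
    (∀ (N : ℕ) (a : Fin N → ℝ) (θ : ℝ), specEntropy (ltf a θ) ≤ C * influence (ltf a θ)) ∧
    (∀ (N : ℕ) (T : RK.Tree (Fin N)), specEntropy (fun x : Fin N → Bool => if T.eval x then -1 else 1) ≤
      C * (T.rank + 1) * influence (fun x : Fin N → Bool => if T.eval x then -1 else 1)) ∧
    ∀ w : ℕ, 1 ≤ w → ∀ s c : ℝ, 0 ≤ s → 0 ≤ c → ∀ (N : ℕ) (f : (Fin N → Bool) → ℝ),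
      (RH w s c f →
        ∑ S ∈ (univ : Finset (Finset (Fin N))).erase ∅, coeff f S ^ 2 * Real.logb 2 (1 / coeff f S ^ 2) ≤
          C * (w + Real.log (2 + s) + c) * (influence f - (1 - coeff f ∅ ^ 2)) ∧
        specEntropy f ≤ C * (w + Real.log (2 + s) + c) * influence f ∧
        ∃ S : Finset (Fin N), (2 : ℝ) ^ (-(C * (w + Real.log (2 + s) + c) * influence f / 2)) ≤ |coeff f S|) ∧
      (UH w s c f →
        (0 < 1 - coeff f ∅ ^ 2 → ∃ S : Finset (Fin N), S ≠ ∅ ∧ coeff f S ≠ 0 ∧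
          (1 - coeff f ∅ ^ 2) * Real.log (1 / coeff f S ^ 2) ≤
            C * (w + Real.log (2 + s) + c) * (influence f - (1 - coeff f ∅ ^ 2))) ∧
        ∃ S : Finset (Fin N), Real.exp (-(C * (w + Real.log (2 + s) + c) * influence f)) ≤ |coeff f S|) := by
  obtain ⟨C1, hC1, h1⟩ := fin3
  obtain ⟨C2, hC2, h2⟩ := fin4
  have hl2 : Real.log 2 ≤ 1 := by
    have := Real.log_two_lt_d9
    linarith
  have hl0 : 0 ≤ Real.log 2 := Real.log_nonneg (by norm_num)
  refine ⟨3 * C1 + C2, by linarith, fun N a θ => ?_, fun N T => ?_, fun w hw s c hs hc N f => ⟨fun hf => ?_, fun hf => ?_⟩⟩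
  · have h := (h1 1 le_rfl 0 0 le_rfl le_rfl N (ltf a θ) (RG_RH 0 0 (Ltf_mem 1 a θ))).2.1
    refine h.trans (mul_le_mul_of_nonneg_right ?_ (inf_nonneg _))
    push_cast
    rw [add_zero, add_zero]
    nlinarith
  · have h := (h1 (T.rank + 2) (by omega) 0 0 le_rfl le_rfl N _ (RK.RH_tree (T.rank + 2) 0 0 N T le_rfl)).2.1
    refine h.trans (mul_le_mul_of_nonneg_right ?_ (inf_nonneg _))
    push_cast
    rw [add_zero, add_zero]
    have hr : (0 : ℝ) ≤ (T.rank : ℝ) := Nat.cast_nonneg _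
    nlinarith [mul_nonneg hC1.le hr, mul_nonneg hC2.le hr]
  · have hX : 0 ≤ (w : ℝ) + Real.log (2 + s) + c := by
      have : 0 ≤ Real.log (2 + s) := Real.log_nonneg (by linarith)
      have hw' : (0 : ℝ) ≤ (w : ℝ) := Nat.cast_nonneg _
      linarith
    have hCX : C1 * (w + Real.log (2 + s) + c) ≤ (3 * C1 + C2) * (w + Real.log (2 + s) + c) :=
      mul_le_mul_of_nonneg_right (by linarith) hX
    obtain ⟨e1, e2, S, e3⟩ := h1 w hw s c hs hc N f hf
    refine ⟨e1.trans (mul_le_mul_of_nonneg_right hCX (gap_nonneg (RH_pm hf))),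
      e2.trans (mul_le_mul_of_nonneg_right hCX (inf_nonneg f)), S, le_trans ?_ e3⟩
    refine Real.rpow_le_rpow_of_exponent_le (by norm_num) ?_
    have := mul_le_mul_of_nonneg_right hCX (inf_nonneg f)
    linarith
  · have hX : 0 ≤ (w : ℝ) + Real.log (2 + s) + c := by
      have : 0 ≤ Real.log (2 + s) := Real.log_nonneg (by linarith)
      have hw' : (0 : ℝ) ≤ (w : ℝ) := Nat.cast_nonneg _
      linarith
    have hCX : C2 * (w + Real.log (2 + s) + c) ≤ (3 * C1 + C2) * (w + Real.log (2 + s) + c) :=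
      mul_le_mul_of_nonneg_right (by linarith) hX
    obtain ⟨e1, S, e3⟩ := h2 w hw s c hs hc N f hf
    refine ⟨fun hV => ?_, S, le_trans ?_ e3⟩
    · obtain ⟨S', a1, a2, a3⟩ := e1 hV
      exact ⟨S', a1, a2, a3.trans (mul_le_mul_of_nonneg_right hCX (gap_nonneg (UH_pm hf)))⟩
    · refine Real.exp_le_exp.2 ?_
      have := mul_le_mul_of_nonneg_right hCX (inf_nonneg f)
      linarith

/-- the sharp inequality from the plain one for all restrictions -/
theorem her_bits {N : ℕ} (f : (Fin N → Bool) → ℝ) (c : ℝ) (hc : 0 ≤ c) (hf : ∀ x, f x = 1 ∨ f x = -1) (h : Hq c f) :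
    ∑ S ∈ (univ : Finset (Finset (Fin N))).erase ∅, coeff f S ^ 2 * Real.logb 2 (1 / coeff f S ^ 2) ≤
      (34 + 6 * c) * (influence f - (1 - coeff f ∅ ^ 2)) := by
  have hlog : 0 < Real.log 2 := Real.log_pos one_lt_two
  have h1 := aHe N f c hc hf h
  unfold Shp at h1
  have e : ∀ t : ℝ, t ^ 2 * Real.logb 2 (1 / t ^ 2) = hh (t ^ 2) / Real.log 2 := by
    intro t
    unfold hh Real.negMulLog Real.logb
    rw [one_div, Real.log_inv]
    ring
  rw [Finset.sum_congr rfl (fun S _ => e (coeff f S)), ← Finset.sum_div, div_le_iff₀ hlog]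
  refine h1.trans ?_
  have h2 : 23 + 4 * c ≤ (34 + 6 * c) * Real.log 2 := by
    have := Real.log_two_gt_d9
    nlinarith
  have h3 := mul_le_mul_of_nonneg_right h2 (gap_nonneg hf)
  linarith

end Pool.Agent.MP3145b1.AG
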