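import Pool.Agent.Lib.MP_3145b1_co.UM.Spec2

/-!
# MP_3145b1_co, project AG (architect helper45): arbitrary gates with the constant `O(log s)`

THEOREM. There is an absolute constant `C`: (1) every `f` in `RA w s C0` (read-once compositions, over arbitrary leaves with the sharp entropy
inequality with the constant `C0`, of branching programs of width `w`, threshold gates, symmetric gates and ARBITRARY gates (any Boolean function of any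
number of inputs) whose inputs have total variance at most `s`) satisfies `Ent(f) - h(f^(∅)^2) ≤ C (w + log (2 + s) + C0) (I(f) - Var f)`. (2) the same for the
min-entropy inequality, with arbitrary unate gates in addition (`UA w s C0`, leaves: the plain min-entropy inequality).

RULES. Module X: file Pool/Agent/Lib/MP_3145b1_co/AG/X.lean, `import Pool.Agent.Lib.MP_3145b1_co.AG.Spec`,
`set_option autoImplicit false`, `namespace Pool.Agent.MP3145b1.AG`,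
`open Finset Pool.Agent.MP3145b1 Pool.Agent.MP3145b1.RC Pool.Agent.MP3145b1.RD Pool.Agent.MP3145b1.RT Pool.Agent.MP3145b1.UM`, final theorem
`theorem rX (h1 : S_A) ... : S_X` (the statements under Uses, in this order, are the hypotheses; `S_GTw` is in RD/Spec.lean, `S_T..` in RT/Spec.lean, `S_U..` in UM/Spec.lean,
UM/Spec2.lean). Auxiliary lemmas private, names X_. READ FIRST: RT/Def.lean (Av, Co, hA, gA and the lemmas Co_insert_not, Co_insert_mem, Co_gA, Co_hA), `wt_insert`, `wt_nonneg` in RC/Def.lean, and the MODEL RT/TTel.lean.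
Notation in the proofs: `v = p i (1 - p i)`, `c0 T = Co a p J T F z`, `c1 T = Co a p J T F (z + a i)`, `U T = p c0 + (1-p) c1 = Co a p (insert i J) T F z`, `Om T = (c0 - c1)/2 = Co a p (insert i J) (insert i T) F z = Co a p J T (hA (a i) F) z` (`T ⊆ J`, `i ∉ J`),
`X = ∑_{T ∈ J.powerset.erase ∅} wt T (Om T)^2`.
-/

set_option autoImplicit false

namespace Pool.Agent.MP3145b1.AG

open Finset Pool.Agent.MP3145b1 Pool.Agent.MP3145b1.RC Pool.Agent.MP3145b1.RD Pool.Agent.MP3145b1.RT Pool.Agent.MP3145b1.UM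

/-- entropy of the nonempty levels -/
noncomputable def Hs (a p : ℕ → ℝ) (J : Finset ℕ) (F : ℝ → ℝ) (z : ℝ) : ℝ :=
  ∑ T ∈ J.powerset.erase ∅, wt p T * hh (Co a p J T F z ^ 2)

/-- total influence minus variance -/
noncomputable def Dd (a p : ℕ → ℝ) (J : Finset ℕ) (F : ℝ → ℝ) (z : ℝ) : ℝ :=
  ∑ T ∈ J.powerset.erase ∅, ((T.card : ℝ) - 1) * (wt p T * Co a p J T F z ^ 2)

/-- total variance (divided by `4`) of the bits of `B` -/
noncomputable def sg (p : ℕ → ℝ) (B : Finset ℕ) : ℝ := ∑ i ∈ B, p i * (1 - p i)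

/-- the weights multiplied by the variances of the bits outside of `T` -/
noncomputable def Ps (a p : ℕ → ℝ) (J : Finset ℕ) (F : ℝ → ℝ) (z : ℝ) : ℝ :=
  ∑ T ∈ J.powerset.erase ∅, sg p (J \ T) * (wt p T * Co a p J T F z ^ 2)

/-! ## Part 1: arbitrary gates -/

/-- **ATl** (linearised two-point inequality). Uses: S_GTw.
Proof. `U = p a + (1-p) b`, `δ = a - b`, `L = log (1 + Λ) ≥ 0`. S_GTw: `dlp ≤ 7 v δ^2 (1 + lg |U| δ)`, `lg |U| δ = max 0 (log (|U|/|δ|))`. Claim `δ^2 lg |U| δ ≤ δ^2 L/2 + U^2/(2 (1+Λ))`: `δ = 0` or `lg = 0` or `U = 0`: clear (the right side is `≥ 0`). Otherwise `y = U^2/δ^2 > 0`,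
`log (|U|/|δ|) = (1/2) log y = L/2 + (1/2) log (y/(1+Λ)) ≤ L/2 + (1/2) y/(1+Λ)` (`log x ≤ x - 1 ≤ x`). -/
def S_ATl : Prop := ∀ (p a b Λ : ℝ), 0 ≤ p → p ≤ 1 → 0 ≤ Λ →
  dlp p a b ≤ 7 * (p * (1 - p)) * ((a - b) ^ 2 * (1 + Real.log (1 + Λ) / 2) + (p * a + (1 - p) * b) ^ 2 / (2 * (1 + Λ)))

/-- **ARc** (one more variable). Uses: S_TPar. MODEL: RT/TTel.lean (the same expansions; copy its lemmas TTel_hh, TTel_abs).
Proof. (1) `Hs (insert i J) = ∑_{T ⊆ J, T ≠ ∅} wt hh (U^2) + ∑_{T ⊆ J} 4 v wt hh (Om^2) = ∑_{T ⊆ J, T ≠ ∅} wt (hh (U^2) + 4 v hh (Om^2)) + 4 v hh (Om_∅^2)` (the nonempty subsets of `insert i J` are the nonempty `T ⊆ J` and the `insert i T`, `T ⊆ J`: Finset.sum_powerset_insert for the function which is `0` at `∅`, or `∑_{erase ∅} = ∑ - (term of ∅)`), and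
`hh (U^2) + 4 v hh (Om^2) = dlp p c0 c1 + p hh (c0^2) + (1-p) hh (c1^2)` (definition of dlp in RC/Def.lean). `hh (Om_∅^2) ≤ 2 (|Om_∅| - Om_∅^2) ≤ 2 X` (TTel_hh; `|Om_∅| ≤ ∑_{T ⊆ J} wt Om^2 = Om_∅^2 + X` by S_TPar (1) with `B = ∅` and TTel_abs). So the last term is `≤ 8 v X`.
(2) `Dd = ∑_T |T| wt c^2 - ∑_{T ≠ ∅} wt c^2`; `wt U^2 + 4 v wt Om^2 = wt (p c0^2 + (1-p) c1^2)`, `|insert i T| = |T| + 1`. -/
def S_ARc : Prop := ∀ (a p : ℕ → ℝ) (J : Finset ℕ) (i : ℕ) (F : ℝ → ℝ) (z : ℝ), i ∉ J → (∀ i, 0 ≤ p i ∧ p i ≤ 1) →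
  (∀ y, F y = 1 ∨ F y = -1) →
  (Hs a p (insert i J) F z ≤ p i * Hs a p J F z + (1 - p i) * Hs a p J F (z + a i) +
    ∑ T ∈ J.powerset.erase ∅, wt p T * dlp (p i) (Co a p J T F z) (Co a p J T F (z + a i)) +
    8 * (p i * (1 - p i)) * ∑ T ∈ J.powerset.erase ∅, wt p T * Co a p J T (hA (a i) F) z ^ 2) ∧
  (Dd a p (insert i J) F z = p i * Dd a p J F z + (1 - p i) * Dd a p J F (z + a i) +
    4 * (p i * (1 - p i)) * ∑ T ∈ J.powerset.erase ∅, wt p T * Co a p J T (hA (a i) F) z ^ 2)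

/-- **ADc** (the potential `Ps`). Uses: nothing.
Proof. For `T ⊆ J`: `sg (J \ T)` is the factor in `Ps J`, and in `Ps (insert i J)`: `sg (insert i J \ T) = sg (J \ T) + v` (`i ∉ T`), `sg (insert i J \ insert i T) = sg (J \ T)`. So `Ps (insert i J) = ∑_{T ⊆ J, T ≠ ∅} (sg (J \ T) + v) wt U^2 + ∑_{T ⊆ J} sg (J \ T) 4 v wt Om^2` and the left side is
`∑_{T ⊆ J, T ≠ ∅} (sg (J \ T) wt (U^2 + 4 v Om^2) + v wt U^2)`; the difference is the term `sg J * 4 v Om_∅^2 ≥ 0`. (`p c0^2 + (1-p) c1^2 = U^2 + 4 v Om^2`.) -/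
def S_ADc : Prop := ∀ (a p : ℕ → ℝ) (J : Finset ℕ) (i : ℕ) (F : ℝ → ℝ) (z : ℝ), i ∉ J → (∀ i, 0 ≤ p i ∧ p i ≤ 1) →
  p i * Ps a p J F z + (1 - p i) * Ps a p J F (z + a i) +
    p i * (1 - p i) * ∑ T ∈ J.powerset.erase ∅, wt p T * Co a p J T (gA (p i) (a i) F) z ^ 2 ≤ Ps a p (insert i J) F z

/-- **AAv** (first bound). Uses: S_ATl, S_ARc, S_ADc.
Proof. Finset.induction_on `J`, for all `z`. `J = ∅`: empty sums. `insert i J`: S_ARc (1); S_ATl with `a = c0 T`, `b = c1 T` (`a - b = 2 Om`, `p a + (1-p) b = U T = Co a p J T (gA (p i) (a i) F) z`): `∑ wt dlp ≤ 28 v (1 + L/2) X + (7 v/(2 (1+Λ))) ∑_{T ≠ ∅} wt U^2`. With `A = 9 + 7/2 L`, `B = 7/(2 (1+Λ))`: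
`28 v (1 + L/2) X + 8 v X = A * (4 v X)`; induction for `z` and `z + a i`, S_ARc (2), S_ADc times `B`. -/
def S_AAv : Prop := ∀ (a p : ℕ → ℝ) (J : Finset ℕ) (F : ℝ → ℝ) (z Λ : ℝ), (∀ i, 0 ≤ p i ∧ p i ≤ 1) →
  (∀ y, F y = 1 ∨ F y = -1) → 0 ≤ Λ →
  Hs a p J F z ≤ (9 + 7 / 2 * Real.log (1 + Λ)) * Dd a p J F z + 7 / (2 * (1 + Λ)) * Ps a p J F z

/-- **AFk** (all pivotal probabilities at most `1/2`). Uses: S_TPar.
Proof. `c T = Co a p J T F z`, `x T = wt T * c T^2 ≥ 0`. For `i ∈ J`, `J' = J.erase i`: `c {i} = Co J' ∅ (hA (a i) F) z = Av J' (hA (a i) F) z`, `|c {i}| ≤ Av J' ((hA (a i) F)^2) z = QQ a p J F z i =: Q_i` (TTel_abs in RT/TTel.lean, S_TPar (1), Co_insert_mem, Co_hA). So `c {i}^2 ≤ Q_i^2 ≤ Q_i/2`, hence `c {i}^2 ≤ Q_i - c {i}^2 = X_i := ∑_{T ⊆ J', T ≠ ∅} wt T * c (insert i T)^2`.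
`∑_{i ∈ J} 4 v_i X_i = ∑_{|T| ≥ 2} |T| x T` (exchange the sums; `x (insert i T) = 4 v_i wt T c (insert i T)^2`) `≤ 2 ∑_{T ≠ ∅} (|T| - 1) x T = 2 Dd` (`k ≤ 2 (k-1)` for `k ≥ 2`). So `∑_{T ≠ ∅} x T = ∑_i x {i} + ∑_{|T| ≥ 2} x T ≤ ∑_i 4 v_i X_i + Dd ≤ 3 Dd`.
(Possible order: for every `i ∈ J`: `2 x {i} ≤ ∑_{T ∋ i} x T`; sum over `i`: `2 ∑_i x {i} ≤ ∑_T |T| x T = Dd + ∑_{T ≠ ∅} x T`, and `∑_{T ≠ ∅} x T ≤ ∑_i x {i} + Dd`, so `2 V ≤ 2 ∑_i x {i} + 2 Dd ≤ Dd + V + 2 Dd`.) -/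
def S_AFk : Prop := ∀ (a p : ℕ → ℝ) (J : Finset ℕ) (F : ℝ → ℝ) (z : ℝ), (∀ i, 0 ≤ p i ∧ p i ≤ 1) →
  (∀ y, F y = 1 ∨ F y = -1) → (∀ i ∈ J, QQ a p J F z i ≤ 1 / 2) →
  ∑ T ∈ J.powerset.erase ∅, wt p T * Co a p J T F z ^ 2 ≤ 3 * Dd a p J F z

/-- **ANd** (a large pivotal probability). Uses: S_TPar, S_TBig, S_ATl.
Proof. S_ATl with `Λ = 0` (`log 1 = 0`): `dlp ≤ 7 v (4 Om^2 + U^2/2)`, so `∑_{T ≠ ∅} wt dlp ≤ 28 v X + (7/2) v ∑_{T ≠ ∅} wt U^2`, `U T = Co a p J T (gA (p i) (a i) F) z` (Co_gA), `∑_{T ≠ ∅} wt U^2 = Av (g^2) - (Av g)^2 ≤ 16 (Av (h^2) - (Av h)^2) = 16 X` (S_TPar (4) twice, S_TBig with `A = a i`, `q = p i`). `28 + 56 = 84`. -/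
def S_ANd : Prop := ∀ (a p : ℕ → ℝ) (J : Finset ℕ) (i : ℕ) (F : ℝ → ℝ) (z : ℝ), (∀ i, 0 ≤ p i ∧ p i ≤ 1) →
  (∀ y, F y = 1 ∨ F y = -1) → 1 / 2 < Av a p J (fun y => hA (a i) F y ^ 2) z →
  ∑ T ∈ J.powerset.erase ∅, wt p T * dlp (p i) (Co a p J T F z) (Co a p J T F (z + a i)) ≤
    84 * (p i * (1 - p i)) * ∑ T ∈ J.powerset.erase ∅, wt p T * Co a p J T (hA (a i) F) z ^ 2

/-- **AMn** (THE THEOREM for one gate). Uses: S_TPar, S_ARc, S_AAv, S_AFk, S_ANd.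
Proof. Strong induction on `J.card` (Finset.strongInduction), for all `z`. Case 1: `QQ a p J F z i ≤ 1/2` for all `i ∈ J`. `S = sg p J ≥ 0`, `Λ = 3 S`; `sg (J \ T) ≤ S`, so `Ps ≤ S * V ≤ 3 S * Dd` (S_AFk). S_AAv: `Hs ≤ (9 + 7/2 log (1 + 3 S) + 7 * 3 S/(2 (1 + 3 S))) Dd ≤ (25/2 + 7/2 log (1 + 3 S)) Dd ≤ K Dd` (`Dd ≥ 0`).
Case 2: `i ∈ J` with `QQ > 1/2`; `J = insert i J'`, `J' = J.erase i`; `QQ a p J F z i = ∑_{T ⊆ J'} wt T * Co a p J' T (hA (a i) F) z ^2 = Av J' ((hA (a i) F)^2) z` (Co_insert_mem, Co_hA, S_TPar (1) with `B = ∅`). S_ARc (1), S_ANd: `Hs (J) ≤ p Hs(J')(z) + (1-p) Hs(J')(z + a i) + (84 + 8) v X`; induction for `J'` (`sg J' ≤ sg J`, log monotone) with the same `K`,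
S_ARc (2), `92 v X ≤ K * 4 v X`. -/
def S_AMn : Prop := ∀ (a p : ℕ → ℝ) (J : Finset ℕ) (F : ℝ → ℝ) (z K : ℝ), (∀ i, 0 ≤ p i ∧ p i ≤ 1) →
  (∀ y, F y = 1 ∨ F y = -1) → 23 ≤ K → 25 / 2 + 7 / 2 * Real.log (1 + 3 * sg p J) ≤ K →
  Hs a p J F z ≤ K * Dd a p J F z

/-- **AGt** (the gate inequality in the form of RT/UM). Uses: S_TPar, S_AMn.
Proof. `∑_T wt c^2 = Av (F^2) = 1` (S_TPar (1) with `B = ∅`, `F^2 = 1`, Av_const), `wt p ∅ = 1`: `∑_T |T| wt c^2 - (1 - c_∅^2) = ∑_{T ≠ ∅} (|T| - 1) wt c^2 = Dd`, and `∑_T wt hh (c^2) = hh (c_∅^2) + Hs`. -/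
def S_AGt : Prop := ∀ (a p : ℕ → ℝ) (J : Finset ℕ) (F : ℝ → ℝ) (z K : ℝ), (∀ i, 0 ≤ p i ∧ p i ≤ 1) →
  (∀ y, F y = 1 ∨ F y = -1) → 23 ≤ K → 25 / 2 + 7 / 2 * Real.log (1 + 3 * sg p J) ≤ K →
  ∑ T ∈ J.powerset, wt p T * hh (Co a p J T F z ^ 2) ≤ hh (Co a p J ∅ F z ^ 2) +
    K * (∑ T ∈ J.powerset, (T.card : ℝ) * (wt p T * Co a p J T F z ^ 2) - (1 - Co a p J ∅ F z ^ 2))

/-! ## Part 2: compositions -/

/-- **AGs** (arbitrary gates, entropy). Uses: S_Vsm, S_TCfo, S_TCmp, S_AGt. MODEL: UM/UUa.lean (binary encoding `a i = 2^i`, `F y = if φ (⌊y⌋₊.bitIndices.toFinset) then -1 else 1`, `z = 0`) and RT/TGsy.lean.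
Proof. `p = pb u` (in `[0, 1]`: S_Vsm), `pb u i = (1 + coeff (u i) ∅)/2`, so `p i (1 - p i) = (1 - coeff (u i) ∅^2)/4` and `sg p (range M) ≤ s/4 ≤ s`; S_AGt with `J = range M` and `K` (log monotone); S_TCmp with `c T = Co a (pb u) (range M) T F 0` (S_TCfo). -/
def S_AGs : Prop := ∀ (K s : ℝ) (N M : ℕ) (P : ℕ → Finset (Fin N)) (u : ℕ → (Fin N → Bool) → ℝ) (φ : Finset ℕ → Bool),
  23 ≤ K → 25 / 2 + 7 / 2 * Real.log (1 + 3 * s) ≤ K → ∑ i ∈ range M, (1 - coeff (u i) ∅ ^ 2) ≤ s → Cp P u → (∀ i, Shp K (u i)) →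
  Shp K (fun x => if φ ((range M).filter (fun i => u i x = -1)) then (-1 : ℝ) else 1)

/-- **AGm** (arbitrary gates, min-entropy). Uses: S_Vsm, S_TCfo, S_UPv, S_UGE, S_UCm, S_AGt. MODEL: UM/UUa.lean, UM/USy.lean.
Proof. As S_AGs: `c T = Co a (pb u) (range M) T F 0`, GM by S_UGE (its inequality is S_AGt, its sum S_UPv), S_UCm. -/
def S_AGm : Prop := ∀ (K s : ℝ) (N M : ℕ) (P : ℕ → Finset (Fin N)) (u : ℕ → (Fin N → Bool) → ℝ) (φ : Finset ℕ → Bool),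
  23 ≤ K → 25 / 2 + 7 / 2 * Real.log (1 + 3 * s) ≤ K → ∑ i ∈ range M, (1 - coeff (u i) ∅ ^ 2) ≤ s → Cp P u → (∀ i, Mq K (u i)) →
  Mq K (fun x => if φ ((range M).filter (fun i => u i x = -1)) then (-1 : ℝ) else 1)

/-- **Read-once compositions for the entropy**: the smallest class of functions `(Fin N → Bool) → {1, -1}` which contains
(leaf) every function `f` with values `1`, `-1` and `Ent(f) - h(f^(∅)^2) ≤ C0 (I(f) - Var f)` (natural logarithm; the constants and the variables among them), with `f`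
also `-f`, and with functions `u i` (`i : ℕ`) of pairwise disjoint sets `P i` of variables also
(arb) EVERY function of the `u i`, `i < M`, if the sum of the variances of these `u i` is at most `s`;
(thr) the function which is `-1` iff the sum of the real weights `a i` over the `i < M` with `u i x = -1` is in `[θ1, θ2)`;
(sym) every function of the number of the `i < M` with `u i x = -1`;
(prog) every function computed by a read-once branching program with `w` states per level whose nodes read the values of the `u i`. -/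
inductive RA (w : ℕ) (s C0 : ℝ) {N : ℕ} : ((Fin N → Bool) → ℝ) → Prop
  | leaf (f : (Fin N → Bool) → ℝ) (hv : ∀ x, f x = 1 ∨ f x = -1) (hf : Shp C0 f) : RA w s C0 f
  | neg (f : (Fin N → Bool) → ℝ) (hf : RA w s C0 f) : RA w s C0 (fun x => - f x)
  | arb (P : ℕ → Finset (Fin N)) (u : ℕ → (Fin N → Bool) → ℝ)
      (hP : ∀ i j, i ≠ j → Disjoint (P i) (P j)) (hd : ∀ i, Dp (P i) (u i)) (hu : ∀ i, RA w s C0 (u i))
      (M : ℕ) (hs : ∑ i ∈ range M, (1 - coeff (u i) ∅ ^ 2) ≤ s) (φ : Finset ℕ → Bool) :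
      RA w s C0 (fun x => if φ ((range M).filter (fun i => u i x = -1)) then -1 else 1)
  | thr (P : ℕ → Finset (Fin N)) (u : ℕ → (Fin N → Bool) → ℝ)
      (hP : ∀ i j, i ≠ j → Disjoint (P i) (P j)) (hd : ∀ i, Dp (P i) (u i)) (hu : ∀ i, RA w s C0 (u i))
      (M : ℕ) (a : ℕ → ℝ) (θ1 θ2 : ℝ) :
      RA w s C0 (fun x => if θ1 ≤ ∑ i ∈ range M, (if u i x = -1 then a i else 0) ∧
        ∑ i ∈ range M, (if u i x = -1 then a i else 0) < θ2 then -1 else 1)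
  | sym (P : ℕ → Finset (Fin N)) (u : ℕ → (Fin N → Bool) → ℝ)
      (hP : ∀ i j, i ≠ j → Disjoint (P i) (P j)) (hd : ∀ i, Dp (P i) (u i)) (hu : ∀ i, RA w s C0 (u i))
      (M : ℕ) (φ : ℕ → Bool) :
      RA w s C0 (fun x => if φ ((range M).filter (fun i => u i x = -1)).card then -1 else 1)
  | prog (P : ℕ → Finset (Fin N)) (u : ℕ → (Fin N → Bool) → ℝ)
      (hP : ∀ i j, i ≠ j → Disjoint (P i) (P j)) (hd : ∀ i, Dp (P i) (u i)) (hu : ∀ i, RA w s C0 (u i))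
      (n : ℕ) (σ : ℕ → Fin w → Bool → Fin w) (v : ℕ → Fin w → ℕ) (x0 : Fin w) (o : Fin w → Bool)
      (hr : ReadOnce σ v n x0) :
      RA w s C0 (fun x => if o (run σ v x0 (fun i => decide (u i x = -1)) n) then -1 else 1)

/-- **Read-once compositions for the min-entropy**: the smallest class of functions `(Fin N → Bool) → {1, -1}` which contains
(leaf) every function `f` with values `1`, `-1` and `Pm C0 f` (the constants and the variables among them), with `f`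
also `-f`, and with functions `u i` (`i : ℕ`) of pairwise disjoint sets `P i` of variables also
(una) every unate function of the `u i`, `i < M`; (arb) EVERY function of the `u i`, `i < M`, if the sum of the variances of these `u i` is at most `s`;
(thr), (sym), (prog) as in `RA`. -/
inductive UA (w : ℕ) (s C0 : ℝ) {N : ℕ} : ((Fin N → Bool) → ℝ) → Prop
  | leaf (f : (Fin N → Bool) → ℝ) (hv : ∀ x, f x = 1 ∨ f x = -1) (hf : Pm C0 f) : UA w s C0 f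
  | neg (f : (Fin N → Bool) → ℝ) (hf : UA w s C0 f) : UA w s C0 (fun x => - f x)
  | una (P : ℕ → Finset (Fin N)) (u : ℕ → (Fin N → Bool) → ℝ)
      (hP : ∀ i j, i ≠ j → Disjoint (P i) (P j)) (hd : ∀ i, Dp (P i) (u i)) (hu : ∀ i, UA w s C0 (u i))
      (M : ℕ) (φ : Finset ℕ → Bool)
      (hφ : ∀ i, i < M → (∀ U, U ⊆ range M → i ∉ U → φ U = true → φ (insert i U) = true) ∨
        (∀ U, U ⊆ range M → i ∉ U → φ (insert i U) = true → φ U = true)) :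
      UA w s C0 (fun x => if φ ((range M).filter (fun i => u i x = -1)) then -1 else 1)
  | arb (P : ℕ → Finset (Fin N)) (u : ℕ → (Fin N → Bool) → ℝ)
      (hP : ∀ i j, i ≠ j → Disjoint (P i) (P j)) (hd : ∀ i, Dp (P i) (u i)) (hu : ∀ i, UA w s C0 (u i))
      (M : ℕ) (hs : ∑ i ∈ range M, (1 - coeff (u i) ∅ ^ 2) ≤ s) (φ : Finset ℕ → Bool) :
      UA w s C0 (fun x => if φ ((range M).filter (fun i => u i x = -1)) then -1 else 1)
  | thr (P : ℕ → Finset (Fin N)) (u : ℕ → (Fin N → Bool) → ℝ)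
      (hP : ∀ i j, i ≠ j → Disjoint (P i) (P j)) (hd : ∀ i, Dp (P i) (u i)) (hu : ∀ i, UA w s C0 (u i))
      (M : ℕ) (a : ℕ → ℝ) (θ1 θ2 : ℝ) :
      UA w s C0 (fun x => if θ1 ≤ ∑ i ∈ range M, (if u i x = -1 then a i else 0) ∧
        ∑ i ∈ range M, (if u i x = -1 then a i else 0) < θ2 then -1 else 1)
  | sym (P : ℕ → Finset (Fin N)) (u : ℕ → (Fin N → Bool) → ℝ)
      (hP : ∀ i j, i ≠ j → Disjoint (P i) (P j)) (hd : ∀ i, Dp (P i) (u i)) (hu : ∀ i, UA w s C0 (u i))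
      (M : ℕ) (φ : ℕ → Bool) :
      UA w s C0 (fun x => if φ ((range M).filter (fun i => u i x = -1)).card then -1 else 1)
  | prog (P : ℕ → Finset (Fin N)) (u : ℕ → (Fin N → Bool) → ℝ)
      (hP : ∀ i j, i ≠ j → Disjoint (P i) (P j)) (hd : ∀ i, Dp (P i) (u i)) (hu : ∀ i, UA w s C0 (u i))
      (n : ℕ) (σ : ℕ → Fin w → Bool → Fin w) (v : ℕ → Fin w → ℕ) (x0 : Fin w) (o : Fin w → Bool)
      (hr : ReadOnce σ v n x0) :
      UA w s C0 (fun x => if o (run σ v x0 (fun i => decide (u i x = -1)) n) then -1 else 1)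

/-- **AC1** (the class RA). Uses: S_TGth, S_TGsy, S_TPrg, S_AGs. MODEL: RT/TFin.lean (its induction over the class).
Proof. Induction on `RA w s C0 f`. leaf: `Shp C0 f` and `C0 ≤ K`, `influence f - (1 - coeff f ∅^2) ≥ 0` (Parseval: `1 - coeff f ∅^2 = ∑_{S ≠ ∅} coeff^2 ≤ ∑ |S| coeff^2`; as in UM/UMn.lean). neg: `coeff (-f) S = - coeff f S`. The others: S_AGs, S_TGth, S_TGsy, S_TPrg. -/
def S_AC1 : Prop := ∀ (w : ℕ) (K0 K s C0 : ℝ), PG w K0 → K0 ≤ K → 30000 ≤ K → 25 / 2 + 7 / 2 * Real.log (1 + 3 * s) ≤ K → C0 ≤ K →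
  ∀ (N : ℕ) (f : (Fin N → Bool) → ℝ), RA w s C0 f → (∀ x, f x = 1 ∨ f x = -1) ∧ Shp K f

/-- **AF1** (final statement, entropy). Uses: S_GVar, S_GPg, S_AC1. MODEL: RT/TFin.lean, RD/GFn.lean.
Proof. `K = 4706 * 7000000 * (w + log (2 + s) + C0) ≥ 4706 * (7000000 * w) =: K0` (`log (2 + s) ≥ 0`), `PG w K0`, `K ≥ 30000`, `K ≥ C0`; `25/2 + 7/2 log (1 + 3 s) ≤ K`: `1 + 3 s ≤ 4 (2 + s)`, `log 4 ≤ 3`, `25/2 + 7/2 (3 + log (2 + s)) ≤ 23 + 7/2 log (2 + s) ≤ K` (`w ≥ 1`).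
Then as in RT/TFin.lean (`C = 4706 * 7000000 / log 2`). -/
def S_AF1 : Prop := ∃ C : ℝ, 0 < C ∧ ∀ w : ℕ, 1 ≤ w → ∀ s C0 : ℝ, 0 ≤ s → 0 ≤ C0 → ∀ (N : ℕ) (f : (Fin N → Bool) → ℝ), RA w s C0 f →
  ∑ S ∈ (univ : Finset (Finset (Fin N))).erase ∅, coeff f S ^ 2 * Real.logb 2 (1 / coeff f S ^ 2) ≤
    C * (w + Real.log (2 + s) + C0) * (influence f - (1 - coeff f ∅ ^ 2)) ∧
  specEntropy f ≤ C * (w + Real.log (2 + s) + C0) * influence f ∧
  ∃ S : Finset (Fin N), (2 : ℝ) ^ (-(C * (w + Real.log (2 + s) + C0) * influence f / 2)) ≤ |coeff f S|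

/-- **AC2** (the class UA). Uses: S_UTh, S_USy, S_UUa, S_UPr, S_ULv, S_AGm. MODEL: UM/UC2.lean (one more case). -/
def S_AC2 : Prop := ∀ (w : ℕ) (K0 K s C0 : ℝ), PG w K0 → K0 ≤ K → 30000 ≤ K → 25 / 2 + 7 / 2 * Real.log (1 + 3 * s) ≤ K →
  0 ≤ C0 → 13 * C0 ≤ K → ∀ (N : ℕ) (f : (Fin N → Bool) → ℝ), UA w s C0 f → (∀ x, f x = 1 ∨ f x = -1) ∧ Mq K f

/-- **AF2** (final statement, min-entropy). Uses: S_GVar, S_GPg, S_AC2, S_UMn. MODEL: UM/UF2.lean.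
Proof. `C = 4706 * 7000000`, `K = C * (w + log (2 + s) + C0)` as in S_AF1. -/
def S_AF2 : Prop := ∃ C : ℝ, 0 < C ∧ ∀ w : ℕ, 1 ≤ w → ∀ s C0 : ℝ, 0 ≤ s → 0 ≤ C0 → ∀ (N : ℕ) (f : (Fin N → Bool) → ℝ), UA w s C0 f →
  (0 < 1 - coeff f ∅ ^ 2 → ∃ S : Finset (Fin N), S ≠ ∅ ∧ coeff f S ≠ 0 ∧
    (1 - coeff f ∅ ^ 2) * Real.log (1 / coeff f S ^ 2) ≤
      C * (w + Real.log (2 + s) + C0) * (influence f - (1 - coeff f ∅ ^ 2))) ∧
  ∃ S : Finset (Fin N), Real.exp (-(C * (w + Real.log (2 + s) + C0) * influence f)) ≤ |coeff f S|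

end Pool.Agent.MP3145b1.AG
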