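import Pool.Agent.Lib.MP_3145b1_co.AG.Spec2
import Pool.Agent.Lib.MP_3145b1_co.Q.Main

/-!
# MP_3145b1_co, project AG, part 3 (architect helper45): Boolean functions of degree `k` as leaves

THEOREM. Every Boolean function of degree `≤ k` (as a real polynomial) satisfies, with all its restrictions, `Ent ≤ 3 (2 + log_2 k) I`, so (S_AHe)
`Ent(f) - h(f^(∅)^2) ≤ C log (k + 1) (I(f) - Var f)`.

RULES: as in AG/Spec2.lean (import Pool.Agent.Lib.MP_3145b1_co.AG.Spec3).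
-/

set_option autoImplicit false

namespace Pool.Agent.MP3145b1.AG

open Finset Pool.Agent.MP3145b1 Pool.Agent.MP3145b1.RC Pool.Agent.MP3145b1.RD Pool.Agent.MP3145b1.RT Pool.Agent.MP3145b1.UM Pool.Agent.MP3145b1.LD

/-- **AKi** (the number `Kill`). Uses: nothing. (Q/Main.lean: Kill, flp, mean_flp, flp_flp; Q/Avg.lean: coeff_mean, parseval, mean_mono, mean_sum, sgn_upd_in, sgn_upd_out; LD/PQf.lean for the coefficients of `x ↦ f (flp i x)`.)
Proof. Fix `i`, `g x = (f x - f (Q.flp i x))/2 ∈ {0, 1, -1}`; `coeff g S = coeff f S` if `i ∈ S`, otherwise `0` (`sgn (flp i x) S = - sgn x S` if `i ∈ S`, `= sgn x S` otherwise; `x ↦ flp i x` is a bijection). For `v ≠ i`: `i` is pivotal at `x` and not pivotal at `flp v x` iff `g x ≠ 0` and `g (flp v x) = 0`. Let `E x` be the indicator of this;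
`E x + E (flp v x) ≤ (g x - g (flp v x))^2`, so `mean E ≤ (1/2) mean ((g x - g (flp v x))^2) = (1/2) * 4 * ∑_{S ∋ v} coeff g S^2 = 2 ∑_{S ∋ i, v} coeff f S^2` (mean_flp; the function `g x - g (flp v x)` has the coefficients `2 coeff g S` for `v ∈ S`, `0` otherwise; parseval). Sum over `v ≠ i`: `Kill f univ i ≤ 2 ∑_{S ∋ i} (|S| - 1) coeff f S^2`
(card of a filter = sum of indicators). Sum over `i`: `≤ 2 ∑_S |S| (|S| - 1) coeff f S^2 ≤ 2 (k - 1) ∑_S |S| coeff f S^2 = 2 (k - 1) influence f` (only the `S` with `|S| ≤ k` count; `|S| = 0` gives `0`). -/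
def S_AKi : Prop := ∀ (N k : ℕ) (f : (Fin N → Bool) → ℝ), 1 ≤ k → (∀ x, f x = 1 ∨ f x = -1) →
  (∀ S : Finset (Fin N), k < S.card → coeff f S = 0) → ∑ i, Q.Kill f univ i ≤ 2 * ((k : ℝ) - 1) * influence f

/-- **ADk** (the inequality of Kelman, Kindler, Lifshitz, Minzer and Safra for functions of degree `k`). Uses: S_AKi.
Proof. Q.global: `specEntropy f ≤ 2/log 2 * (1 + logb 2 (max 1 (meanKill f))) * influence f`, `meanKill f = (∑ Kill)/influence ≤ 2 (k - 1) ≤ 2 k` (if `influence f = 0` it is `0`), so `max 1 .. ≤ 2 k` and `logb 2 (2 k) = 1 + logb 2 k`; `2/log 2 ≤ 3` (`log 2 ≥ 0.6931471803`); `influence f ≥ 0`. -/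
def S_ADk : Prop := ∀ (N k : ℕ) (f : (Fin N → Bool) → ℝ), 1 ≤ k → (∀ x, f x = 1 ∨ f x = -1) →
  (∀ S : Finset (Fin N), k < S.card → coeff f S = 0) → specEntropy f ≤ 3 * (2 + Real.logb 2 k) * influence f

/-- **ADh** (restrictions). Uses: S_ADk.
Proof. `g = Q.blk A y f` has the values `1`, `-1` and `coeff g S = 0` for `k < |S|`: `¬ S ⊆ A`: Q.coeff_blk_zero; `S ⊆ A`: Q.marginal: the mean over `y` of `coeff (blk A y f) S^2` is `∑_{T ⊆ Aᶜ} coeff f (S ∪ T)^2 = 0` (`k < |S| ≤ |S ∪ T|`), a mean (finite sum) of nonnegative numbers, so all of them are `0`. S_ADk. -/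
def S_ADh : Prop := ∀ (N k : ℕ) (f : (Fin N → Bool) → ℝ), 1 ≤ k → (∀ x, f x = 1 ∨ f x = -1) →
  (∀ S : Finset (Fin N), k < S.card → coeff f S = 0) → Hq (3 * (2 + Real.logb 2 k)) f

end Pool.Agent.MP3145b1.AG
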