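import Pool.Agent.Lib.MP_3145b1_co.AG.Spec2
import Pool.Agent.Lib.MP_3145b1_co.F.Fin

/-!
# MP_3145b1_co, project AG, part 4 (architect helper45): depth-two formulas of bounded read as leaves

THEOREM. All restrictions of an OR of terms (or an XOR of terms and of a polynomial over `F_2` of degree at most `d`), every variable in at most `k` terms, are of the same form
(so the theorem of the hand-in DepthTwo gives the hereditary plain inequality `Hq (C (k^2 + d + 1))`, the leaf (her) of `RH`).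

RULES: as in AG/Spec2.lean (import Pool.Agent.Lib.MP_3145b1_co.AG.Spec4; write F.IsOr, F.IsXor, F.Sat).
-/

set_option autoImplicit false

namespace Pool.Agent.MP3145b1.AG

open Finset Pool.Agent.MP3145b1 Pool.Agent.MP3145b1.RC Pool.Agent.MP3145b1.RD Pool.Agent.MP3145b1.RT Pool.Agent.MP3145b1.UM Pool.Agent.MP3145b1.LD

/-- **DHo** (restriction of an OR of terms). Uses: nothing.
Proof. `J = univ.filter (fun j => F.Sat (M j \ A) (c j) y)`, `m' = J.card`, `e : Fin m' → Fin m` the enumeration of `J` (injective with image `J`, e.g. `J.orderEmbOfFin rfl` or `J.equivFin.symm`), `M' j = M (e j) ∩ A`, `c' j = c (e j)`. For `x' i = if i ∈ A then x i else y i`: `F.Sat (M j) (c j) x'` iff `F.Sat (M j ∩ A) (c j) x` and `F.Sat (M j \ A) (c j) y`;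
so `∃ j, Sat (M j) (c j) x'` iff `∃ j', Sat (M' j') (c' j') x`. Every variable is in at most as many `M' j'` as `M j` (card of the image under the injective map `e`). -/
def S_DHo : Prop := ∀ (n m k : ℕ) (M : Fin m → Finset (Fin n)) (c : Fin m → Fin n → Bool) (f : (Fin n → Bool) → ℝ)
  (A : Finset (Fin n)) (y : Fin n → Bool), (∀ i, (univ.filter fun j => i ∈ M j).card ≤ k) → F.IsOr M c f →
  ∃ (m' : ℕ) (M' : Fin m' → Finset (Fin n)) (c' : Fin m' → Fin n → Bool), (∀ i, (univ.filter fun j => i ∈ M' j).card ≤ k) ∧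
    F.IsOr M' c' (Q.blk A y f)

/-- **DHx** (restriction of an XOR). Uses: nothing.
Proof. The terms as in DHo: `∏ j, (if Sat (M j) (c j) x' then -1 else 1) = ∏ j', (if Sat (M' j') (c' j') x then -1 else 1)` (the factors with `j ∉ J` are `1`; Finset.prod over the image of `e`). The monomials: `N ∈ Q` with `y i = true` for all `i ∈ N \ A` becomes `N ∩ A`, the others give the factor `1`; `Q' = ` the sets `N' ⊆ A` such that the number of these `N ∈ Q` with `N ∩ A = N'` is odd
(`Q' ⊆ univ`; product over the fibres: Finset.prod_fiberwise, `(-1)^k` is `-1` for odd `k` and `1` for even `k`). `|N'| ≤ |N| ≤ d`. -/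
def S_DHx : Prop := ∀ (n m k d : ℕ) (M : Fin m → Finset (Fin n)) (c : Fin m → Fin n → Bool) (f : (Fin n → Bool) → ℝ)
  (A : Finset (Fin n)) (y : Fin n → Bool), (∀ i, (univ.filter fun j => i ∈ M j).card ≤ k) → F.IsXor d M c f →
  ∃ (m' : ℕ) (M' : Fin m' → Finset (Fin n)) (c' : Fin m' → Fin n → Bool), (∀ i, (univ.filter fun j => i ∈ M' j).card ≤ k) ∧
    F.IsXor d M' c' (Q.blk A y f)

/-- the theorem of the hand-in DepthTwo (F.Fin, fin_main) -/
def S_D2 : Prop := ∃ C : ℝ, 0 < C ∧ ∀ (n m k d : ℕ) (M : Fin m → Finset (Fin n)) (c : Fin m → Fin n → Bool) (f : (Fin n → Bool) → ℝ),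
  (∀ i, (univ.filter fun j => i ∈ M j).card ≤ k) → (F.IsOr M c f ∨ F.IsXor d M c f) → specEntropy f ≤ C * (k ^ 2 + d + 1) * influence f

/-- **DHf** (leaves). Uses: S_D2, S_DHo, S_DHx. -/
def S_DHf : Prop := ∃ C : ℝ, 0 < C ∧ ∀ (n m k d : ℕ) (M : Fin m → Finset (Fin n)) (c : Fin m → Fin n → Bool) (f : (Fin n → Bool) → ℝ),
  (∀ i, (univ.filter fun j => i ∈ M j).card ≤ k) → (F.IsOr M c f ∨ F.IsXor d M c f) → Hq (C * (k ^ 2 + d + 1)) f

end Pool.Agent.MP3145b1.AG
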