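import Pool.Agent.Lib.MP_3145b1_co.AG.Spec2

/-!
# MP_3145b1_co, project AG, part 5 (architect helper45): almost unate gates (min-entropy)

THEOREM. The sharp min-entropy inequality is preserved by every gate `φ` with `|E D_i φ| ≥ exp (- c) P(i pivotal)` for all `i < M` (product measure with the biases of the inputs),
with the constant `12 + 2 c`; `c = 0` contains all unate gates.

RULES: as in AG/Spec2.lean (import Pool.Agent.Lib.MP_3145b1_co.AG.Spec5).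
-/

set_option autoImplicit false

namespace Pool.Agent.MP3145b1.AG

open Finset Pool.Agent.MP3145b1 Pool.Agent.MP3145b1.RC Pool.Agent.MP3145b1.RD Pool.Agent.MP3145b1.RT Pool.Agent.MP3145b1.UM Pool.Agent.MP3145b1.LD

/-- **UGD** (gate condition for almost unate gates). Uses: S_TPar, S_ULg, S_UAv. MODEL: UM/UGU.lean.
Proof. `J = range M`, `c T = Co a p J T F z`, `x T = wt T * c T^2`, `Q i = QQ .. i ≤ 1` (`Q i = Av (J.erase i) ((hA (a i) F)^2) z`, S_TPar (1) with `B = ∅`, Co_insert_mem, Co_hA), `ι T = if h : T.Nonempty then h.choose else 0`, `D = ∑_{T ≠ ∅} (|T| - 1) x T`. For `x T > 0`, `i = ι T ∈ T`: `vi p i > 0`, `Q i ≥` one positive term `> 0`, and `|c {i}| ≥ exp (-e) Q i > 0` (`e` = the constant `c` of the statement).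
`X T = log (1/c {ι T}^2) + κ (ι T) = 2 log (1/Q (ι T)) + κ (ι T) + log (Q^2/c {ι T}^2)`. (i) `∑_{T ≠ ∅} x T (2 log (1/Q (ι T)) + κ (ι T)) ≤ ∑ x T ∑_{i ∈ T} κ i + 10 D` as in UM/UGU.lean. (ii) `|T| ≥ 2`: `log (Q^2/c^2) ≤ 2 e`, sum `≤ 2 e D`. (iii) `T = {i}`: `x T log (Q_i^2/c_i^2) = vi p i * c_i^2 log (Q_i^2/c_i^2) ≤ vi p i (Q_i^2 - c_i^2) ≤ vi p i (Q_i - c_i^2) = ∑_{T' ∋ i, |T'| ≥ 2} x T'`
(`log y ≤ y - 1`, `Q_i ≤ 1`, `vi p i * Q i = ∑_{T' ∋ i} x T'`); the sum over `i` is `≤ ∑_{|T'| ≥ 2} |T'| x T' ≤ 2 D`. Total: `∑_{T ≠ ∅} x T X T ≤ ∑ x T ∑ κ + (12 + 2 e) D`. S_UAv: `T1` with `x T1 > 0`, `V X T1 ≤ ..`; the set of GM is `{ι T1}` (`wt {i} * c {i}^2 > 0`). -/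
def S_UGD : Prop := ∀ (K e : ℝ) (a p : ℕ → ℝ) (M : ℕ) (F : ℝ → ℝ) (z : ℝ), 0 ≤ e → 12 + 2 * e ≤ K → (∀ i, 0 ≤ p i ∧ p i ≤ 1) →
  (∀ y, F y = 1 ∨ F y = -1) → (∀ i, i < M → QQ a p (range M) F z i ≤ Real.exp e * |Co a p (range M) {i} F z|) →
  GM K p M (fun T => Co a p (range M) T F z)

/-- almost unate gate: for the product measure with the probabilities `p` (of `false`) and every `i < M` the absolute value of the mean of the derivative in the direction `i`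
is at least `exp (- e)` times the probability that `i` is pivotal -/
def Du (e : ℝ) (p : ℕ → ℝ) (M : ℕ) (φ : Finset ℕ → Bool) : Prop := ∀ i, i < M →
  QQ tw p (range M) (Ph φ) 0 i ≤ Real.exp e * |Co tw p (range M) {i} (Ph φ) 0|

/-- **UDa** (almost unate gates). Uses: S_Vsm, S_TCfo, S_UGD, S_UCm. MODEL: UM/UUa.lean (`tw i = 2^i`, `Ph φ` is the function used there). -/
def S_UDa : Prop := ∀ (K e : ℝ) (N M : ℕ) (P : ℕ → Finset (Fin N)) (u : ℕ → (Fin N → Bool) → ℝ) (φ : Finset ℕ → Bool),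
  0 ≤ e → 12 + 2 * e ≤ K → Du e (pb u) M φ → Cp P u → (∀ i, Mq K (u i)) →
  Mq K (fun x => if φ ((range M).filter (fun i => u i x = -1)) then (-1 : ℝ) else 1)

/-- **Read-once compositions for the min-entropy**: the smallest class of functions `(Fin N → Bool) → {1, -1}` which contains
(leaf) every function `f` with values `1`, `-1` and `Pm C0 f` (plain min-entropy inequality; the constants and the variables among them), with `f`
also `-f`, and with functions `u i` (`i : ℕ`) of pairwise disjoint sets `P i` of variables also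
(una) every unate function of the `u i`, `i < M`; (dun) every function `φ` of the `u i`, `i < M`, such that for the product measure with the biases of the `u i` and every `i < M`
the absolute value of the mean of the derivative in the direction `i` is at least `exp (- C0)` times the probability that `i` is pivotal (`Du`); (gen), (arb), (thr), (sym), (prog) as in `RH`. -/
inductive UD (w : ℕ) (s C0 : ℝ) {N : ℕ} : ((Fin N → Bool) → ℝ) → Prop
  | leaf (f : (Fin N → Bool) → ℝ) (hv : ∀ x, f x = 1 ∨ f x = -1) (hf : Pm C0 f) : UD w s C0 f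
  | neg (f : (Fin N → Bool) → ℝ) (hf : UD w s C0 f) : UD w s C0 (fun x => - f x)
  | una (P : ℕ → Finset (Fin N)) (u : ℕ → (Fin N → Bool) → ℝ)
      (hP : ∀ i j, i ≠ j → Disjoint (P i) (P j)) (hd : ∀ i, Dp (P i) (u i)) (hu : ∀ i, UD w s C0 (u i))
      (M : ℕ) (φ : Finset ℕ → Bool)
      (hφ : ∀ i, i < M → (∀ U, U ⊆ range M → i ∉ U → φ U = true → φ (insert i U) = true) ∨
        (∀ U, U ⊆ range M → i ∉ U → φ (insert i U) = true → φ U = true)) :
      UD w s C0 (fun x => if φ ((range M).filter (fun i => u i x = -1)) then -1 else 1)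
  | dun (P : ℕ → Finset (Fin N)) (u : ℕ → (Fin N → Bool) → ℝ)
      (hP : ∀ i j, i ≠ j → Disjoint (P i) (P j)) (hd : ∀ i, Dp (P i) (u i)) (hu : ∀ i, UD w s C0 (u i))
      (M : ℕ) (φ : Finset ℕ → Bool) (hφ : Du C0 (pb u) M φ) :
      UD w s C0 (fun x => if φ ((range M).filter (fun i => u i x = -1)) then -1 else 1)
  | gen (P : ℕ → Finset (Fin N)) (u : ℕ → (Fin N → Bool) → ℝ)
      (hP : ∀ i j, i ≠ j → Disjoint (P i) (P j)) (hd : ∀ i, Dp (P i) (u i)) (hu : ∀ i, UD w s C0 (u i))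
      (M : ℕ) (φ : Finset ℕ → Bool) (hφ : Hd C0 (pb u) M φ) :
      UD w s C0 (fun x => if φ ((range M).filter (fun i => u i x = -1)) then -1 else 1)
  | arb (P : ℕ → Finset (Fin N)) (u : ℕ → (Fin N → Bool) → ℝ)
      (hP : ∀ i j, i ≠ j → Disjoint (P i) (P j)) (hd : ∀ i, Dp (P i) (u i)) (hu : ∀ i, UD w s C0 (u i))
      (M : ℕ) (hs : ∑ i ∈ range M, (1 - coeff (u i) ∅ ^ 2) ≤ s) (φ : Finset ℕ → Bool) :
      UD w s C0 (fun x => if φ ((range M).filter (fun i => u i x = -1)) then -1 else 1)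
  | thr (P : ℕ → Finset (Fin N)) (u : ℕ → (Fin N → Bool) → ℝ)
      (hP : ∀ i j, i ≠ j → Disjoint (P i) (P j)) (hd : ∀ i, Dp (P i) (u i)) (hu : ∀ i, UD w s C0 (u i))
      (M : ℕ) (a : ℕ → ℝ) (θ1 θ2 : ℝ) :
      UD w s C0 (fun x => if θ1 ≤ ∑ i ∈ range M, (if u i x = -1 then a i else 0) ∧
        ∑ i ∈ range M, (if u i x = -1 then a i else 0) < θ2 then -1 else 1)
  | sym (P : ℕ → Finset (Fin N)) (u : ℕ → (Fin N → Bool) → ℝ)
      (hP : ∀ i j, i ≠ j → Disjoint (P i) (P j)) (hd : ∀ i, Dp (P i) (u i)) (hu : ∀ i, UD w s C0 (u i))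
      (M : ℕ) (φ : ℕ → Bool) :
      UD w s C0 (fun x => if φ ((range M).filter (fun i => u i x = -1)).card then -1 else 1)
  | prog (P : ℕ → Finset (Fin N)) (u : ℕ → (Fin N → Bool) → ℝ)
      (hP : ∀ i j, i ≠ j → Disjoint (P i) (P j)) (hd : ∀ i, Dp (P i) (u i)) (hu : ∀ i, UD w s C0 (u i))
      (n : ℕ) (σ : ℕ → Fin w → Bool → Fin w) (v : ℕ → Fin w → ℕ) (x0 : Fin w) (o : Fin w → Bool)
      (hr : ReadOnce σ v n x0) :
      UD w s C0 (fun x => if o (run σ v x0 (fun i => decide (u i x = -1)) n) then -1 else 1)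

/-- **AC5** (the class UD). Uses: S_UTh, S_USy, S_UUa, S_UPr, S_ULv, S_AGm, S_AHm, S_UDa. MODEL: AG/AC4.lean (one more case; `12 + 2 C0 ≤ K` from `30000 ≤ K` and `13 C0 ≤ K`: if `2 C0 ≤ K/2` clear, as `13 C0 ≤ K` gives `2 C0 ≤ 2 K/13` and `12 ≤ K/2`). -/
def S_AC5 : Prop := ∀ (w : ℕ) (K0 K s C0 : ℝ), PG w K0 → K0 ≤ K → 30000 ≤ K → 25 / 2 + 7 / 2 * Real.log (1 + 3 * s) ≤ K →
  0 ≤ C0 → 13 * C0 ≤ K → ∀ (N : ℕ) (f : (Fin N → Bool) → ℝ), UD w s C0 f → (∀ x, f x = 1 ∨ f x = -1) ∧ Mq K f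

/-- **AF5** (final statement, min-entropy). Uses: S_GVar, S_GPg, S_AC5, S_UMn. MODEL: AG/AF4.lean. -/
def S_AF5 : Prop := ∃ C : ℝ, 0 < C ∧ ∀ w : ℕ, 1 ≤ w → ∀ s C0 : ℝ, 0 ≤ s → 0 ≤ C0 → ∀ (N : ℕ) (f : (Fin N → Bool) → ℝ), UD w s C0 f →
  (0 < 1 - coeff f ∅ ^ 2 → ∃ S : Finset (Fin N), S ≠ ∅ ∧ coeff f S ≠ 0 ∧
    (1 - coeff f ∅ ^ 2) * Real.log (1 / coeff f S ^ 2) ≤
      C * (w + Real.log (2 + s) + C0) * (influence f - (1 - coeff f ∅ ^ 2))) ∧
  ∃ S : Finset (Fin N), Real.exp (-(C * (w + Real.log (2 + s) + C0) * influence f)) ≤ |coeff f S|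

end Pool.Agent.MP3145b1.AG
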